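import Mathlib

-- part MP_7a723b_nt.Tay
section

/-! Taylor series of polynomials and of holomorphic functions on a disc; integer coefficients.
(Adapted from the library of helper48 for another problem.) -/

namespace Pool.Agent.MP_7a723b_nt

open Finset Metric

/-- Taylor expansion of a polynomial at `ξ` -/
noncomputable def tau (ξ : ℂ) : Polynomial ℂ →ₐ[ℂ] PowerSeries ℂ :=
  Polynomial.aeval (PowerSeries.C ξ + PowerSeries.X)

lemma tau_X (ξ : ℂ) : tau ξ Polynomial.X = PowerSeries.C ξ + PowerSeries.X := by simp [tau]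

lemma tau_C (ξ c : ℂ) : tau ξ (Polynomial.C c) = PowerSeries.C c := by
  simp [tau]

lemma tau_derivative (ξ : ℂ) (p : Polynomial ℂ) :
    tau ξ (Polynomial.derivative' p) = PowerSeries.derivative ℂ (tau ξ p) := by
  rw [tau, Derivation.map_aeval]
  simp

lemma tau_eq (ξ : ℂ) (p : Polynomial ℂ) :
    tau ξ p = ((Polynomial.taylor ξ p : Polynomial ℂ) : PowerSeries ℂ) := by
  have : tau ξ = (Polynomial.coeToPowerSeries.algHom ℂ).comp (Polynomial.taylorAlgHom ξ) := by
    apply Polynomial.algHom_ext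
    simp [tau, Polynomial.coeToPowerSeries.algHom_apply, add_comm]
  rw [this]
  simp [Polynomial.coeToPowerSeries.algHom_apply]

lemma tau_zero (p : Polynomial ℂ) : tau 0 p = (p : PowerSeries ℂ) := by
  rw [tau_eq, Polynomial.taylor_zero]

lemma dvd_of_tau (ξ : ℂ) (p : Polynomial ℂ) (r : ℕ) (h : PowerSeries.X ^ r ∣ tau ξ p) :
    (Polynomial.X - Polynomial.C ξ) ^ r ∣ p := by
  rw [tau_eq, PowerSeries.X_pow_dvd_iff] at h
  have h1 : Polynomial.X ^ r ∣ Polynomial.taylor ξ p := by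
    rw [Polynomial.X_pow_dvd_iff]
    intro d hd
    simpa using h d hd
  have h2 := map_dvd (Polynomial.taylorAlgHom (-ξ)) h1
  have h3 : Polynomial.taylorAlgHom (-ξ) (Polynomial.taylor ξ p) = p := by
    change Polynomial.taylor (-ξ) (Polynomial.taylor ξ p) = p
    rw [Polynomial.taylor_taylor]; simp
  have h4 : Polynomial.taylorAlgHom (-ξ) (Polynomial.X ^ r) =
      (Polynomial.X - Polynomial.C ξ) ^ r := by
    change Polynomial.taylor (-ξ) (Polynomial.X ^ r) = _
    rw [Polynomial.taylor_X_pow, Polynomial.C_neg, sub_eq_add_neg]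
  rwa [h3, h4] at h2

lemma X_pow_dvd_derivative {f : PowerSeries ℂ} {r : ℕ} (h : PowerSeries.X ^ r ∣ f) :
    PowerSeries.X ^ (r - 1) ∣ PowerSeries.derivative ℂ f := by
  rw [PowerSeries.X_pow_dvd_iff] at h ⊢
  intro m hm
  rw [PowerSeries.coeff_derivative, h _ (by omega), zero_mul]

lemma X_pow_dvd_iter (T : PowerSeries ℂ) {f : PowerSeries ℂ} {r : ℕ}
    (h : PowerSeries.X ^ r ∣ f) (k : ℕ) :
    PowerSeries.X ^ (r - k) ∣ (fun g => T * PowerSeries.derivative ℂ g)^[k] f := by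
  induction k with
  | zero => simpa using h
  | succ k ih =>
    rw [Function.iterate_succ_apply', ← Nat.sub_sub]
    exact (X_pow_dvd_derivative ih).mul_left _

/-- Taylor series at a point -/
noncomputable def tay (ξ : ℂ) (f : ℂ → ℂ) : PowerSeries ℂ :=
  PowerSeries.mk fun k => ((k.factorial : ℂ)⁻¹) * iteratedDeriv k f ξ

lemma coeff_tay (ξ : ℂ) (f : ℂ → ℂ) (k : ℕ) :
    PowerSeries.coeff k (tay ξ f) = ((k.factorial : ℂ)⁻¹) * iteratedDeriv k f ξ := by
  simp [tay]

lemma tay_congr {ξ : ℂ} {f g : ℂ → ℂ} (h : f =ᶠ[nhds ξ] g) : tay ξ f = tay ξ g := by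
  ext k
  rw [coeff_tay, coeff_tay, h.iteratedDeriv_eq]

lemma tay_deriv (ξ : ℂ) (f : ℂ → ℂ) :
    tay ξ (deriv f) = PowerSeries.derivative ℂ (tay ξ f) := by
  ext k
  rw [PowerSeries.coeff_derivative, coeff_tay, coeff_tay, iteratedDeriv_succ', Nat.factorial_succ]
  have h3 : (k.factorial : ℂ) ≠ 0 := by exact_mod_cast Nat.factorial_ne_zero _
  have h4 : ((k : ℂ) + 1) ≠ 0 := by exact_mod_cast Nat.succ_ne_zero k
  push_cast; field_simp

lemma tay_const (ξ c : ℂ) : tay ξ (fun _ => c) = PowerSeries.C c := by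
  ext k
  rw [coeff_tay, iteratedDeriv_const, PowerSeries.coeff_C]
  split_ifs with h
  · subst h; simp
  · simp

lemma tay_id (ξ : ℂ) : tay ξ (fun z => z) = PowerSeries.C ξ + PowerSeries.X := by
  ext k
  rw [coeff_tay, iteratedDeriv_fun_id, map_add, PowerSeries.coeff_C, PowerSeries.coeff_X]
  rcases k with _ | _ | k <;> simp

lemma tay_mul {ξ : ℂ} {f g : ℂ → ℂ} (hf : AnalyticAt ℂ f ξ) (hg : AnalyticAt ℂ g ξ) :
    tay ξ (f * g) = tay ξ f * tay ξ g := by
  ext k
  rw [coeff_tay, iteratedDeriv_mul hf.contDiffAt hg.contDiffAt, PowerSeries.coeff_mul,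
    Finset.Nat.sum_antidiagonal_eq_sum_range_succ_mk, Finset.mul_sum]
  refine Finset.sum_congr rfl fun i hi => ?_
  have hi' : i ≤ k := by simpa [Nat.lt_succ_iff] using hi
  rw [coeff_tay, coeff_tay]
  have h := Nat.choose_mul_factorial_mul_factorial hi'
  have h2 : (k.factorial : ℂ) = k.choose i * i.factorial * (k - i).factorial := by
    rw [← h]; push_cast; ring
  have h3 : (i.factorial : ℂ) ≠ 0 := by exact_mod_cast Nat.factorial_ne_zero _
  have h4 : ((k - i).factorial : ℂ) ≠ 0 := by exact_mod_cast Nat.factorial_ne_zero _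
  have h5 : (k.choose i : ℂ) ≠ 0 := by
    have : 0 < k.choose i := Nat.choose_pos hi'
    exact_mod_cast this.ne'
  rw [h2]
  field_simp

lemma tay_add {ξ : ℂ} {f g : ℂ → ℂ} (hf : AnalyticAt ℂ f ξ) (hg : AnalyticAt ℂ g ξ) :
    tay ξ (f + g) = tay ξ f + tay ξ g := by
  ext k
  rw [map_add, coeff_tay, coeff_tay, coeff_tay, iteratedDeriv_add hf.contDiffAt hg.contDiffAt]
  ring

/-- holomorphic functions on the disc of radius `ρ` -/
def Hol (ρ : ℝ) : Subalgebra ℂ (ℂ → ℂ) where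
  carrier := {f | DifferentiableOn ℂ f (ball 0 ρ)}
  mul_mem' := fun hf hg => DifferentiableOn.mul hf hg
  add_mem' := fun hf hg => DifferentiableOn.add hf hg
  algebraMap_mem' := fun c => differentiableOn_const c

lemma Hol.analyticAt {ρ : ℝ} (f : Hol ρ) {ξ : ℂ} (hξ : ξ ∈ ball (0 : ℂ) ρ) :
    AnalyticAt ℂ f.1 ξ :=
  DifferentiableOn.analyticAt f.2 (isOpen_ball.mem_nhds hξ)

/-- the Taylor homomorphism -/
noncomputable def tayH {ρ : ℝ} {ξ : ℂ} (hξ : ξ ∈ ball (0 : ℂ) ρ) : Hol ρ →ₐ[ℂ] PowerSeries ℂ where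
  toFun f := tay ξ f.1
  map_one' := (tay_const ξ 1).trans (map_one _)
  map_mul' f g := tay_mul (Hol.analyticAt f hξ) (Hol.analyticAt g hξ)
  map_zero' := (tay_const ξ 0).trans (map_zero _)
  map_add' f g := tay_add (Hol.analyticAt f hξ) (Hol.analyticAt g hξ)
  commutes' c := (tay_const ξ c).trans (by simp)

lemma tayH_apply {ρ : ℝ} {ξ : ℂ} (hξ : ξ ∈ ball (0 : ℂ) ρ) (f : Hol ρ) :
    tayH hξ f = tay ξ f.1 := rfl

/-- evaluation -/
def evH (ρ : ℝ) (z : ℂ) : Hol ρ →ₐ[ℂ] ℂ :=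
  (Pi.evalAlgHom ℂ (fun _ : ℂ => ℂ) z).comp (Hol ρ).val

lemma evH_apply (ρ : ℝ) (z : ℂ) (f : Hol ρ) : evH ρ z f = f.1 z := rfl

/-- the identity function -/
def idH (ρ : ℝ) : Hol ρ := ⟨fun z => z, differentiableOn_id⟩

/-- polynomials as holomorphic functions -/
noncomputable def polyH (ρ : ℝ) : Polynomial ℂ →ₐ[ℂ] Hol ρ := Polynomial.aeval (idH ρ)

lemma tayH_polyH {ρ : ℝ} {ξ : ℂ} (hξ : ξ ∈ ball (0 : ℂ) ρ) (p : Polynomial ℂ) :
    tayH hξ (polyH ρ p) = tau ξ p := by
  have : (tayH hξ).comp (polyH ρ) = tau ξ := by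
    apply Polynomial.algHom_ext
    rw [tau_X, AlgHom.comp_apply, polyH, Polynomial.aeval_X, tayH_apply]
    exact tay_id ξ
  rw [← this]; rfl

lemma evH_polyH (ρ : ℝ) (z : ℂ) (p : Polynomial ℂ) : evH ρ z (polyH ρ p) = p.eval z := by
  have : (evH ρ z).comp (polyH ρ) = Polynomial.aeval z := by
    apply Polynomial.algHom_ext
    rw [AlgHom.comp_apply, polyH, Polynomial.aeval_X, Polynomial.aeval_X]
    rfl
  have h := congrArg (fun φ => φ p) this
  simpa [Polynomial.coe_aeval_eq_eval] using h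

lemma cauchy_est {ρ : ℝ} (f : Hol ρ) {c : ℂ} {r B : ℝ} (hr : 0 < r) (hc : ‖c‖ + r < ρ)
    (hB : ∀ z, ‖z - c‖ = r → ‖f.1 z‖ ≤ B) (k : ℕ) :
    ‖PowerSeries.coeff k (tay c f.1)‖ ≤ B / r ^ k := by
  have hsub : closedBall c r ⊆ ball (0 : ℂ) ρ := by
    intro z hz
    rw [mem_closedBall, dist_eq_norm] at hz
    rw [mem_ball, dist_zero_right]
    calc ‖z‖ = ‖c + (z - c)‖ := by ring_nf
      _ ≤ ‖c‖ + ‖z - c‖ := norm_add_le _ _
      _ < ρ := by linarith
  have hd : DiffContOnCl ℂ f.1 (ball c r) := by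
    apply DifferentiableOn.diffContOnCl
    rw [closure_ball c hr.ne']
    exact DifferentiableOn.mono f.2 hsub
  have h := Complex.norm_iteratedDeriv_le_of_forall_mem_sphere_norm_le k hr hd
    (fun z hz => hB z (by simpa [dist_eq_norm] using hz))
  have h3 : (0 : ℝ) < k.factorial := by exact_mod_cast Nat.factorial_pos _
  rw [coeff_tay, norm_mul, norm_inv, Complex.norm_natCast, inv_mul_le_iff₀ h3, ← mul_div_assoc]
  exact h

lemma schwarz_est {ρ : ℝ} (f : Hol ρ) {r B : ℝ} (hr : 0 < r) (hρ : r < ρ)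
    (hB : ∀ z, ‖z‖ = r → ‖f.1 z‖ ≤ B) {ν : ℕ} (hν : PowerSeries.X ^ ν ∣ tay 0 f.1)
    {q : ℝ} (hq : q ≤ 1 / 2) {z : ℂ} (hz : ‖z‖ ≤ q * r) : ‖f.1 z‖ ≤ 2 * B * q ^ ν := by
  have hq0 : 0 ≤ q := by
    have := norm_nonneg z
    by_contra h
    push Not at h
    nlinarith
  have hB0 : 0 ≤ B := le_trans (norm_nonneg _) (hB (r : ℂ) (by simp [hr.le]))
  have hzρ : z ∈ ball (0 : ℂ) ρ := by
    rw [mem_ball, dist_zero_right]; nlinarith
  have hs := Complex.hasSum_taylorSeries_on_ball f.2 hzρ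
  have hs' : HasSum (fun n => PowerSeries.coeff n (tay 0 f.1) * z ^ n) (f.1 z) := by
    have : (fun n => PowerSeries.coeff n (tay 0 f.1) * z ^ n) =
        fun n : ℕ => (n.factorial : ℂ)⁻¹ • (z - 0) ^ n • iteratedDeriv n f.1 0 := by
      funext n
      rw [coeff_tay]; simp; ring
    rw [this]; exact hs
  rw [PowerSeries.X_pow_dvd_iff] at hν
  have hs2 := (hasSum_nat_add_iff' ν).2 hs'
  rw [Finset.sum_eq_zero (fun i hi => by rw [hν i (mem_range.1 hi), zero_mul]), sub_zero] at hs2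
  have hg : HasSum (fun n : ℕ => B * q ^ ν * (1 / 2 : ℝ) ^ n) (B * q ^ ν * 2) :=
    hasSum_geometric_two.mul_left _
  have := hs2.norm_le_of_bounded hg (fun n => ?_)
  · linarith
  · have h1 := cauchy_est f (c := 0) hr (by simpa using hρ) (fun z hz => hB z (by simpa using hz))
      (n + ν)
    rw [norm_mul, norm_pow]
    calc ‖PowerSeries.coeff (n + ν) (tay 0 f.1)‖ * ‖z‖ ^ (n + ν)
        ≤ B / r ^ (n + ν) * (q * r) ^ (n + ν) := by gcongr
      _ = B * q ^ ν * q ^ n := by rw [mul_pow]; field_simp; ring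
      _ ≤ B * q ^ ν * (1 / 2) ^ n := by gcongr
lemma norm_mul_lt_one {ρ : ℝ} {a z : ℂ} (ha : ‖a‖ * ρ ≤ 1) (hz : z ∈ ball (0 : ℂ) ρ) :
    ‖a * z‖ < 1 := by
  rw [mem_ball, dist_zero_right] at hz
  rw [norm_mul]
  rcases eq_or_lt_of_le (norm_nonneg a) with h | h
  · rw [← h]; simp
  · calc ‖a‖ * ‖z‖ < ‖a‖ * ρ := by gcongr
      _ ≤ 1 := ha

lemma hasDerivAt_log {a z : ℂ} (h : ‖a * z‖ < 1) :
    HasDerivAt (fun z => Complex.log (1 + a * z)) (a / (1 + a * z)) z := by
  have h1 : HasDerivAt (fun z => 1 + a * z) a z := by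
    simpa using ((hasDerivAt_id z).const_mul a).const_add 1
  exact h1.clog (Complex.mem_slitPlane_of_norm_lt_one h)

/-- the function `log (1 + a z)` -/
noncomputable def logH (ρ : ℝ) (a : ℂ) (ha : ‖a‖ * ρ ≤ 1) : Hol ρ :=
  ⟨fun z => Complex.log (1 + a * z), fun _ hz =>
    (hasDerivAt_log (norm_mul_lt_one ha hz)).differentiableAt.differentiableWithinAt⟩

lemma logH_ode {ρ : ℝ} {a : ℂ} (ha : ‖a‖ * ρ ≤ 1) {ξ : ℂ} (hξ : ξ ∈ ball (0 : ℂ) ρ) :
    tau ξ (1 + Polynomial.C a * Polynomial.X) *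
      PowerSeries.derivative ℂ (tayH hξ (logH ρ a ha)) = PowerSeries.C a := by
  rw [← tayH_polyH hξ, tayH_apply, tayH_apply, ← tay_deriv,
    ← tay_mul (Hol.analyticAt _ hξ) (Hol.analyticAt _ hξ).deriv, ← tay_const ξ a]
  apply tay_congr
  filter_upwards [isOpen_ball.mem_nhds hξ] with z hz
  have h1 := norm_mul_lt_one ha hz
  have h2 : deriv (logH ρ a ha).1 z = a / (1 + a * z) := (hasDerivAt_log h1).deriv
  have h3 : (polyH ρ (1 + Polynomial.C a * Polynomial.X)).1 z = 1 + a * z := by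
    rw [← evH_apply, evH_polyH]; simp
  have h4 : 1 + a * z ≠ 0 := Complex.slitPlane_ne_zero (Complex.mem_slitPlane_of_norm_lt_one h1)
  rw [Pi.mul_apply, h2, h3]
  field_simp

lemma norm_logH_le {ρ : ℝ} {a : ℂ} (ha : ‖a‖ * ρ ≤ 1) {z : ℂ} (hz : ‖z‖ ≤ ρ / 2) :
    ‖(logH ρ a ha).1 z‖ ≤ 1 := by
  have h1 : ‖a * z‖ ≤ 1 / 2 := by
    rw [norm_mul]
    calc ‖a‖ * ‖z‖ ≤ ‖a‖ * (ρ / 2) := by gcongr
      _ ≤ 1 / 2 := by linarith
  have := Complex.norm_log_one_add_half_le_self h1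
  change ‖Complex.log (1 + a * z)‖ ≤ 1
  linarith

section Int
open PowerSeries

/-- the integers inside the complex numbers -/
def ZZ : Subring ℂ := (Int.castRingHom ℂ).range

lemma mem_ZZ {x : ℂ} : x ∈ ZZ ↔ ∃ z : ℤ, (z : ℂ) = x := Iff.rfl

lemma ZZ.eq_zero {x : ℂ} (hx : x ∈ ZZ) (h : ‖x‖ < 1) : x = 0 := by
  obtain ⟨z, rfl⟩ := mem_ZZ.1 hx
  rw [Complex.norm_intCast] at h
  have : |z| < 1 := by exact_mod_cast h
  rw [Int.abs_lt_one_iff] at this
  simp [this]

/-- power series whose first coefficients are integers -/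
def IntK (K : ℕ) : Subring (PowerSeries ℂ) where
  carrier := {f | ∀ j ≤ K, coeff j f ∈ ZZ}
  mul_mem' := by
    intro f g hf hg j hj
    rw [coeff_mul]
    refine Subring.sum_mem _ fun p hp => ?_
    have hp' : p.1 + p.2 = j := by simpa using hp
    exact ZZ.mul_mem (hf _ (by omega)) (hg _ (by omega))
  one_mem' := by
    intro j _
    rw [coeff_one]; split_ifs
    · exact ZZ.one_mem
    · exact ZZ.zero_mem
  add_mem' := by
    intro f g hf hg j hj
    rw [map_add]; exact ZZ.add_mem (hf j hj) (hg j hj)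
  zero_mem' := by intro j _; simp
  neg_mem' := by
    intro f hf j hj
    rw [map_neg]; exact ZZ.neg_mem (hf j hj)

lemma C_mem_IntK (K : ℕ) {x : ℂ} (hx : x ∈ ZZ) : (C x : PowerSeries ℂ) ∈ IntK K := by
  intro j _
  rw [coeff_C]; split_ifs
  · exact hx
  · exact ZZ.zero_mem

lemma X_mem_IntK (K : ℕ) : (X : PowerSeries ℂ) ∈ IntK K := by
  intro j _
  rw [coeff_X]; split_ifs
  · exact ZZ.one_mem
  · exact ZZ.zero_mem

lemma rescale_C' (r x : ℂ) : rescale r (C x : PowerSeries ℂ) = C x := by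
  ext j
  rw [coeff_rescale, coeff_C]; split_ifs with h
  · simp [h]
  · simp

end Int

end Pool.Agent.MP_7a723b_nt

end

-- part MP_7a723b_nt.Alg
section

/-! Twisted derivation for the functions `prod (1 + j z)^(1/k)`; the Wronskian does not vanish;
many point zero estimate. -/

namespace Pool.Agent.MP_7a723b_nt

open Finset Polynomial

/-- `1 + j X` -/
noncomputable def lin (j : ℕ) : ℂ[X] := 1 + C (j : ℂ) * X

/-- common denominator -/
noncomputable def QQ (M : ℕ) : ℂ[X] := ∏ j ∈ Icc 1 M, lin j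

/-- common denominator without one factor -/
noncomputable def Qe (M j : ℕ) : ℂ[X] := ∏ l ∈ (Icc 1 M).erase j, lin l

/-- numerator of the logarithmic derivative -/
noncomputable def qq (M m : ℕ) : ℂ[X] := ∑ j ∈ Icc 1 m, C (j : ℂ) * Qe M j

/-- the twisted derivation -/
noncomputable def tw (k M m : ℕ) (A : ℂ[X]) : ℂ[X] :=
  C (k : ℂ) * QQ M * derivative A + qq M m * A

lemma QQ_eq {M j : ℕ} (hj : j ∈ Icc 1 M) : QQ M = lin j * Qe M j :=
  (Finset.mul_prod_erase _ _ hj).symm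

lemma lin_mul_derivative_pow (z : ℂ) (r : ℕ) :
    (X - C z) * derivative ((X - C z) ^ r) = C (r : ℂ) * (X - C z) ^ r := by
  cases r with
  | zero => simp
  | succ r =>
    rw [derivative_pow]
    simp only [derivative_sub, derivative_X, derivative_C, sub_zero, mul_one, add_tsub_cancel_right]
    ring

lemma wr_ident (z : ℂ) (r s : ℕ) (f h : ℂ[X]) :
    (X - C z) * (((X - C z) ^ r * f) * derivative ((X - C z) ^ s * h) -
        derivative ((X - C z) ^ r * f) * ((X - C z) ^ s * h)) =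
      (X - C z) ^ (r + s) * (C ((s : ℂ) - r) * f * h +
        (X - C z) * (f * derivative h - derivative f * h)) := by
  have h1 := lin_mul_derivative_pow z r
  have h2 := lin_mul_derivative_pow z s
  rw [derivative_mul, derivative_mul, pow_add, C_sub]
  linear_combination ((X - C z) ^ r * f * h) * h2 - ((X - C z) ^ s * f * h) * h1

lemma exists_factor {f : ℂ[X]} (hf : f ≠ 0) (z : ℂ) :
    ∃ (r : ℕ) (g : ℂ[X]), f = (X - C z) ^ r * g ∧ g.eval z ≠ 0 := by
  obtain ⟨q, hq, hn⟩ := exists_eq_pow_rootMultiplicity_mul_and_not_dvd f hf z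
  exact ⟨_, q, hq, fun h => hn (dvd_iff_isRoot.2 h)⟩

lemma eval_lin (j : ℕ) (z : ℂ) : (lin j).eval z = 1 + j * z := by simp [lin]

lemma no_res {k M m m' : ℕ} (hk : 2 ≤ k) (hm : m' < m) (hM : m ≤ M) {f h : ℂ[X]} (hf : f ≠ 0)
    (hh : h ≠ 0)
    (H : C (k : ℂ) * QQ M * (derivative f * h - f * derivative h) =
      (qq M m - qq M m') * f * h) : False := by
  have hm0 : (m : ℂ) ≠ 0 := by exact_mod_cast (by omega : m ≠ 0)
  set z : ℂ := -(m : ℂ)⁻¹ with hz
  have hmem : m ∈ Icc 1 M := mem_Icc.2 ⟨by omega, hM⟩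
  have hlin : lin m = C (m : ℂ) * (X - C z) := by
    rw [lin, hz, mul_sub, ← C_mul, mul_neg, mul_inv_cancel₀ hm0]; simp; ring
  have hS : (Qe M m).eval z ≠ 0 := by
    rw [Qe, eval_prod]
    refine Finset.prod_ne_zero_iff.2 fun l hl => ?_
    rw [eval_lin, hz]
    intro h0
    have : (m : ℂ) = l := by field_simp at h0; linear_combination h0
    exact (mem_erase.1 hl).1 (by exact_mod_cast this.symm)
  have hother : ∀ j, j < m → (Qe M j).eval z = 0 := by
    intro j hj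
    rw [Qe, eval_prod]
    refine Finset.prod_eq_zero (i := m) (mem_erase.2 ⟨by omega, hmem⟩) ?_
    rw [eval_lin, hz]; field_simp; ring
  have hW : (qq M m - qq M m').eval z = m * (Qe M m).eval z := by
    have h1 : (qq M m').eval z = 0 := by
      rw [qq, eval_finsetSum]
      refine Finset.sum_eq_zero fun j hj => ?_
      rw [eval_mul, hother j (by have := (mem_Icc.1 hj).2; omega), mul_zero]
    have h2 : (qq M m).eval z = m * (Qe M m).eval z := by
      rw [qq, eval_finsetSum, Finset.sum_eq_single m]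
      · simp
      · intro j hj hne
        rw [eval_mul, hother j (by have := (mem_Icc.1 hj).2; omega), mul_zero]
      · intro h; exact absurd (mem_Icc.2 ⟨by omega, le_rfl⟩) h
    rw [eval_sub, h1, h2, sub_zero]
  obtain ⟨r, f1, hr, hf1⟩ := exists_factor hf z
  obtain ⟨s, h1, hs, hh1⟩ := exists_factor hh z
  have key := wr_ident z r s f1 h1
  rw [← hr, ← hs] at key
  have hX : (X - C z : ℂ[X]) ≠ 0 := X_sub_C_ne_zero z
  have H2 : -(C (k : ℂ) * C (m : ℂ) * Qe M m * (C ((s : ℂ) - r) * f1 * h1 +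
        (X - C z) * (f1 * derivative h1 - derivative f1 * h1))) =
      (qq M m - qq M m') * f1 * h1 := by
    apply mul_left_cancel₀ (pow_ne_zero (r + s) hX)
    rw [QQ_eq hmem, hlin] at H
    have e1 : (X - C z) ^ (r + s) * ((qq M m - qq M m') * f1 * h1) =
        (qq M m - qq M m') * f * h := by
      conv_rhs => rw [hr, hs]
      ring
    rw [e1, ← H]
    linear_combination (C (k : ℂ) * C (m : ℂ) * Qe M m) * key
  have H3 := congrArg (eval z) H2
  simp only [eval_neg, eval_mul, eval_C, eval_add, eval_sub, eval_X, sub_self, zero_mul,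
    add_zero] at H3
  rw [← eval_sub, hW] at H3
  have H4 : (k : ℂ) * ((r : ℂ) - s) = 1 := by
    have hne : (m : ℂ) * (Qe M m).eval z * f1.eval z * h1.eval z ≠ 0 := by
      simp [hm0, hS, hf1, hh1]
    apply mul_left_cancel₀ hne
    linear_combination H3
  have H5 : (k : ℤ) * ((r : ℤ) - s) = 1 := by exact_mod_cast H4
  have H6 : (k : ℤ) ∣ 1 := ⟨_, H5.symm⟩
  have := Int.le_of_dvd one_pos H6
  omega

variable {ι : Type*} [Fintype ι] [DecidableEq ι]

lemma NV {k M : ℕ} (hk : 2 ≤ k) {m : ι → ℕ} (hm : Function.Injective m) (hM : ∀ i, m i ≤ M)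
    {A : ι → ℂ[X]} (hA : ∀ i, A i ≠ 0) (r : ℕ) :
    ∀ v : ι → ℂ[X], (univ.filter fun i => v i ≠ 0).card ≤ r →
      (∀ t < r, ∑ i, (tw k M (m i))^[t] (A i) * v i = 0) → v = 0 := by
  classical
  induction r with
  | zero =>
    intro v hv _
    funext i
    by_contra h
    have : i ∈ univ.filter fun i => v i ≠ 0 := by simpa using h
    rw [Nat.le_zero, card_eq_zero] at hv
    simp [hv] at this
  | succ r ih =>
    intro v hv hz
    by_contra hne
    have hne' : (univ.filter fun i => v i ≠ 0).Nonempty := by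
      by_contra h
      apply hne
      funext i
      by_contra h'
      exact h ⟨i, by simpa using h'⟩
    obtain ⟨ρ, hρ, hmax⟩ := Finset.exists_max_image _ m hne'
    have hρ' : v ρ ≠ 0 := by simpa using hρ
    set w : ι → ℂ[X] := fun i => C (k : ℂ) * QQ M * derivative (v i) - qq M (m i) * v i with hw
    have hwz : ∀ t < r, ∑ i, (tw k M (m i))^[t] (A i) * w i = 0 := by
      intro t ht
      have h1 := congrArg (fun p => C (k : ℂ) * QQ M * derivative p) (hz t (by omega))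
      have h2 := hz (t + 1) (by omega)
      simp only [derivative_sum, derivative_zero, mul_zero, Finset.mul_sum] at h1
      rw [← sub_eq_zero.2 (h1.trans h2.symm), ← Finset.sum_sub_distrib]
      refine Finset.sum_congr rfl fun i _ => ?_
      rw [Function.iterate_succ_apply', derivative_mul, hw]
      simp only [tw]
      ring
    set u : ι → ℂ[X] := fun i => w ρ * v i - v ρ * w i with hu
    have hu0 : u = 0 := by
      apply ih
      · have hsub : (univ.filter fun i => u i ≠ 0) ⊆ (univ.filter fun i => v i ≠ 0).erase ρ := by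
          intro i hi
          have hi' : u i ≠ 0 := by simpa using hi
          refine mem_erase.2 ⟨?_, ?_⟩
          · rintro rfl
            apply hi'; simp only [hu]; ring
          · simp only [mem_filter, mem_univ, true_and]
            intro h0
            apply hi'; simp [hu, hw, h0]
        have := card_le_card hsub
        rw [card_erase_of_mem hρ] at this
        omega
      · intro t ht
        have h1 := hz t (by omega)
        have h2 := hwz t ht
        have : ∑ i, (tw k M (m i))^[t] (A i) * u i =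
            w ρ * ∑ i, (tw k M (m i))^[t] (A i) * v i -
              v ρ * ∑ i, (tw k M (m i))^[t] (A i) * w i := by
          rw [Finset.mul_sum, Finset.mul_sum, ← Finset.sum_sub_distrib]
          refine Finset.sum_congr rfl fun i _ => ?_
          simp only [hu]; ring
        rw [this, h1, h2]; ring
    by_cases hone : ∃ i, i ≠ ρ ∧ v i ≠ 0
    · obtain ⟨i, hi, hvi⟩ := hone
      have hlt : m i < m ρ :=
        lt_of_le_of_ne (hmax i (by simpa using hvi)) (fun h => hi (hm h))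
      have h1 : u i = 0 := by rw [hu0]; rfl
      refine no_res hk hlt (hM ρ) hρ' hvi ?_
      simp only [hu, hw] at h1
      linear_combination h1
    · push Not at hone
      have h1 := hz 0 (by omega)
      rw [Finset.sum_eq_single ρ (fun i _ hi => by rw [hone i hi, mul_zero]) (by simp)] at h1
      simp [hA ρ, hρ'] at h1

/-- the Wronskian matrix -/
noncomputable def Wr (k M : ℕ) (m : ι → ℕ) (A : ι → ℂ[X]) : Matrix ι ι ℂ[X] :=
  Matrix.of fun s i => (tw k M (m i))^[(Fintype.equivFin ι s : ℕ)] (A i)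

lemma Wr_det_ne_zero {k M : ℕ} (hk : 2 ≤ k) {m : ι → ℕ} (hm : Function.Injective m)
    (hM : ∀ i, m i ≤ M) {A : ι → ℂ[X]} (hA : ∀ i, A i ≠ 0) : (Wr k M m A).det ≠ 0 := by
  intro h
  obtain ⟨v, hv0, hv⟩ := Matrix.exists_mulVec_eq_zero_iff.2 h
  apply hv0
  refine NV hk hm hM hA (Fintype.card ι) v (card_le_univ _) fun t ht => ?_
  have := congrFun hv ((Fintype.equivFin ι).symm ⟨t, ht⟩)
  simpa [Wr, Matrix.mulVec, dotProduct] using this

lemma natDegree_lin (j : ℕ) : (lin j).natDegree ≤ 1 := by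
  unfold lin; compute_degree

lemma natDegree_prod_lin (s : Finset ℕ) : (∏ j ∈ s, lin j).natDegree ≤ s.card := by
  refine (natDegree_prod_le _ _).trans ?_
  calc ∑ j ∈ s, (lin j).natDegree ≤ ∑ _j ∈ s, 1 := Finset.sum_le_sum fun j _ => natDegree_lin j
    _ = s.card := by simp

lemma natDegree_QQ (M : ℕ) : (QQ M).natDegree ≤ M := by
  simpa [QQ] using natDegree_prod_lin (Icc 1 M)

lemma natDegree_Qe (M j : ℕ) : (Qe M j).natDegree ≤ M := by
  refine (natDegree_prod_lin _).trans ((card_erase_le).trans (by simp))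

lemma natDegree_qq (M m : ℕ) : (qq M m).natDegree ≤ M := by
  refine natDegree_sum_le_of_forall_le _ _ fun j _ => ?_
  exact (natDegree_C_mul_le _ _).trans (natDegree_Qe M j)

lemma natDegree_tw (k M m : ℕ) {A : ℂ[X]} {d : ℕ} (h : A.natDegree ≤ d) :
    (tw k M m A).natDegree ≤ d + M := by
  refine (natDegree_add_le _ _).trans (max_le ?_ ?_)
  · refine natDegree_mul_le.trans ?_
    have h1 : (C (k : ℂ) * QQ M).natDegree ≤ M := (natDegree_C_mul_le _ _).trans (natDegree_QQ M)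
    have h2 : (derivative A).natDegree ≤ d := (natDegree_derivative_le A).trans (by omega)
    omega
  · refine natDegree_mul_le.trans ?_
    have := natDegree_qq M m
    omega

lemma natDegree_tw_iter (k M m : ℕ) {A : ℂ[X]} {d : ℕ} (h : A.natDegree ≤ d) (t : ℕ) :
    ((tw k M m)^[t] A).natDegree ≤ d + t * M := by
  induction t with
  | zero => simpa using h
  | succ t ih =>
    rw [Function.iterate_succ_apply']
    refine (natDegree_tw k M m ih).trans (le_of_eq (by ring))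

lemma natDegree_Wr_det (k M : ℕ) (m : ι → ℕ) {A : ι → ℂ[X]} {D : ℕ}
    (hA : ∀ i, (A i).natDegree ≤ D) :
    (Wr k M m A).det.natDegree ≤ Fintype.card ι * (D + Fintype.card ι * M) := by
  rw [Matrix.det_apply]
  refine natDegree_sum_le_of_forall_le _ _ fun σ _ => ?_
  refine (natDegree_smul_le _ _).trans ((natDegree_prod_le _ _).trans ?_)
  calc ∑ i, ((Wr k M m A) (σ i) i).natDegree ≤ ∑ _i : ι, (D + Fintype.card ι * M) := by
        refine Finset.sum_le_sum fun i _ => (natDegree_tw_iter k M (m i) (hA i) _).trans ?_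
        have := (Fintype.equivFin ι (σ i)).2
        gcongr
    _ = _ := by simp

/-- the differential equation satisfied by the expansion at `ξ` of `prod_{j ≤ m} (1+jz)^(1/k)` -/
def Ode (k M m : ℕ) (ξ : ℂ) (f : PowerSeries ℂ) : Prop :=
  tau ξ (C (k : ℂ) * QQ M) * PowerSeries.derivative ℂ f = tau ξ (qq M m) * f

lemma Ode.smul {k M m : ℕ} {ξ : ℂ} {f : PowerSeries ℂ} (h : Ode k M m ξ f) (c : ℂ) :
    Ode k M m ξ (PowerSeries.C c * f) := by
  unfold Ode at h ⊢
  rw [← PowerSeries.smul_eq_C_mul, Derivation.map_smul, mul_smul_comm, h, mul_smul_comm]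

omit [DecidableEq ι] in
lemma iter_form {k M : ℕ} {m : ι → ℕ} {ξ : ℂ} {f : ι → PowerSeries ℂ}
    (hf : ∀ i, Ode k M (m i) ξ (f i)) (A : ι → ℂ[X]) (t : ℕ) :
    (fun g => tau ξ (C (k : ℂ) * QQ M) * PowerSeries.derivative ℂ g)^[t]
      (∑ i, tau ξ (A i) * f i) = ∑ i, tau ξ ((tw k M (m i))^[t] (A i)) * f i := by
  induction t with
  | zero => rfl
  | succ t ih =>
    rw [Function.iterate_succ_apply', ih, map_sum, Finset.mul_sum]
    refine Finset.sum_congr rfl fun i _ => ?_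
    rw [Function.iterate_succ_apply', Derivation.leibniz, ← tau_derivative]
    have := hf i
    unfold Ode at this
    simp only [tw, map_add, map_mul, smul_eq_mul, Polynomial.derivative'_apply] at this ⊢
    linear_combination (tau ξ ((tw k M (m i))^[t] (A i))) * this

lemma det_dvd {k M : ℕ} {m : ι → ℕ} {ξ : ℂ} {f : ι → PowerSeries ℂ}
    (hf : ∀ i, Ode k M (m i) ξ (f i)) (A : ι → ℂ[X]) {L : ℕ}
    (hL : PowerSeries.X ^ L ∣ ∑ i, tau ξ (A i) * f i) {i0 : ι}
    (h0 : PowerSeries.constantCoeff (f i0) ≠ 0) :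
    (X - C ξ) ^ (L - Fintype.card ι) ∣ (Wr k M m A).det := by
  apply dvd_of_tau
  set W := (tau ξ).mapMatrix (Wr k M m A) with hW
  have h1 : ∀ s, PowerSeries.X ^ (L - Fintype.card ι) ∣ (W.mulVec f) s := by
    intro s
    have h2 := X_pow_dvd_iter (tau ξ (C (k : ℂ) * QQ M)) hL (Fintype.equivFin ι s : ℕ)
    rw [iter_form hf] at h2
    have h3 := (Fintype.equivFin ι s).2
    refine (pow_dvd_pow _ (by omega)).trans (h2.trans (dvd_of_eq ?_))
    simp [hW, Wr, Matrix.mulVec, dotProduct]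
  have h2 : (W.adjugate.mulVec (W.mulVec f)) i0 = W.det * f i0 := by
    rw [Matrix.mulVec_mulVec, Matrix.adjugate_mul, Matrix.smul_mulVec, Matrix.one_mulVec]
    simp
  have h3 : PowerSeries.X ^ (L - Fintype.card ι) ∣ W.det * f i0 := by
    rw [← h2]
    exact Finset.dvd_sum fun s _ => (h1 s).mul_left _
  have hu : IsUnit (f i0) := PowerSeries.isUnit_iff_constantCoeff.2 (Ne.isUnit h0)
  rw [AlgHom.map_det]
  exact (hu.dvd_mul_right).1 h3

lemma X_pow_dvd_of_consts {T : PowerSeries ℂ} (hT : PowerSeries.constantCoeff T ≠ 0) (L : ℕ) :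
    ∀ g : PowerSeries ℂ, (∀ s < L, PowerSeries.constantCoeff
      ((fun g => T * PowerSeries.derivative ℂ g)^[s] g) = 0) → PowerSeries.X ^ L ∣ g := by
  induction L with
  | zero => intro g _; simp
  | succ L ih =>
    intro g hg
    have h1 := ih (T * PowerSeries.derivative ℂ g) fun s hs => by
      have := hg (s + 1) (by omega)
      rwa [Function.iterate_succ_apply] at this
    have hu : IsUnit T := PowerSeries.isUnit_iff_constantCoeff.2 (Ne.isUnit hT)
    have h2 := (hu.dvd_mul_left).1 h1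
    rw [PowerSeries.X_pow_dvd_iff] at h2 ⊢
    intro j hj
    rcases j with _ | j
    · simpa using hg 0 (by omega)
    · have h3 := h2 j (by omega)
      rw [PowerSeries.coeff_derivative] at h3
      have h4 : ((j : ℂ) + 1) ≠ 0 := by exact_mod_cast Nat.succ_ne_zero j
      exact (mul_eq_zero.1 h3).resolve_right h4

lemma constantCoeff_tau (ξ : ℂ) (p : ℂ[X]) : PowerSeries.constantCoeff (tau ξ p) = p.eval ξ := by
  rw [tau_eq, ← PowerSeries.coeff_zero_eq_constantCoeff_apply, Polynomial.coeff_coe,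
    taylor_coeff_zero]

lemma count_zeros {p : ℂ[X]} (hp : p ≠ 0) (Y : Finset ℂ) (h0 : (0 : ℂ) ∉ Y) {a T : ℕ}
    (ha : (X - C 0) ^ a ∣ p) (hT : ∀ y ∈ Y, (X - C y) ^ T ∣ p) :
    a + T * Y.card ≤ p.natDegree := by
  classical
  have h1 : ∑ y ∈ insert 0 Y, p.roots.count y ≤ p.roots.card := by
    rw [← Multiset.sum_count_eq_card (s := insert 0 Y ∪ p.roots.toFinset) (m := p.roots)
      (fun a ha => mem_union_right _ (Multiset.mem_toFinset.2 ha))]
    exact Finset.sum_le_sum_of_subset subset_union_left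
  rw [Finset.sum_insert h0, Polynomial.count_roots] at h1
  have h2 : a ≤ p.rootMultiplicity 0 := (le_rootMultiplicity_iff hp).2 ha
  have h3 : T * Y.card ≤ ∑ y ∈ Y, p.roots.count y := by
    rw [mul_comm, ← smul_eq_mul]
    refine Finset.card_nsmul_le_sum _ _ _ fun y hy => ?_
    rw [Polynomial.count_roots]
    exact (le_rootMultiplicity_iff hp).2 (hT y hy)
  have h4 := card_roots' p
  omega

/-- the zero estimate at many points -/
theorem zero_count {k M D L s : ℕ} (hk : 2 ≤ k) {m : ι → ℕ} (hm : Function.Injective m)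
    (hM : ∀ i, m i ≤ M) {A : ι → ℂ[X]} (hA : ∀ i, A i ≠ 0) (hD : ∀ i, (A i).natDegree ≤ D)
    {f0 : ι → PowerSeries ℂ} (hf0 : ∀ i, Ode k M (m i) 0 (f0 i)) {i0 : ι}
    (h0 : PowerSeries.constantCoeff (f0 i0) ≠ 0)
    (hL : PowerSeries.X ^ L ∣ ∑ i, tau 0 (A i) * f0 i) (Y : Finset ℂ) (hY0 : (0 : ℂ) ∉ Y)
    (hY : ∀ y ∈ Y, (QQ M).eval y ≠ 0 ∧ ∃ f : ι → PowerSeries ℂ, (∀ i, Ode k M (m i) y (f i)) ∧
      (∃ i, PowerSeries.constantCoeff (f i) ≠ 0) ∧
      ∀ t < s, ∑ i, ((tw k M (m i))^[t] (A i)).eval y * PowerSeries.constantCoeff (f i) = 0) :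
    (L - Fintype.card ι) + (s - Fintype.card ι) * Y.card ≤
      Fintype.card ι * (D + Fintype.card ι * M) := by
  refine le_trans (count_zeros (Wr_det_ne_zero hk hm hM hA) Y hY0 (det_dvd hf0 A hL h0) ?_)
    (natDegree_Wr_det k M m hD)
  intro y hy
  obtain ⟨hQ, f, hf, ⟨i, hi⟩, hz⟩ := hY y hy
  refine det_dvd hf A ?_ hi
  refine X_pow_dvd_of_consts (T := tau y (C (k : ℂ) * QQ M)) ?_ s _ fun t ht => ?_
  · rw [constantCoeff_tau, eval_mul, eval_C]
    exact mul_ne_zero (by exact_mod_cast (by omega : k ≠ 0)) hQ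
  · rw [iter_form hf, map_sum, ← hz t ht]
    refine Finset.sum_congr rfl fun i _ => ?_
    rw [map_mul, constantCoeff_tau]

end Pool.Agent.MP_7a723b_nt

end

-- part MP_7a723b_nt.Root
section

/-! The functions `prod_{j ≤ m} (1 + j z)^(1/k)` on the disc of radius `1/M`. -/

namespace Pool.Agent.MP_7a723b_nt

open Finset Metric

lemma factorial_dvd_prod (k n : ℕ) :
    (n.factorial : ℤ) ∣ (k : ℤ) ^ n * ∏ i ∈ range n, (1 - (k : ℤ) * i) := by
  rw [Int.natCast_dvd, Nat.dvd_iff_prime_pow_dvd_dvd]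
  intro p e hp he
  rw [← Int.natCast_dvd]
  push_cast
  by_cases hpk : p ∣ k
  · have h1 : e ≤ n := by
      have h2 := (hp.pow_dvd_iff_le_factorization (Nat.factorial_ne_zero n)).1 he
      have h3 := Nat.factorization_factorial_le_div_pred hp n
      have h4 : n / (p - 1) ≤ n := Nat.div_le_self _ _
      omega
    have h2 : (p : ℤ) ^ e ∣ (k : ℤ) ^ n :=
      (pow_dvd_pow _ h1).trans (pow_dvd_pow_of_dvd (by exact_mod_cast hpk) n)
    exact h2.mul_right _
  · have hc : Nat.Coprime k (p ^ e) :=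
      Nat.Coprime.pow_right _ ((Nat.coprime_comm).1 ((hp.coprime_iff_not_dvd).2 hpk))
    obtain ⟨t, -, ht⟩ := Nat.exists_mul_mod_eq_of_coprime 1 hc (pow_ne_zero _ hp.ne_zero)
    have ht' : ((k : ℤ) * t) ≡ 1 [ZMOD ((p : ℤ) ^ e)] := by
      have : k * t ≡ 1 [MOD p ^ e] := ht
      exact_mod_cast Int.natCast_modEq_iff.2 this
    have h1 : ∏ i ∈ range n, (1 - (k : ℤ) * i) ≡ ∏ i ∈ range n, ((k : ℤ) * t - k * i)
        [ZMOD ((p : ℤ) ^ e)] :=
      Int.ModEq.prod fun i _ => (ht'.symm).sub_right _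
    have h2 : ∏ i ∈ range n, ((k : ℤ) * t - k * i) = (k : ℤ) ^ n * (t.descFactorial n : ℕ) := by
      rw [← descPochhammer_eval_eq_descFactorial ℤ, descPochhammer_eval_eq_prod_range]
      simp only [← mul_sub]
      rw [Finset.prod_mul_distrib]; simp
    have h3 : (p : ℤ) ^ e ∣ ∏ i ∈ range n, ((k : ℤ) * t - k * i) := by
      rw [h2]
      refine Dvd.dvd.mul_left ?_ _
      exact_mod_cast he.trans (Nat.factorial_dvd_descFactorial t n)
    exact Dvd.dvd.mul_left ((Int.modEq_zero_iff_dvd).1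
      (h1.trans ((Int.modEq_zero_iff_dvd).2 h3))) _

lemma binom_int {k j : ℕ} (hk : k ≠ 0) {b : PowerSeries ℂ} (h0 : PowerSeries.coeff 0 b = 1)
    (hb : PowerSeries.C (k : ℂ) * (1 + PowerSeries.C (j : ℂ) * PowerSeries.X) *
      PowerSeries.derivative ℂ b = PowerSeries.C (j : ℂ) * b) (K : ℕ) :
    PowerSeries.rescale ((k : ℂ) ^ 2) b ∈ IntK K := by
  have hk' : (k : ℂ) ≠ 0 := by exact_mod_cast hk
  have h1 : ∀ n, (n.factorial : ℂ) * (k : ℂ) ^ n * PowerSeries.coeff n b =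
      (j : ℂ) ^ n * ∏ i ∈ range n, (1 - (k : ℂ) * i) := by
    intro n
    induction n with
    | zero => simp [h0]
    | succ n ih =>
      have h2 := congrArg (PowerSeries.coeff n) hb
      have h3 : PowerSeries.coeff n (PowerSeries.X * PowerSeries.derivative ℂ b) =
          n * PowerSeries.coeff n b := by
        rcases n with _ | n
        · simp
        · rw [PowerSeries.coeff_succ_X_mul, PowerSeries.coeff_derivative]; push_cast; ring
      rw [mul_assoc, add_mul, one_mul, mul_assoc, PowerSeries.coeff_C_mul, map_add,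
        PowerSeries.coeff_C_mul, PowerSeries.coeff_C_mul, h3, PowerSeries.coeff_derivative] at h2
      rw [Finset.prod_range_succ, Nat.factorial_succ]
      push_cast
      linear_combination ((n.factorial : ℂ) * (k : ℂ) ^ n) * h2 + (j * (1 - (k : ℂ) * n)) * ih
  intro n _
  obtain ⟨c, hc⟩ := factorial_dvd_prod k n
  have hc' := congrArg (Int.cast : ℤ → ℂ) hc
  push_cast at hc'
  refine mem_ZZ.2 ⟨(j : ℤ) ^ n * c, ?_⟩
  rw [PowerSeries.coeff_rescale]
  have hf : (n.factorial : ℂ) ≠ 0 := by exact_mod_cast Nat.factorial_ne_zero n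
  apply mul_left_cancel₀ hf
  push_cast
  rw [← pow_mul, mul_comm 2 n, pow_mul, sq]
  linear_combination -((k : ℂ) ^ n) * h1 n - (j : ℂ) ^ n * hc'

lemma jle {M j : ℕ} (h : j ≤ M) : ‖(j : ℂ)‖ * ((M : ℝ)⁻¹) ≤ 1 := by
  rw [Complex.norm_natCast]
  rcases Nat.eq_zero_or_pos M with rfl | hM
  · simp
  · rw [← div_eq_mul_inv, div_le_one (by exact_mod_cast hM)]; exact_mod_cast h

/-- the function `(1 + j z)^(1/k)` -/
noncomputable def gH (k M j : ℕ) : Hol ((M : ℝ)⁻¹) :=
  if h : j ≤ M then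
    ⟨fun z => Complex.exp ((k : ℂ)⁻¹ * (logH _ (j : ℂ) (jle h)).1 z),
      (DifferentiableOn.const_mul (logH _ (j : ℂ) (jle h)).2 _).cexp⟩
  else 1

lemma gH_apply {k M j : ℕ} (h : j ≤ M) (z : ℂ) :
    (gH k M j).1 z = Complex.exp ((k : ℂ)⁻¹ * Complex.log (1 + j * z)) := by
  rw [gH, dif_pos h]; rfl

/-- the function `prod_{j ≤ m} (1 + j z)^(1/k)` -/
noncomputable def FH (k M m : ℕ) : Hol ((M : ℝ)⁻¹) := ∏ j ∈ Icc 1 m, gH k M j

lemma FH_apply (k M m : ℕ) (z : ℂ) : (FH k M m).1 z = ∏ j ∈ Icc 1 m, (gH k M j).1 z := by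
  rw [← evH_apply, FH, map_prod]; rfl

lemma gH_ode {k M j : ℕ} (hk : k ≠ 0) (h : j ≤ M) {ξ : ℂ} (hξ : ξ ∈ ball (0 : ℂ) (M : ℝ)⁻¹) :
    tau ξ (Polynomial.C (k : ℂ) * lin j) * PowerSeries.derivative ℂ (tayH hξ (gH k M j)) =
      PowerSeries.C (j : ℂ) * tayH hξ (gH k M j) := by
  rw [← tau_C ξ j, ← tayH_polyH hξ, ← tayH_polyH hξ, ← map_mul, tayH_apply, tayH_apply, tayH_apply,
    ← tay_deriv, ← tay_mul (Hol.analyticAt _ hξ) (Hol.analyticAt _ hξ).deriv]
  apply tay_congr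
  filter_upwards [isOpen_ball.mem_nhds hξ] with z hz
  have h1 := norm_mul_lt_one (jle h) hz
  have hf : (gH k M j).1 = fun z => Complex.exp ((k : ℂ)⁻¹ * Complex.log (1 + j * z)) :=
    funext (gH_apply h)
  have h2 : deriv (gH k M j).1 z = (gH k M j).1 z * ((k : ℂ)⁻¹ * (j / (1 + j * z))) := by
    rw [hf]
    exact (((hasDerivAt_log h1).const_mul _).cexp).deriv
  have h3 : (polyH _ (Polynomial.C (k : ℂ) * lin j) : Hol (M : ℝ)⁻¹).1 z = k * (1 + j * z) := by
    rw [← evH_apply, evH_polyH]; simp [lin]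
  have h5 : (polyH _ (Polynomial.C (j : ℂ)) * gH k M j : Hol (M : ℝ)⁻¹).1 z =
      j * (gH k M j).1 z := by
    rw [← evH_apply, map_mul, evH_polyH, evH_apply]; simp
  have h4 : 1 + j * z ≠ 0 := Complex.slitPlane_ne_zero (Complex.mem_slitPlane_of_norm_lt_one h1)
  have hk' : (k : ℂ) ≠ 0 := by exact_mod_cast hk
  rw [Pi.mul_apply, h2, h3, h5]
  field_simp

lemma FH_ode {k M m : ℕ} (hk : k ≠ 0) (h : m ≤ M) {ξ : ℂ} (hξ : ξ ∈ ball (0 : ℂ) (M : ℝ)⁻¹) :
    Ode k M m ξ (tayH hξ (FH k M m)) := by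
  induction m with
  | zero => simp [Ode, FH, qq]
  | succ m ih =>
    have ih' := ih (by omega)
    have h1 := gH_ode hk h hξ
    have hF : FH k M (m + 1) = FH k M m * gH k M (m + 1) :=
      Finset.prod_Icc_succ_top (by omega) _
    have hq : qq M (m + 1) = qq M m + Polynomial.C ((m + 1 : ℕ) : ℂ) * Qe M (m + 1) :=
      Finset.sum_Icc_succ_top (by omega) _
    have hQ : QQ M = lin (m + 1) * Qe M (m + 1) := QQ_eq (mem_Icc.2 ⟨by omega, h⟩)
    unfold Ode at ih' ⊢
    rw [hF, hq, map_mul (tayH hξ), Derivation.leibniz, map_add, map_mul (tau ξ) (Polynomial.C _),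
      map_mul (tau ξ) (Polynomial.C _), tau_C, tau_C]
    rw [map_mul (tau ξ) (Polynomial.C _), tau_C] at ih' h1
    have hQ' := congrArg (tau ξ) hQ
    rw [map_mul] at hQ'
    simp only [smul_eq_mul]
    rw [hQ'] at ih' ⊢
    linear_combination (tayH hξ (gH k M (m + 1))) * ih' +
      (tau ξ (Qe M (m + 1)) * tayH hξ (FH k M m)) * h1

lemma constantCoeff_tayH {ρ : ℝ} {ξ : ℂ} (hξ : ξ ∈ ball (0 : ℂ) ρ) (f : Hol ρ) :
    PowerSeries.constantCoeff (tayH hξ f) = f.1 ξ := by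
  rw [← PowerSeries.coeff_zero_eq_constantCoeff_apply, tayH_apply, coeff_tay]; simp

lemma FH_ne_zero {k M m : ℕ} (h : m ≤ M) (z : ℂ) : (FH k M m).1 z ≠ 0 := by
  rw [FH_apply]
  refine Finset.prod_ne_zero_iff.2 fun j hj => ?_
  rw [gH_apply ((mem_Icc.1 hj).2.trans h)]
  exact Complex.exp_ne_zero _

lemma FH_int {k M m : ℕ} (hk : k ≠ 0) (h : m ≤ M) (h0 : (0 : ℂ) ∈ ball (0 : ℂ) (M : ℝ)⁻¹) (K : ℕ) :
    PowerSeries.rescale ((k : ℂ) ^ 2) (tayH h0 (FH k M m)) ∈ IntK K := by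
  rw [FH, map_prod, map_prod]
  refine Subring.prod_mem _ fun j hj => ?_
  have hj' : j ≤ M := (mem_Icc.1 hj).2.trans h
  refine binom_int (j := j) hk ?_ ?_ K
  · rw [PowerSeries.coeff_zero_eq_constantCoeff_apply, constantCoeff_tayH, gH_apply hj']; simp
  · rw [← gH_ode hk hj' h0]
    congr 1
    rw [map_mul, tau_C, lin, map_add, map_one, map_mul, tau_C, tau_X]; simp

lemma FH_norm {k M m : ℕ} (hk : k ≠ 0) (h : m ≤ M) {z : ℂ} (hz : ‖z‖ ≤ (M : ℝ)⁻¹ / 2) :
    ‖(FH k M m).1 z‖ ≤ 3 ^ M := by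
  rw [FH_apply, norm_prod]
  calc ∏ j ∈ Icc 1 m, ‖(gH k M j).1 z‖ ≤ ∏ _j ∈ Icc 1 m, (3 : ℝ) := by
        refine Finset.prod_le_prod (fun _ _ => norm_nonneg _) fun j hj => ?_
        have hj' : j ≤ M := (mem_Icc.1 hj).2.trans h
        rw [gH_apply hj']
        have h1 : ‖Complex.log (1 + j * z)‖ ≤ 1 := norm_logH_le (jle hj') hz
        have h2 : ‖(k : ℂ)⁻¹‖ ≤ 1 := by
          rw [norm_inv, Complex.norm_natCast]
          exact inv_le_one_of_one_le₀ (by exact_mod_cast Nat.one_le_iff_ne_zero.2 hk)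
        refine (Complex.norm_exp_le_exp_norm _).trans ?_
        rw [norm_mul]
        calc Real.exp _ ≤ Real.exp 1 := Real.exp_le_exp.2 (mul_le_one₀ h2 (norm_nonneg _) h1)
          _ ≤ 3 := le_of_lt (lt_trans Real.exp_one_lt_d9 (by norm_num))
    _ = 3 ^ m := by simp
    _ ≤ 3 ^ M := pow_le_pow_right₀ (by norm_num) h

/-- the `k`-th root of `a!` -/
noncomputable def rt (k a : ℕ) : ℝ := (a.factorial : ℝ) ^ ((k : ℝ)⁻¹)

lemma rt_add' {k M a : ℕ} (ha : 0 < a) (m : ℕ) (h : m ≤ M) :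
    (rt k (a + m) : ℂ) = rt k a * (((a : ℝ) ^ ((k : ℝ)⁻¹) : ℝ) : ℂ) ^ m *
      (FH k M m).1 ((a : ℂ)⁻¹) := by
  induction m with
  | zero => simp [FH_apply]
  | succ m ih =>
    have ha' : (0 : ℝ) < a := by exact_mod_cast ha
    have h1 : (FH k M (m + 1)).1 ((a : ℂ)⁻¹) =
        (FH k M m).1 ((a : ℂ)⁻¹) * (gH k M (m + 1)).1 ((a : ℂ)⁻¹) := by
      rw [FH_apply, FH_apply]; exact Finset.prod_Icc_succ_top (by omega) _
    have hpos : (0 : ℝ) < 1 + ((m + 1 : ℕ) : ℝ) * (a : ℝ)⁻¹ := by positivity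
    have h2 : (gH k M (m + 1)).1 ((a : ℂ)⁻¹) =
        (((1 + ((m + 1 : ℕ) : ℝ) * (a : ℝ)⁻¹) ^ ((k : ℝ)⁻¹) : ℝ) : ℂ) := by
      rw [gH_apply h, Real.rpow_def_of_pos hpos, Complex.ofReal_exp, Complex.ofReal_mul,
        Complex.ofReal_log hpos.le]
      push_cast; ring_nf
    have h3 : rt k (a + (m + 1)) = rt k (a + m) * ((a : ℝ) ^ ((k : ℝ)⁻¹) *
        (1 + ((m + 1 : ℕ) : ℝ) * (a : ℝ)⁻¹) ^ ((k : ℝ)⁻¹)) := by
      rw [rt, rt, ← Real.mul_rpow ha'.le hpos.le, ← Real.mul_rpow (by positivity) (by positivity),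
        ← add_assoc, Nat.factorial_succ]
      congr 1
      push_cast; field_simp; ring
    rw [h3, h1, h2]
    push_cast
    rw [ih (by omega)]
    ring

lemma rt_add {k M a : ℕ} (hk : k ≠ 0) (ha : 0 < a) (μ : ℕ) (h : k * μ ≤ M) :
    (rt k (a + k * μ) : ℂ) = rt k a * (a : ℂ) ^ μ * (FH k M (k * μ)).1 ((a : ℂ)⁻¹) := by
  rw [rt_add' ha _ h, pow_mul, ← Complex.ofReal_pow,
    Real.rpow_inv_natCast_pow (Nat.cast_nonneg a) hk]
  simp

end Pool.Agent.MP_7a723b_nt

end

-- part MP_7a723b_nt.Siegel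
section

/-! Type I Pade approximation by the lemma of Siegel; sizes of the derived forms. -/

namespace Pool.Agent.MP_7a723b_nt

open Finset

/-- integer coefficients bounded by `H` -/
def Sb (p : Polynomial ℂ) (H : ℝ) : Prop := ∀ j, p.coeff j ∈ ZZ ∧ ‖p.coeff j‖ ≤ H

open scoped Matrix.Norms.Elementwise in
open PowerSeries in
lemma siegel_form {ι : Type*} [Fintype ι] [DecidableEq ι] (f : ι → PowerSeries ℂ) (D L : ℕ)
    (hL : 0 < L) (h2 : 2 * L ≤ Fintype.card ι * (D + 1)) (δ : ℂ) (hδ : δ ≠ 0) (B : ℝ)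
    (hB : 1 ≤ B) (hint : ∀ i j, j < L → δ * coeff j (f i) ∈ ZZ)
    (hb : ∀ i j, j < L → ‖δ * coeff j (f i)‖ ≤ B) :
    ∃ A : ι → Polynomial ℂ, A ≠ 0 ∧ (∀ i, (A i).natDegree ≤ D) ∧
      (∀ i, Sb (A i) ((Fintype.card ι * (D + 1) : ℕ) * B)) ∧
      X ^ L ∣ ∑ i, tau 0 (A i) * f i := by
  classical
  have hz : ∀ (l : Fin L) (p : ι × Fin (D + 1)), ∃ z : ℤ,
      (z : ℂ) = if (p.2 : ℕ) ≤ l then δ * coeff (l - p.2) (f p.1) else 0 := by
    intro l p
    split_ifs
    · exact mem_ZZ.1 (hint p.1 _ (by have := l.2; omega))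
    · exact ⟨0, by simp⟩
  choose Z hZ using hz
  let Mt : Matrix (Fin L) (ι × Fin (D + 1)) ℤ := Matrix.of Z
  have hc1 : Fintype.card (Fin L) = L := by simp
  have hc2 : Fintype.card (ι × Fin (D + 1)) = Fintype.card ι * (D + 1) := by simp
  obtain ⟨q, hq0, hqM, hq⟩ := Int.Matrix.exists_ne_zero_int_vec_norm_le Mt
    (by rw [hc1, hc2]; omega) (by rw [hc1]; exact hL)
  have hM : ‖Mt‖ ≤ B := by
    rw [Matrix.norm_le_iff (by linarith)]
    intro l p
    have h1 : ‖Mt l p‖ = ‖(Z l p : ℂ)‖ := by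
      rw [Complex.norm_intCast, Int.norm_eq_abs]; rfl
    rw [h1, hZ]
    split_ifs
    · exact hb _ _ (by have := l.2; omega)
    · simp; linarith
  set U := Fintype.card ι * (D + 1) with hU
  have hU1 : (1 : ℝ) ≤ U := by exact_mod_cast (by omega : 1 ≤ U)
  have hqb : ‖q‖ ≤ (U : ℝ) * B := by
    refine hq.trans ?_
    rw [hc1, hc2]
    have hb1 : (1 : ℝ) ≤ U * B := one_le_mul_of_one_le_of_one_le hU1 hB
    have hUL : (L : ℝ) ≤ (U : ℝ) - L := by
      have : (2 * L : ℝ) ≤ U := by exact_mod_cast h2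
      linarith
    have hL' : (0 : ℝ) < L := by exact_mod_cast hL
    have he : (L : ℝ) / ((U : ℝ) - L) ≤ 1 := (div_le_one (by linarith)).2 hUL
    have he0 : (0 : ℝ) ≤ (L : ℝ) / ((U : ℝ) - L) := div_nonneg hL'.le (by linarith)
    calc _ ≤ ((U : ℝ) * B) ^ ((L : ℝ) / ((U : ℝ) - L)) := by
          apply Real.rpow_le_rpow (by positivity) _ he0
          gcongr
          exact max_le hB hM
      _ ≤ ((U : ℝ) * B) ^ (1 : ℝ) := Real.rpow_le_rpow_of_exponent_le hb1 he
      _ = _ := Real.rpow_one _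
  let A : ι → Polynomial ℂ := fun i => ∑ d : Fin (D + 1), Polynomial.monomial (d : ℕ) (q (i, d) : ℂ)
  have hAc : ∀ i j, (A i).coeff j = if h : j < D + 1 then (q (i, ⟨j, h⟩) : ℂ) else 0 := by
    intro i j
    simp only [A, Polynomial.finsetSum_coeff, Polynomial.coeff_monomial]
    split_ifs with h
    · rw [Finset.sum_eq_single (⟨j, h⟩ : Fin (D + 1))]
      · simp
      · intro b _ hb
        rw [if_neg]; intro h'; exact hb (Fin.ext h')
      · simp
    · refine Finset.sum_eq_zero fun k _ => ?_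
      rw [if_neg]; intro h'; have := k.2; omega
  refine ⟨A, ?_, ?_, ?_, ?_⟩
  · intro h
    apply hq0
    funext ⟨i, d⟩
    have := hAc i d
    rw [h, dif_pos d.2] at this
    simp only [Pi.zero_apply, Polynomial.coeff_zero, Fin.eta] at this
    exact_mod_cast this.symm
  · intro i
    rw [Polynomial.natDegree_le_iff_coeff_eq_zero]
    intro j hj
    rw [hAc, dif_neg (by omega)]
  · intro i j
    rw [hAc]; split_ifs with h
    · refine ⟨mem_ZZ.2 ⟨_, rfl⟩, le_trans ?_ hqb⟩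
      rw [Complex.norm_intCast, ← Int.norm_eq_abs]
      exact norm_le_pi_norm q _
    · refine ⟨ZZ.zero_mem, ?_⟩
      simp; positivity
  · rw [X_pow_dvd_iff]
    intro l hl
    have h3 := congrFun hqM ⟨l, hl⟩
    simp only [Matrix.mulVec, dotProduct, Pi.zero_apply] at h3
    have h4 := congrArg (Int.cast : ℤ → ℂ) h3
    push_cast at h4
    apply mul_left_cancel₀ hδ
    rw [mul_zero]
    refine Eq.trans ?_ h4
    rw [map_sum, Finset.mul_sum, Fintype.sum_prod_type]
    refine Finset.sum_congr rfl fun i _ => ?_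
    have hQ : tau 0 (A i) = ∑ d : Fin (D + 1), C (q (i, d) : ℂ) * X ^ (d : ℕ) := by
      simp only [A, ← Polynomial.C_mul_X_pow_eq_monomial, map_sum, map_mul, map_pow, tau_C, tau_X]
      simp
    rw [hQ, Finset.sum_mul, map_sum, Finset.mul_sum]
    refine Finset.sum_congr rfl fun d _ => ?_
    rw [mul_assoc, coeff_C_mul, coeff_X_pow_mul']
    have h5 : (Mt ⟨l, hl⟩ (i, d) : ℂ) = if (d : ℕ) ≤ l then δ * coeff (l - d) (f i) else 0 := hZ _ _
    rw [h5]
    split_ifs
    · ring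
    · simp

open Polynomial

lemma Sb.nonneg {p : ℂ[X]} {H : ℝ} (h : Sb p H) : 0 ≤ H := (norm_nonneg _).trans (h 0).2

lemma Sb.mono {p : ℂ[X]} {H K : ℝ} (h : Sb p H) (hK : H ≤ K) : Sb p K :=
  fun j => ⟨(h j).1, (h j).2.trans hK⟩

lemma Sb.add {p q : ℂ[X]} {H K : ℝ} (h : Sb p H) (h' : Sb q K) : Sb (p + q) (H + K) := fun j => by
  rw [coeff_add]
  exact ⟨ZZ.add_mem (h j).1 (h' j).1, (norm_add_le _ _).trans (add_le_add (h j).2 (h' j).2)⟩

lemma Sb.C_mul {p : ℂ[X]} {H : ℝ} (h : Sb p H) (c : ℕ) : Sb (C (c : ℂ) * p) (c * H) := fun j => by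
  rw [coeff_C_mul, norm_mul, Complex.norm_natCast]
  exact ⟨ZZ.mul_mem (natCast_mem _ _) (h j).1,
    mul_le_mul_of_nonneg_left (h j).2 (Nat.cast_nonneg _)⟩

lemma Sb.X_mul {p : ℂ[X]} {H : ℝ} (h : Sb p H) : Sb (X * p) H := fun j => by
  rcases j with _ | j
  · simpa using h.nonneg
  · rw [coeff_X_mul]; exact h j

lemma Sb.lin_mul {p : ℂ[X]} {H : ℝ} (h : Sb p H) {j M : ℕ} (hj : j ≤ M) :
    Sb (lin j * p) ((1 + M) * H) := by
  have h1 : lin j * p = p + C (j : ℂ) * (X * p) := by unfold lin; ring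
  rw [h1]
  refine (h.add (h.X_mul.C_mul j)).mono ?_
  have : (j : ℝ) ≤ M := by exact_mod_cast hj
  have := h.nonneg
  nlinarith

lemma Sb.prod_mul {p : ℂ[X]} {H : ℝ} (h : Sb p H) {M : ℕ} (s : Finset ℕ) (hs : ∀ j ∈ s, j ≤ M) :
    Sb ((∏ j ∈ s, lin j) * p) ((1 + M) ^ s.card * H) := by
  classical
  induction s using Finset.induction_on with
  | empty => simpa using h
  | insert j s hj ih =>
    rw [Finset.prod_insert hj, card_insert_of_notMem hj, mul_assoc, pow_succ', mul_assoc]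
    exact (ih fun l hl => hs l (mem_insert_of_mem hl)).lin_mul (hs j (mem_insert_self _ _))

lemma Sb.sum {ι : Type*} (s : Finset ι) {p : ι → ℂ[X]} {H : ℝ} (h : ∀ i ∈ s, Sb (p i) H) :
    Sb (∑ i ∈ s, p i) (s.card * H) := by
  classical
  induction s using Finset.induction_on with
  | empty => intro j; simp
  | insert j s hj ih =>
    rw [Finset.sum_insert hj, card_insert_of_notMem hj]
    refine ((h j (mem_insert_self _ _)).add (ih fun l hl => h l (mem_insert_of_mem hl))).mono ?_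
    push_cast; linarith

lemma Sb.derivative {p : ℂ[X]} {H : ℝ} (h : Sb p H) {d : ℕ} (hd : p.natDegree ≤ d) :
    Sb (derivative p) (d * H) := fun j => by
  rw [coeff_derivative]
  refine ⟨ZZ.mul_mem (h _).1 (ZZ.add_mem (natCast_mem _ _) ZZ.one_mem), ?_⟩
  by_cases hj : j + 1 ≤ d
  · have h1 : ((j : ℂ) + 1) = ((j + 1 : ℕ) : ℂ) := by push_cast; ring
    rw [norm_mul, h1, Complex.norm_natCast, mul_comm]
    exact mul_le_mul (by exact_mod_cast hj) (h _).2 (norm_nonneg _) (Nat.cast_nonneg _)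
  · rw [coeff_eq_zero_of_natDegree_lt (by omega)]
    have := h.nonneg
    simp; positivity

lemma Sb.tw {p : ℂ[X]} {H : ℝ} (h : Sb p H) {d : ℕ} (hd : p.natDegree ≤ d) (k : ℕ) {M m : ℕ}
    (hm : m ≤ M) : Sb (tw k M m p) ((1 + M) ^ M * (k * d + M ^ 2) * H) := by
  have hH := h.nonneg
  have h1 : Sb (C (k : ℂ) * QQ M * Polynomial.derivative p) (k * ((1 + M) ^ M * (d * H))) := by
    rw [mul_assoc]
    refine Sb.C_mul ?_ k
    have := (h.derivative hd).prod_mul (M := M) (Icc 1 M) fun j hj => (mem_Icc.1 hj).2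
    simpa [QQ] using this
  have h2 : Sb (qq M m * p) ((Icc 1 m).card * (M * ((1 + M) ^ M * H))) := by
    rw [qq, Finset.sum_mul]
    refine Sb.sum _ fun j hj => ?_
    have hj' : j ≤ M := (mem_Icc.1 hj).2.trans hm
    rw [mul_assoc]
    refine (Sb.C_mul (h.prod_mul (M := M) ((Icc 1 M).erase j) fun l hl =>
      (mem_Icc.1 (mem_erase.1 hl).2).2) j).mono ?_
    have h3 : ((Icc 1 M).erase j).card ≤ M := card_erase_le.trans (by simp)
    have h4 : (1 : ℝ) ≤ 1 + M := by have : (0 : ℝ) ≤ M := Nat.cast_nonneg _; linarith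
    gcongr
  refine (h1.add h2).mono ?_
  have h5 : ((Icc 1 m).card : ℝ) ≤ M := by simpa using hm
  have h6 : ((Icc 1 m).card : ℝ) * (M * ((1 + M) ^ M * H)) ≤ M * (M * ((1 + M) ^ M * H)) := by
    gcongr
  nlinarith

lemma Sb.tw_iter {p : ℂ[X]} {H : ℝ} (h : Sb p H) {d : ℕ} (hd : p.natDegree ≤ d) (k : ℕ) {M m : ℕ}
    (hm : m ≤ M) {G : ℝ} {s : ℕ} (hG : (1 + M) ^ M * (k * (d + s * M : ℕ) + M ^ 2) ≤ G) :
    ∀ t ≤ s, Sb ((Pool.Agent.MP_7a723b_nt.tw k M m)^[t] p) (G ^ t * H) := by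
  intro t ht
  induction t with
  | zero => simpa using h
  | succ t ih =>
    rw [Function.iterate_succ_apply']
    have h1 := (ih (by omega)).tw (natDegree_tw_iter k M m hd t) k hm
    refine h1.mono ?_
    rw [pow_succ' G, mul_assoc G]
    refine mul_le_mul_of_nonneg_right (le_trans ?_ hG) (ih (by omega)).nonneg
    gcongr
    omega

lemma Sb.norm_eval {p : ℂ[X]} {H : ℝ} (h : Sb p H) {z : ℂ} (hz : ‖z‖ ≤ 1 / 2) :
    ‖p.eval z‖ ≤ 2 * H := by
  rw [eval_eq_sum_range]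
  refine (norm_sum_le _ _).trans ?_
  have hH := h.nonneg
  calc ∑ i ∈ range (p.natDegree + 1), ‖p.coeff i * z ^ i‖
      ≤ ∑ i ∈ range (p.natDegree + 1), H * (1 / 2) ^ i := by
        refine Finset.sum_le_sum fun i _ => ?_
        rw [norm_mul, norm_pow]
        exact mul_le_mul (h i).2 (pow_le_pow_left₀ (norm_nonneg _) hz i) (by positivity) hH
    _ = H * ∑ i ∈ range (p.natDegree + 1), (1 / 2 : ℝ) ^ i := by rw [Finset.mul_sum]
    _ ≤ H * 2 := mul_le_mul_of_nonneg_left (sum_geometric_two_le _) hH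
    _ = 2 * H := mul_comm _ _

lemma Sb.eval_int {p : ℂ[X]} {H : ℝ} (h : Sb p H) {e a : ℕ} (he : p.natDegree ≤ e) (ha : a ≠ 0) :
    (a : ℂ) ^ e * p.eval ((a : ℂ)⁻¹) ∈ ZZ := by
  rw [eval_eq_sum_range, Finset.mul_sum]
  refine Subring.sum_mem _ fun i hi => ?_
  have hi' : i ≤ e := by have := mem_range.1 hi; omega
  obtain ⟨c, rfl⟩ := Nat.exists_eq_add_of_le hi'
  have ha' : (a : ℂ) ≠ 0 := by exact_mod_cast ha
  have : (a : ℂ) ^ (i + c) * (p.coeff i * (a : ℂ)⁻¹ ^ i) = p.coeff i * (a : ℂ) ^ c := by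
    rw [inv_pow, pow_add]; field_simp
  rw [this]
  exact ZZ.mul_mem (h i).1 (ZZ.pow_mem (natCast_mem _ _) _)

end Pool.Agent.MP_7a723b_nt

end

-- part MP_7a723b_nt.Local
section

/-! The local step: at a point with many good approximations all derived forms are orthogonal
to one vector. -/

namespace Pool.Agent.MP_7a723b_nt

open Finset Metric

lemma combo {ι : Type*} [Fintype ι] {s : ℕ} (c : ℕ → ι → ℤ) (x : ι → ℤ)
    (hx : Function.Injective x) (θ K ρ : ℝ) (hK : ∀ t < s, |((∑ i, c t i : ℤ) : ℝ)| ≤ K)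
    (hρ : ∀ t < s, |∑ i, (c t i : ℝ) * (x i + θ)| ≤ ρ) (h : 2 * K * ρ < 1) :
    ∃ v : ι → ℤ, (∀ i j, i ≠ j → v i ≠ 0 ∨ v j ≠ 0) ∧ ∀ t < s, ∑ i, c t i * v i = 0 := by
  by_cases h0 : ∀ t < s, ∑ i, c t i = 0
  · exact ⟨fun _ => 1, fun _ _ _ => Or.inl one_ne_zero, fun t ht => by simpa using h0 t ht⟩
  push Not at h0
  obtain ⟨t0, ht0, hu⟩ := h0
  set u : ℕ → ℤ := fun t => ∑ i, c t i with hu'
  set w : ℕ → ℤ := fun t => ∑ i, c t i * x i with hw'
  have hform : ∀ t, ∑ i, (c t i : ℝ) * (x i + θ) = w t + θ * u t := by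
    intro t
    simp only [hu', hw']
    push_cast
    rw [Finset.mul_sum, ← Finset.sum_add_distrib]
    exact Finset.sum_congr rfl fun i _ => by ring
  refine ⟨fun i => u t0 * x i - w t0, fun i j hij => ?_, fun t ht => ?_⟩
  · by_contra hc
    push Not at hc
    apply hij
    apply hx
    apply mul_left_cancel₀ hu
    change u t0 * x i = u t0 * x j
    linarith [hc.1, hc.2]
  · have h1 : ∑ i, c t i * (u t0 * x i - w t0) = u t0 * w t - w t0 * u t := by
      simp only [hu', hw']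
      rw [Finset.mul_sum _ _ (∑ i, c t0 i), Finset.mul_sum _ _ (∑ i, c t0 i * x i),
        ← Finset.sum_sub_distrib]
      exact Finset.sum_congr rfl fun i _ => by ring
    rw [h1]
    have h2 : ((u t0 * w t - w t0 * u t : ℤ) : ℝ) =
        u t0 * (w t + θ * u t) - u t * (w t0 + θ * u t0) := by push_cast; ring
    have h3 := hρ t ht
    have h4 := hρ t0 ht0
    rw [hform] at h3 h4
    have h5 : |(u t : ℝ)| ≤ K := hK t ht
    have h6 : |(u t0 : ℝ)| ≤ K := hK t0 ht0
    have hK0 : 0 ≤ K := (abs_nonneg _).trans h5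
    have h7 : |((u t0 * w t - w t0 * u t : ℤ) : ℝ)| < 1 := by
      rw [h2]
      refine (abs_sub _ _).trans_lt ?_
      rw [abs_mul, abs_mul]
      have := mul_le_mul h6 h3 (abs_nonneg _) hK0
      have := mul_le_mul h5 h4 (abs_nonneg _) hK0
      linarith
    have h8 : |u t0 * w t - w t0 * u t| < 1 := by exact_mod_cast h7
    exact Int.abs_lt_one_iff.1 h8

lemma one_le_rt (k a : ℕ) : 1 ≤ rt k a :=
  Real.one_le_rpow (by exact_mod_cast Nat.factorial_pos a) (by positivity)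

lemma rt_gap {k b ν : ℕ} (hk : k ≠ 0) (hb : 1 ≤ b) (hν : 1 ≤ ν) :
    rt k b + 1 ≤ rt k (b + k * ν) := by
  have h1 : b.factorial * 2 ^ k ≤ (b + k * ν).factorial := by
    refine le_trans ?_ (Nat.factorial_mul_pow_le_factorial (m := b) (n := k * ν))
    refine Nat.mul_le_mul_left _ ?_
    calc 2 ^ k ≤ (b + 1) ^ k := Nat.pow_le_pow_left (by omega) _
      _ ≤ (b + 1) ^ (k * ν) := Nat.pow_le_pow_right (by omega) (Nat.le_mul_of_pos_right _ hν)
  have h2 : rt k b * 2 ≤ rt k (b + k * ν) := by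
    have h3 : (2 : ℝ) = ((2 : ℝ) ^ k) ^ ((k : ℝ)⁻¹) :=
      (Real.pow_rpow_inv_natCast (by norm_num) hk).symm
    rw [rt, rt, h3, ← Real.mul_rpow (by positivity) (by positivity)]
    refine Real.rpow_le_rpow (by positivity) ?_ (by positivity)
    exact_mod_cast h1
  have := one_le_rt k b
  linarith

/-- `(a!)^(1/k)` is within `η` of `θ + ℤ` -/
def Near (k : ℕ) (θ η : ℝ) (a : ℕ) : Prop := ∃ x : ℤ, |rt k a - θ - x| ≤ η

lemma rem_small {ι : Type*} [Fintype ι] {k M : ℕ} (hk : k ≠ 0) (hM : 1 ≤ M) {m : ι → ℕ}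
    (hm : ∀ i, m i ≤ M) (h0 : (0 : ℂ) ∈ ball (0 : ℂ) (M : ℝ)⁻¹) {A : ι → Polynomial ℂ} {L : ℕ}
    (hL : PowerSeries.X ^ L ∣ ∑ i, tau 0 (A i) * tayH h0 (FH k M (m i))) (t : ℕ) {H : ℝ}
    (hH : ∀ i, Sb ((tw k M (m i))^[t] (A i)) H) {a : ℕ} (ha : 4 * M ≤ a) :
    ‖∑ i, ((tw k M (m i))^[t] (A i)).eval ((a : ℂ)⁻¹) * (FH k M (m i)).1 ((a : ℂ)⁻¹)‖ ≤
      2 * (Fintype.card ι * (2 * H * 3 ^ M)) * (2 * M / a) ^ (L - t) := by
  have hM' : (1 : ℝ) ≤ M := by exact_mod_cast hM
  have ha' : (4 * M : ℝ) ≤ a := by exact_mod_cast ha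
  set R : Hol (M : ℝ)⁻¹ := ∑ i, polyH _ ((tw k M (m i))^[t] (A i)) * FH k M (m i) with hR
  have hev : ∀ z, R.1 z = ∑ i, ((tw k M (m i))^[t] (A i)).eval z * (FH k M (m i)).1 z := by
    intro z
    rw [← evH_apply, hR, map_sum]
    refine Finset.sum_congr rfl fun i _ => ?_
    rw [map_mul, evH_polyH, evH_apply]
  have hdvd : PowerSeries.X ^ (L - t) ∣ tay 0 R.1 := by
    have h1 := X_pow_dvd_iter (tau 0 (Polynomial.C (k : ℂ) * QQ M)) hL t
    rw [iter_form (fun i => FH_ode hk (hm i) h0)] at h1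
    rw [← tayH_apply h0, hR, map_sum]
    simpa only [map_mul, tayH_polyH] using h1
  rw [← hev]
  have hr : (0 : ℝ) < (M : ℝ)⁻¹ / 2 := by positivity
  refine schwarz_est R hr (by linarith [inv_pos.2 (by linarith : (0 : ℝ) < M)]) ?_ hdvd ?_ ?_
  · intro z hz
    rw [hev]
    refine (norm_sum_le _ _).trans ?_
    rw [← nsmul_eq_mul, ← card_univ]
    refine Finset.sum_le_card_nsmul _ _ _ fun i _ => ?_
    rw [norm_mul]
    have h1 : ‖z‖ ≤ 1 / 2 := by
      rw [hz]; have := inv_le_one_of_one_le₀ hM'; linarith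
    exact mul_le_mul ((hH i).norm_eval h1) (FH_norm hk (hm i) hz.le) (norm_nonneg _)
      (by linarith [(hH i).nonneg])
  · rw [div_le_iff₀ (by linarith)]; linarith
  · rw [norm_inv, Complex.norm_natCast]
    apply le_of_eq
    have : (a : ℝ) ≠ 0 := by linarith
    field_simp

/-- the local step, with all sizes measured by powers of `z` -/
lemma local_step {n k M s e a : ℕ} {θ η z : ℝ} (hk : k ≠ 0) (ha : 2 ≤ a) {μ : Fin n → ℕ}
    (hinj : Function.Injective μ) (hμ : ∀ i, k * μ i ≤ M) (B : ℕ → Fin n → Polynomial ℂ)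
    (hB : ∀ t < s, ∀ i, Sb (B t i) (z ^ 2)) (hdeg : ∀ t < s, ∀ i, (B t i).natDegree + M ≤ e)
    (hz : 4 ≤ z) (hn : (n : ℝ) ≤ z) (hae : (a : ℝ) ^ e ≤ z ^ 6) (hη : η * z ^ 22 ≤ 1)
    (hR : ∀ t < s, rt k a *
      ‖∑ i, (B t i).eval ((a : ℂ)⁻¹) * (FH k M (k * μ i)).1 ((a : ℂ)⁻¹)‖ * z ^ 21 ≤ 1)
    (hN : ∀ i, Near k θ η (a + k * μ i)) :
    ∃ v : Fin n → ℂ, (∀ i j, i ≠ j → v i ≠ 0 ∨ v j ≠ 0) ∧
      ∀ t < s, ∑ i, (B t i).eval ((a : ℂ)⁻¹) * v i = 0 := by
  classical
  choose x hx using hN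
  have ha0 : a ≠ 0 := by omega
  have ha' : (a : ℂ) ≠ 0 := by exact_mod_cast ha0
  have ha1 : (2 : ℝ) ≤ a := by exact_mod_cast ha
  have hz1 : (1 : ℝ) ≤ z := by linarith
  have hμM : ∀ i, μ i ≤ M := fun i => (Nat.le_mul_of_pos_left _ (Nat.pos_of_ne_zero hk)).trans (hμ i)
  have hη' : η < 1 / 2 := by
    by_contra hc
    push Not at hc
    have h1 : z ≤ z ^ 22 := le_self_pow₀ hz1 (by norm_num)
    nlinarith
  have hxinj : Function.Injective x := by
    have key : ∀ i j, μ i < μ j → x i ≠ x j := by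
      intro i j hij hxx
      obtain ⟨ν, hν⟩ := Nat.exists_eq_add_of_lt hij
      have h1 := rt_gap (k := k) (b := a + k * μ i) (ν := ν + 1) hk (by omega) (by omega)
      have h2 : a + k * μ i + k * (ν + 1) = a + k * μ j := by rw [hν]; ring
      rw [h2] at h1
      have h3 := abs_le.1 (hx i)
      have h4 := abs_le.1 (hx j)
      rw [hxx] at h3
      linarith [h3.1, h3.2, h4.1, h4.2]
    intro i j hij
    by_contra hne
    rcases lt_or_gt_of_ne (fun h => hne (hinj h)) with h | h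
    · exact key i j h hij
    · exact key j i h hij.symm
  have hc : ∀ t i, ∃ c : ℤ, t < s → (c : ℂ) = (a : ℂ) ^ (e - μ i) * (B t i).eval ((a : ℂ)⁻¹) := by
    intro t i
    by_cases ht : t < s
    · obtain ⟨c, hc⟩ := mem_ZZ.1 ((hB t ht i).eval_int (e := e - μ i)
        (by have := hdeg t ht i; have := hμM i; omega) ha0)
      exact ⟨c, fun _ => hc⟩
    · exact ⟨0, fun h => absurd h ht⟩
  choose c hc using hc
  have hcb : ∀ t < s, ∀ i, |(c t i : ℝ)| ≤ z ^ 9 := by
    intro t ht i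
    have h1 : |(c t i : ℝ)| = ‖(c t i : ℂ)‖ := by rw [Complex.norm_intCast]
    rw [h1, hc t i ht, norm_mul, norm_pow, Complex.norm_natCast]
    have h2 : (a : ℝ) ^ (e - μ i) ≤ z ^ 6 :=
      (pow_le_pow_right₀ (by linarith) (Nat.sub_le _ _)).trans hae
    have h3 : ‖(B t i).eval ((a : ℂ)⁻¹)‖ ≤ 2 * z ^ 2 := by
      refine (hB t ht i).norm_eval ?_
      rw [norm_inv, Complex.norm_natCast, inv_eq_one_div]
      exact one_div_le_one_div_of_le (by norm_num) ha1
    calc _ ≤ z ^ 6 * (2 * z ^ 2) := mul_le_mul h2 h3 (norm_nonneg _) (by positivity)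
      _ ≤ z ^ 6 * (z * z ^ 2) := by gcongr; linarith
      _ = z ^ 9 := by ring
  have hsum : ∀ (g : Fin n → ℝ) (b : ℝ), 0 ≤ b → (∀ i, |g i| ≤ b) → |∑ i, g i| ≤ z * b := by
    intro g b hb hg
    refine (Finset.abs_sum_le_sum_abs _ _).trans ?_
    refine (Finset.sum_le_card_nsmul _ _ b fun i _ => hg i).trans ?_
    simp only [card_univ, Fintype.card_fin, nsmul_eq_mul]
    gcongr
  have hη0 : ∀ i : Fin n, 0 ≤ η := fun i => (abs_nonneg _).trans (hx i)
  suffices key : ∃ v : Fin n → ℤ, (∀ i j, i ≠ j → v i ≠ 0 ∨ v j ≠ 0) ∧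
      ∀ t < s, ∑ i, c t i * v i = 0 by
    obtain ⟨v, hv1, hv2⟩ := key
    refine ⟨fun i => (a : ℂ) ^ (e - μ i) * v i, fun i j hij => ?_, fun t ht => ?_⟩
    · rcases hv1 i j hij with h | h
      · exact Or.inl (mul_ne_zero (pow_ne_zero _ ha') (by exact_mod_cast h))
      · exact Or.inr (mul_ne_zero (pow_ne_zero _ ha') (by exact_mod_cast h))
    · have h1 := congrArg (Int.cast : ℤ → ℂ) (hv2 t ht)
      push_cast at h1
      rw [← h1]
      refine Finset.sum_congr rfl fun i _ => ?_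
      rw [hc t i ht]; ring
  refine combo (s := s) c x hxinj θ (z * z ^ 9) (2 / z ^ 12) ?_ ?_ ?_
  · intro t ht
    push_cast
    exact hsum _ _ (by positivity) (hcb t ht)
  · intro t ht
    have h1 : ∑ i, (c t i : ℝ) * (x i + θ) = ∑ i, (c t i : ℝ) * rt k (a + k * μ i) -
        ∑ i, (c t i : ℝ) * (rt k (a + k * μ i) - θ - x i) := by
      rw [← Finset.sum_sub_distrib]
      exact Finset.sum_congr rfl fun i _ => by ring
    have h2 : |∑ i, (c t i : ℝ) * (rt k (a + k * μ i) - θ - x i)| ≤ 1 / z ^ 12 := by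
      rcases Nat.eq_zero_or_pos n with rfl | hn0
      · simp; positivity
      have hη0' := hη0 ⟨0, hn0⟩
      refine (hsum _ (z ^ 9 * η) (by positivity) fun i => ?_).trans ?_
      · rw [abs_mul]
        exact mul_le_mul (hcb t ht i) (hx i) (abs_nonneg _) (by positivity)
      · rw [le_div_iff₀ (by positivity)]
        calc z * (z ^ 9 * η) * z ^ 12 = η * z ^ 22 := by ring
          _ ≤ 1 := hη
    have h3 : |∑ i, (c t i : ℝ) * rt k (a + k * μ i)| ≤ 1 / z ^ 12 := by
      have h4 : ((∑ i, (c t i : ℝ) * rt k (a + k * μ i) : ℝ) : ℂ) = (a : ℂ) ^ e * (rt k a *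
          ∑ i, (B t i).eval ((a : ℂ)⁻¹) * (FH k M (k * μ i)).1 ((a : ℂ)⁻¹)) := by
        push_cast
        rw [Finset.mul_sum, Finset.mul_sum]
        refine Finset.sum_congr rfl fun i _ => ?_
        rw [hc t i ht, rt_add hk (by omega) _ (hμ i)]
        have h5 : (a : ℂ) ^ e = (a : ℂ) ^ (e - μ i) * (a : ℂ) ^ (μ i) := by
          rw [← pow_add, Nat.sub_add_cancel (by have := hdeg t ht i; have := hμM i; omega)]
        rw [h5]; ring
      rw [← Real.norm_eq_abs, ← Complex.norm_real, h4, norm_mul, norm_mul, norm_pow,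
        Complex.norm_natCast, Complex.norm_real, Real.norm_eq_abs,
        abs_of_nonneg (le_trans zero_le_one (one_le_rt k a)), le_div_iff₀ (by positivity)]
      have h6 := hR t ht
      set y := rt k a * ‖∑ i, (B t i).eval ((a : ℂ)⁻¹) * (FH k M (k * μ i)).1 ((a : ℂ)⁻¹)‖
      have hy : 0 ≤ y := mul_nonneg (le_trans zero_le_one (one_le_rt k a)) (norm_nonneg _)
      calc (a : ℝ) ^ e * y * z ^ 12 ≤ z ^ 6 * y * z ^ 12 := by gcongr
        _ = y * z ^ 18 := by ring
        _ ≤ y * z ^ 21 := by gcongr; norm_num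
        _ ≤ 1 := h6
    rw [h1]
    refine (abs_sub _ _).trans ?_
    rw [show (2 : ℝ) / z ^ 12 = 1 / z ^ 12 + 1 / z ^ 12 by ring]
    exact add_le_add h3 h2
  · have h1 : 2 * (z * z ^ 9) * (2 / z ^ 12) = 4 / z ^ 2 := by field_simp; ring
    rw [h1, div_lt_one (by positivity)]
    nlinarith

end Pool.Agent.MP_7a723b_nt

end

-- part MP_7a723b_nt.Pattern
section

/-! Few points carry a given pattern of good approximations. -/

namespace Pool.Agent.MP_7a723b_nt

open Finset Metric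

lemma sum_supp {ι β : Type*} [Fintype ι] [AddCommMonoid β] (p : ι → Prop) [DecidablePred p]
    (g : ι → β) (h : ∀ i, ¬ p i → g i = 0) : ∑ i : Subtype p, g i = ∑ i, g i := by
  rw [← Finset.sum_subtype (univ.filter p) (by simp) g, Finset.sum_filter]
  refine Finset.sum_congr rfl fun i _ => ?_
  split_ifs with hi
  · rfl
  · exact (h i hi).symm

lemma tw_iter_zero (k M m t : ℕ) : (tw k M m)^[t] 0 = 0 :=
  Function.iterate_fixed (by simp [tw]) t

lemma QQ_eval_ne (M : ℕ) {a : ℕ} (ha : a ≠ 0) : (QQ M).eval ((a : ℂ)⁻¹) ≠ 0 := by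
  rw [QQ, Polynomial.eval_prod]
  refine Finset.prod_ne_zero_iff.2 fun j _ => ?_
  rw [eval_lin]
  have h1 : (1 + j * (a : ℂ)⁻¹) = ((1 + j * (a : ℝ)⁻¹ : ℝ) : ℂ) := by push_cast; ring
  rw [h1]
  have : (0 : ℝ) < 1 + j * (a : ℝ)⁻¹ := by positivity
  exact_mod_cast this.ne'

/-- the auxiliary forms -/
lemma aux_forms {n k M E N : ℕ} (hk : 2 ≤ k) (hM : 1 ≤ M) (hn : 1 ≤ n) (hME : M ≤ E)
    (hP : (2 * k * M) ^ (4 * n) ≤ N) {m : Fin n → ℕ} (hm : ∀ i, m i ≤ M)
    (h0 : (0 : ℂ) ∈ ball (0 : ℂ) (M : ℝ)⁻¹) :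
    ∃ A : Fin n → Polynomial ℂ, A ≠ 0 ∧ (∀ i, (A i).natDegree ≤ 2 * E) ∧
      (∀ i, Sb (A i) ((N : ℝ) ^ E)) ∧
      PowerSeries.X ^ (n * E) ∣ ∑ i, tau 0 (A i) * tayH h0 (FH k M (m i)) := by
  set L := n * E with hL
  have hk0 : k ≠ 0 := by omega
  have hL0 : 0 < L := Nat.mul_pos hn (by omega)
  have hM' : (1 : ℝ) ≤ M := by exact_mod_cast hM
  have hk' : (1 : ℝ) ≤ k := by exact_mod_cast (by omega : 1 ≤ k)
  obtain ⟨A, hA0, hAd, hAb, hAL⟩ := siegel_form (fun i => tayH h0 (FH k M (m i))) (2 * E) L hL0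
    (by rw [Fintype.card_fin, hL]; nlinarith) (((k : ℂ) ^ 2) ^ L)
    (pow_ne_zero _ (pow_ne_zero _ (by exact_mod_cast hk0)))
    ((((k ^ 2) ^ L * (3 ^ M * (2 * M) ^ L) : ℕ)) : ℝ)
    (by exact_mod_cast Nat.one_le_iff_ne_zero.2 (by positivity))
    (fun i j hj => by
      have h1 := FH_int hk0 (hm i) h0 j j le_rfl
      rw [PowerSeries.coeff_rescale] at h1
      obtain ⟨c, hc⟩ := Nat.exists_eq_add_of_le hj.le
      rw [hc, add_comm j c, pow_add, mul_assoc]
      exact ZZ.mul_mem (ZZ.pow_mem (ZZ.pow_mem (natCast_mem _ _) _) _) h1)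
    (fun i j hj => by
      have hr : (0 : ℝ) < (M : ℝ)⁻¹ / 2 := by positivity
      have h1 := cauchy_est (FH k M (m i)) (c := 0) hr
        (by rw [norm_zero]; linarith [inv_pos.2 (by linarith : (0 : ℝ) < M)])
        (fun z hz => FH_norm hk0 (hm i) (by simpa using hz.le)) j
      rw [norm_mul, norm_pow, norm_pow, Complex.norm_natCast, tayH_apply]
      push_cast
      refine mul_le_mul_of_nonneg_left (h1.trans ?_) (by positivity)
      have h2 : (3 : ℝ) ^ M / ((M : ℝ)⁻¹ / 2) ^ j = 3 ^ M * (2 * M) ^ j := by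
        rw [div_eq_mul_inv, ← inv_pow]; congr 2; field_simp
      rw [h2]
      exact mul_le_mul_of_nonneg_left (pow_le_pow_right₀ (by linarith) hj.le) (by positivity))
  refine ⟨A, hA0, hAd, fun i => (hAb i).mono ?_, hAL⟩
  rw [Fintype.card_fin]
  have key : n * (2 * E + 1) * ((k ^ 2) ^ L * (3 ^ M * (2 * M) ^ L)) ≤ N ^ E := by
    set P := 2 * k * M with hPd
    have hP4 : 4 ≤ P := by rw [hPd]; nlinarith
    have h1 : n * (2 * E + 1) ≤ P ^ L := by
      have h2 : n * (2 * E + 1) ≤ 3 * L := by rw [hL]; nlinarith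
      have h3 : 3 * L ≤ 4 ^ L := by
        have : ∀ l : ℕ, 3 * l ≤ 4 ^ l := fun l => by
          induction l with
          | zero => simp
          | succ l ih => have : 0 < 4 ^ l := by positivity
                         rw [pow_succ]; omega
        exact this L
      exact h2.trans (h3.trans (Nat.pow_le_pow_left hP4 _))
    have h4 : 3 ^ M ≤ P ^ L := (Nat.pow_le_pow_left (by omega) _).trans
      (Nat.pow_le_pow_right (by omega) (hME.trans (Nat.le_mul_of_pos_left _ hn)))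
    have h5 : (k ^ 2) ^ L * (2 * M) ^ L ≤ (P ^ 2) ^ L := by
      rw [← mul_pow]
      refine Nat.pow_le_pow_left ?_ _
      rw [hPd]; nlinarith [Nat.zero_le (k ^ 2 * M)]
    calc _ = n * (2 * E + 1) * 3 ^ M * ((k ^ 2) ^ L * (2 * M) ^ L) := by ring
      _ ≤ P ^ L * P ^ L * (P ^ 2) ^ L := by gcongr
      _ = (P ^ (4 * n)) ^ E := by rw [hL]; ring
      _ ≤ N ^ E := Nat.pow_le_pow_left hP _
  exact_mod_cast key

theorem pattern_bound {n k M s w N : ℕ} {θ η : ℝ} (hk : 2 ≤ k) (hM : 1 ≤ M)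
    (hn : 2 * w + 50 ≤ n) (hs : 2 * n ≤ s) (hP : (2 * k * M) ^ (4 * n) ≤ N)
    (hE : 12 * M * s ≤ N) (hη : η * ((N : ℝ) ^ (4 * M * s)) ^ 22 ≤ 1)
    (hα : (2 * N).factorial ≤ ((N ^ (4 * M * s)) ^ w) ^ k) {μ : Fin n → ℕ}
    (hinj : Function.Injective μ) (hμ : ∀ i, k * μ i ≤ M) (Y : Finset ℕ)
    (hY : ∀ a ∈ Y, N ≤ a ∧ a < 2 * N ∧ ∀ i, Near k θ η (a + k * μ i)) :
    Y.card ≤ 10 * n * M := by
  classical
  set E := 4 * M * s with hEd
  have hk0 : k ≠ 0 := by omega
  have hM' : (1 : ℝ) ≤ M := by exact_mod_cast hM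
  have h0 : (0 : ℂ) ∈ ball (0 : ℂ) (M : ℝ)⁻¹ := mem_ball_self (by positivity)
  have hME : M + 1 ≤ E := by rw [hEd]; nlinarith
  have hsE : s ≤ E := by rw [hEd]; nlinarith
  obtain ⟨A, hA0, hAd, hAb, hAL⟩ := aux_forms (E := E) hk hM (by omega) (by omega) hP hμ h0
  set P := 2 * k * M with hPd
  have hP4 : 4 ≤ P := by rw [hPd]; nlinarith
  have hP2 : P ^ 2 ≤ N := (Nat.pow_le_pow_right (by omega) (by omega)).trans hP
  have hkN : k ≤ N := by rw [hPd] at hP2; nlinarith
  have hMN : 4 * M ^ 2 ≤ N := by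
    have h1 : (2 * M) ^ 2 ≤ P ^ 2 := Nat.pow_le_pow_left (by rw [hPd]; nlinarith) _
    have h2 : (2 * M) ^ 2 = 4 * M ^ 2 := by ring
    omega
  have hM4 : 4 * M ≤ N := by nlinarith
  have hN16 : 16 ≤ N := by nlinarith
  have hnN : 4 * n ≤ N := by nlinarith
  have hN1 : (1 : ℝ) ≤ N := by exact_mod_cast (by omega : 1 ≤ N)
  set z : ℝ := (N : ℝ) ^ E with hz
  have hNz : (N : ℝ) ≤ z := le_self_pow₀ hN1 (by omega)
  have hz4 : 4 ≤ z := le_trans (by exact_mod_cast (by omega : 4 ≤ N)) hNz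
  have hG : ((1 : ℝ) + M) ^ M * (k * (2 * E + s * M : ℕ) + M ^ 2) ≤ (N : ℝ) ^ (4 * M) := by
    have key : (1 + M) ^ M * (k * (2 * E + s * M) + M ^ 2) ≤ N ^ (4 * M) := by
      have h1 : 2 * E + s * M ≤ N := by rw [hEd]; nlinarith
      have h2 : k * (2 * E + s * M) + M ^ 2 ≤ N ^ 3 := by
        have := Nat.mul_le_mul hkN h1
        nlinarith
      calc _ ≤ N ^ M * N ^ (3 * M) := Nat.mul_le_mul (Nat.pow_le_pow_left (by omega) _)
            (h2.trans (Nat.pow_le_pow_right (by omega) (by omega)))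
        _ = _ := by ring
    exact_mod_cast key
  have hB : ∀ t < s, ∀ i, Sb ((tw k M (k * μ i))^[t] (A i)) (z ^ 2) := by
    intro t ht i
    refine (Sb.tw_iter (hAb i) (hAd i) k (hμ i) hG t ht.le).mono ?_
    rw [sq]
    refine mul_le_mul_of_nonneg_right ?_ (by positivity)
    rw [← pow_mul]
    exact pow_le_pow_right₀ hN1 (by rw [hEd]; nlinarith)
  have hloc : ∀ a ∈ Y, ∃ v : Fin n → ℂ, (∀ i j, i ≠ j → v i ≠ 0 ∨ v j ≠ 0) ∧
      ∀ t < s, ∑ i, ((tw k M (k * μ i))^[t] (A i)).eval ((a : ℂ)⁻¹) * v i = 0 := by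
    intro a ha
    obtain ⟨h1, h2, h3⟩ := hY a ha
    have ha1 : (N : ℝ) ≤ a := by exact_mod_cast h1
    refine local_step (e := 3 * E) (z := z) hk0 (by omega) hinj hμ
      (fun t i => (tw k M (k * μ i))^[t] (A i)) hB ?_ hz4 ?_ ?_ hη ?_ h3
    · intro t ht i
      have := natDegree_tw_iter k M (k * μ i) (hAd i) t
      have h4 : t * M + M ≤ E := by rw [hEd]; nlinarith
      omega
    · exact le_trans (by exact_mod_cast (by omega : n ≤ N)) hNz
    · have h4 : a ^ (3 * E) ≤ (N ^ E) ^ 6 := by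
        calc a ^ (3 * E) ≤ (N ^ 2) ^ (3 * E) := Nat.pow_le_pow_left (by nlinarith) _
          _ = _ := by ring
      rw [hz]; exact_mod_cast h4
    · intro t ht
      have h4 := rem_small hk0 hM hμ h0 hAL t (hB t ht) (a := a) (by omega)
      have h5 : rt k a ≤ z ^ w := by
        have h6 : (a.factorial : ℝ) ≤ (z ^ w) ^ k := by
          rw [hz]; exact_mod_cast (Nat.factorial_le h2.le).trans hα
        rw [rt, ← Real.pow_rpow_inv_natCast (x := z ^ w) (by positivity) hk0]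
        exact Real.rpow_le_rpow (by positivity) h6 (by positivity)
      have h6 : 2 * (Fintype.card (Fin n) * (2 * z ^ 2 * 3 ^ M)) ≤ z ^ 3 := by
        have h7 : 4 * n * 3 ^ M ≤ N ^ E := by
          calc 4 * n * 3 ^ M ≤ N * N ^ M := Nat.mul_le_mul hnN (Nat.pow_le_pow_left (by omega) _)
            _ = N ^ (M + 1) := by ring
            _ ≤ N ^ E := Nat.pow_le_pow_right (by omega) hME
        have h8 : (4 * n * 3 ^ M : ℝ) ≤ z := by rw [hz]; exact_mod_cast h7
        rw [Fintype.card_fin]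
        calc _ = (4 * n * 3 ^ M : ℝ) * z ^ 2 := by ring
          _ ≤ z * z ^ 2 := by gcongr
          _ = _ := by ring
      have hapos : (0 : ℝ) < a := by linarith
      have h7 : ((2 * M : ℝ) / a) ^ (n * E - t) * z ^ (w + 24) ≤ 1 := by
        have hq1 : (2 * M : ℝ) / a ≤ 1 := by
          rw [div_le_one hapos]
          have : (4 * M : ℝ) ≤ N := by exact_mod_cast hM4
          linarith
        have hq2 : ((2 * M : ℝ) / a) ^ 2 * N ≤ 1 := by
          rw [div_pow, div_mul_eq_mul_div, div_le_one (by positivity)]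
          have : (4 * M ^ 2 : ℝ) ≤ N := by exact_mod_cast hMN
          nlinarith
        have he : 2 * (E * (w + 24)) ≤ n * E - t := by
          have : (2 * w + 50) * E ≤ n * E := Nat.mul_le_mul_right _ hn
          apply Nat.le_sub_of_add_le
          nlinarith
        calc _ ≤ ((2 * M : ℝ) / a) ^ (2 * (E * (w + 24))) * z ^ (w + 24) := by
              exact mul_le_mul_of_nonneg_right (pow_le_pow_of_le_one (by positivity) hq1 he)
                (by positivity)
          _ = (((2 * M : ℝ) / a) ^ 2 * N) ^ (E * (w + 24)) := by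
              rw [hz, mul_pow, ← pow_mul, ← pow_mul]
          _ ≤ 1 := pow_le_one₀ (by positivity) hq2
      calc _ ≤ z ^ w * (z ^ 3 * ((2 * M : ℝ) / a) ^ (n * E - t)) * z ^ 21 := by
            refine mul_le_mul_of_nonneg_right (mul_le_mul h5 (h4.trans ?_) (norm_nonneg _)
              (by positivity)) (by positivity)
            exact mul_le_mul_of_nonneg_right h6 (by positivity)
        _ = ((2 * M : ℝ) / a) ^ (n * E - t) * z ^ (w + 24) := by ring
        _ ≤ 1 := h7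
  obtain ⟨i0, hi0⟩ : ∃ i, A i ≠ 0 := by
    by_contra h
    push Not at h
    exact hA0 (funext h)
  set r := Fintype.card {i // A i ≠ 0} with hr
  have hrn : r ≤ n := by
    have := Fintype.card_subtype_le (fun i => A i ≠ 0)
    rwa [Fintype.card_fin] at this
  have hcount := fun (Y' : Finset ℂ) => zero_count (ι := {i // A i ≠ 0}) (D := 2 * E) (L := n * E)
    (s := s) (m := fun i => k * μ i) (A := fun i => A i) hk
    (fun i j h => Subtype.ext (hinj (Nat.eq_of_mul_eq_mul_left (by omega) h))) (fun i => hμ i)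
    (fun i => i.2) (fun i => hAd i) (f0 := fun i => tayH h0 (FH k M (k * μ i)))
    (fun i => FH_ode hk0 (hμ i) h0) (i0 := ⟨i0, hi0⟩)
    (by rw [constantCoeff_tayH]; exact FH_ne_zero (hμ _) _)
    (by
      rw [sum_supp (fun i => A i ≠ 0) (fun i => tau 0 (A i) * tayH h0 (FH k M (k * μ i)))
        (fun i hi => by rw [not_not.1 hi]; simp)]
      exact hAL) Y'
  rw [← hr] at hcount
  by_cases hr1 : r ≤ 1
  · exfalso
    have h1 := hcount ∅ (by simp) (by simp)
    have h2 : r * (2 * E + r * M) ≤ 1 * (2 * E + 1 * M) := by gcongr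
    have h3 : 50 * E ≤ n * E := Nat.mul_le_mul_right _ (by omega)
    simp only [card_empty, mul_zero, add_zero] at h1
    omega
  obtain ⟨i1, i2, h12⟩ := Fintype.exists_pair_of_one_lt_card (α := {i // A i ≠ 0}) (by omega)
  have hinjY : Set.InjOn (fun a : ℕ => (a : ℂ)⁻¹) Y := fun a _ b _ h => by
    exact_mod_cast inv_injective h
  have h1 := hcount (Y.image fun a : ℕ => (a : ℂ)⁻¹) ?_ ?_
  · rw [card_image_of_injOn hinjY] at h1
    have h2 : r * (2 * E + r * M) ≤ n * (2 * E + n * M) := by gcongr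
    have h3 : (s - n) * Y.card ≤ (s - r) * Y.card := Nat.mul_le_mul_right _ (by omega)
    have h4 : (s - n) * Y.card ≤ n * E + n * n * M + n := by
      have : n * (2 * E + n * M) = 2 * (n * E) + n * n * M := by ring
      omega
    have h5 : s * Y.card ≤ 2 * ((s - n) * Y.card) := by
      rw [← mul_assoc]; exact Nat.mul_le_mul_right _ (by omega)
    have h6 : s * Y.card ≤ s * (10 * n * M) := by
      have h7 : 2 * n * (n * M) ≤ s * (n * M) := Nat.mul_le_mul_right _ hs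
      have h8 : 2 * n ≤ s * (n * M) := hs.trans (Nat.le_mul_of_pos_right _ (Nat.mul_pos (by omega) hM))
      have h9 : n * E = 4 * (s * (n * M)) := by rw [hEd]; ring
      nlinarith
    exact Nat.le_of_mul_le_mul_left h6 (by omega)
  · intro h
    obtain ⟨a, ha, h⟩ := mem_image.1 h
    have := (hY a ha).1
    simp only [inv_eq_zero, Nat.cast_eq_zero] at h
    omega
  · intro y hy
    obtain ⟨a, ha, rfl⟩ := mem_image.1 hy
    have h1 := (hY a ha).1
    obtain ⟨v, hv1, hv2⟩ := hloc a ha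
    have hy : ((a : ℂ)⁻¹) ∈ ball (0 : ℂ) (M : ℝ)⁻¹ := by
      rw [mem_ball, dist_zero_right, norm_inv, Complex.norm_natCast]
      exact inv_strictAnti₀ (by linarith) (by exact_mod_cast (by omega : M < a))
    have hcc : ∀ i : Fin n, PowerSeries.constantCoeff (PowerSeries.C
        (v i / (FH k M (k * μ i)).1 ((a : ℂ)⁻¹)) * tayH hy (FH k M (k * μ i))) = v i := by
      intro i
      rw [map_mul, constantCoeff_tayH, PowerSeries.constantCoeff_C,
        div_mul_cancel₀ _ (FH_ne_zero (hμ i) _)]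
    refine ⟨QQ_eval_ne M (by omega), fun i => PowerSeries.C
        (v i / (FH k M (k * μ i)).1 ((a : ℂ)⁻¹)) * tayH hy (FH k M (k * μ i)),
      fun i => (FH_ode hk0 (hμ i) hy).smul _, ?_, fun t ht => ?_⟩
    · rcases hv1 i1 i2 (fun h => h12 (Subtype.ext h)) with h | h
      · exact ⟨i1, by rwa [hcc]⟩
      · exact ⟨i2, by rwa [hcc]⟩
    · simp only [hcc]
      rw [sum_supp (fun i => A i ≠ 0)
        (fun i => ((tw k M (k * μ i))^[t] (A i)).eval ((a : ℂ)⁻¹) * v i)
        (fun i hi => by rw [not_not.1 hi, tw_iter_zero]; simp)]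
      exact hv2 t ht

end Pool.Agent.MP_7a723b_nt

end

-- part MP_7a723b_nt.Block
section

/-! Counting good approximations in a dyadic block. -/

namespace Pool.Agent.MP_7a723b_nt

open Finset

open Classical in
theorem block_bound {n k M s w N : ℕ} {θ η : ℝ} (hk : 2 ≤ k) (hM : 1 ≤ M)
    (hn : 2 * w + 50 ≤ n) (hs : 2 * n ≤ s) (hP : (2 * k * M) ^ (4 * n) ≤ N)
    (hE : 12 * M * s ≤ N) (hη : η * ((N : ℝ) ^ (4 * M * s)) ^ 22 ≤ 1)
    (hα : (2 * N).factorial ≤ ((N ^ (4 * M * s)) ^ w) ^ k) :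
    ((Ico N (2 * N)).filter (Near k θ η)).card * M ≤ 4 * n * k * N := by
  set B := (Ico N (2 * N)).filter (Near k θ η) with hB
  set Pat : (Fin n → ℕ) → ℕ → Prop := fun μ a => Function.Injective μ ∧ (∀ i, k * μ i ≤ M) ∧
    ∀ i, Near k θ η (a + k * μ i) with hPat
  set St : ℕ → Prop := fun a => ∃ μ, Pat μ a with hSt
  have h1 : (B.filter St).card ≤ (M + 1) ^ n * (10 * n * M) := by
    have hsub : B.filter St ⊆ (Fintype.piFinset fun _ : Fin n => range (M + 1)).biUnion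
        fun μ => B.filter (Pat μ) := by
      intro a ha
      obtain ⟨haB, μ, hμ⟩ := mem_filter.1 ha
      refine mem_biUnion.2 ⟨μ, Fintype.mem_piFinset.2 fun i => mem_range.2 ?_,
        mem_filter.2 ⟨haB, hμ⟩⟩
      have := hμ.2.1 i
      have h2 : μ i ≤ k * μ i := Nat.le_mul_of_pos_left _ (by omega)
      omega
    refine (card_le_card hsub).trans (card_biUnion_le.trans ?_)
    refine (Finset.sum_le_card_nsmul _ _ (10 * n * M) fun μ _ => ?_).trans (by simp)
    rcases (B.filter (Pat μ)).eq_empty_or_nonempty with h | ⟨a0, ha0⟩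
    · simp [h]
    have h0 := (mem_filter.1 ha0).2
    refine pattern_bound (θ := θ) hk hM hn hs hP hE hη hα h0.1 h0.2.1 _ fun a ha => ?_
    obtain ⟨haB, hp⟩ := mem_filter.1 ha
    have := mem_Ico.1 (mem_filter.1 haB).1
    exact ⟨this.1, this.2, hp.2.2⟩
  have h2 : (B.filter fun a => ¬ St a).card ≤ n * ((2 * N / M + 1) * k) := by
    set NS := B.filter fun a => ¬ St a with hNS
    have h3 := Finset.card_le_mul_card_image (f := fun a => (a / M, a % k)) NS n ?_
    · refine h3.trans (Nat.mul_le_mul_left _ ?_)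
      have hsub : NS.image (fun a => (a / M, a % k)) ⊆ range (2 * N / M + 1) ×ˢ range k := by
        intro p hp
        obtain ⟨a, ha, rfl⟩ := mem_image.1 hp
        have h4 := (mem_Ico.1 (mem_filter.1 (mem_filter.1 ha).1).1).2
        refine mem_product.2 ⟨mem_range.2 ?_, mem_range.2 (Nat.mod_lt _ (by omega))⟩
        exact Nat.lt_succ_of_le (Nat.div_le_div_right h4.le)
      simpa using card_le_card hsub
    · intro p _
      by_contra hc
      push Not at hc
      obtain ⟨t, ht, htc⟩ := exists_subset_card_eq hc.le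
      have hne : t.Nonempty := card_pos.1 (by omega)
      set a := t.min' hne with ha
      have hat : a ∈ t := min'_mem t hne
      have hmem : ∀ b ∈ t, b ∈ NS ∧ (b / M, b % k) = p := fun b hb => by
        simpa using mem_filter.1 (ht hb)
      set e := t.orderEmbOfFin htc with he
      have het : ∀ i, e i ∈ t := fun i => orderEmbOfFin_mem t htc i
      have hae : ∀ i, a ≤ e i := fun i => min'_le t _ (het i)
      have hq : ∀ i, e i / M = a / M ∧ e i % k = a % k := fun i => by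
        have := (hmem _ (het i)).2.trans (hmem a hat).2.symm
        exact Prod.ext_iff.1 this
      have hdvd : ∀ i, k * ((e i - a) / k) = e i - a := fun i =>
        Nat.mul_div_cancel' ((Nat.modEq_iff_dvd' (hae i)).1 (hq i).2.symm)
      refine (mem_filter.1 (hmem a hat).1).2 ⟨fun i => (e i - a) / k, fun i j hij => ?_,
        fun i => ?_, fun i => ?_⟩
      · apply e.injective
        have h5 := hdvd i
        have h6 := hdvd j
        have h7 : (e i - a) / k = (e j - a) / k := hij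
        rw [h7] at h5
        have := hae i
        have := hae j
        omega
      · rw [hdvd]
        have h5 := Nat.div_add_mod (e i) M
        have h6 := Nat.div_add_mod a M
        have h7 := Nat.mod_lt (e i) (show M > 0 by omega)
        rw [(hq i).1] at h5
        omega
      · rw [hdvd, Nat.add_sub_cancel' (hae i)]
        exact (mem_filter.1 (mem_filter.1 (hmem _ (het i)).1).1).2
  have h3 : (B.filter St).card + (B.filter fun a => ¬ St a).card = B.card :=
    card_filter_add_card_filter_not _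
  set P := 2 * k * M with hPd
  have hP4 : 4 ≤ P := by rw [hPd]; nlinarith
  have h4 : (M + 1) ^ n * (10 * n * M) * M ≤ N := by
    have h5 : (M + 1) ^ n ≤ P ^ n := Nat.pow_le_pow_left (by rw [hPd]; nlinarith) _
    have h6 : n ≤ P ^ n := (Nat.lt_two_pow_self.le).trans (Nat.pow_le_pow_left (by omega) _)
    have h7 : 10 * M ^ 2 ≤ P ^ (2 * n) := by
      have h8 : (4 * M) ^ 2 ≤ P ^ 2 := Nat.pow_le_pow_left (by rw [hPd]; nlinarith) _
      have h9 : P ^ 2 ≤ P ^ (2 * n) := Nat.pow_le_pow_right (by omega) (by omega)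
      have h10 : (4 * M) ^ 2 = 16 * M ^ 2 := by ring
      omega
    calc _ = (M + 1) ^ n * n * (10 * M ^ 2) := by ring
      _ ≤ P ^ n * P ^ n * P ^ (2 * n) := by gcongr
      _ = P ^ (4 * n) := by ring
      _ ≤ N := hP
  have h5 : (2 * N / M + 1) * M ≤ 3 * N := by
    have := Nat.div_mul_le_self (2 * N) M
    have h6 : M ≤ N := by nlinarith
    nlinarith
  have h6 : n * ((2 * N / M + 1) * k) * M ≤ 3 * (n * k * N) := by
    calc _ = n * k * ((2 * N / M + 1) * M) := by ring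
      _ ≤ n * k * (3 * N) := by gcongr
      _ = _ := by ring
  have h7 : N ≤ n * k * N := Nat.le_mul_of_pos_left _ (Nat.mul_pos (by omega) (by omega))
  calc B.card * M = (B.filter St).card * M + (B.filter fun a => ¬ St a).card * M := by
        rw [← h3]; ring
    _ ≤ (M + 1) ^ n * (10 * n * M) * M + n * ((2 * N / M + 1) * k) * M := by gcongr
    _ ≤ 4 * n * k * N := by nlinarith

end Pool.Agent.MP_7a723b_nt

end
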