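import Pool.Agent.MP_7a723b_nt.Mg.Block

/-! Choice of the parameters and summation over dyadic blocks. -/

namespace Pool.Agent.MP_7a723b_nt

open Finset

lemma pow_le_factorial_sq (n : ℕ) : n ^ n ≤ n.factorial ^ 2 := by
  have h1 : n.factorial = ∏ i ∈ range n, (i + 1) := (Finset.prod_range_add_one_eq_factorial n).symm
  have h2 : n.factorial = ∏ i ∈ range n, (n - 1 - i + 1) := by
    rw [h1]; exact (Finset.prod_range_reflect (fun i => i + 1) n).symm
  rw [sq]
  nth_rewrite 1 [h1]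
  rw [h2, ← Finset.prod_mul_distrib]
  calc n ^ n = ∏ _i ∈ range n, n := by simp
    _ ≤ _ := by
      refine Finset.prod_le_prod' fun i hi => ?_
      have hi' := mem_range.1 hi
      obtain ⟨d, rfl⟩ := Nat.exists_eq_add_of_lt hi'
      have : i + d + 1 - 1 - i = d := by omega
      rw [this]; nlinarith

open Classical in
theorem block_real {k N : ℕ} {θ η δ x : ℝ} (hδ : 0 < δ) (hδ1 : δ ≤ 1) (hx : 800 ≤ δ * x)
    (hxN : x ^ 20000 ≤ (N : ℝ) ^ δ) (hk : 2 ≤ k) (hkx : (k : ℝ) ≤ x)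
    (hη : η ≤ (N.factorial : ℝ) ^ (-(δ / k))) :
    (((Ico N (2 * N)).filter (Near k θ η)).card : ℝ) * x ≤ N := by
  have hx0 : 0 < x := by by_contra h; nlinarith
  have hx8 : 800 ≤ x := by nlinarith
  have hx1 : 1 ≤ x := by linarith
  have hk0 : (0 : ℝ) < k := by exact_mod_cast (by omega : 0 < k)
  have hk2 : (2 : ℝ) ≤ k := by exact_mod_cast hk
  have hN1 : (1 : ℝ) ≤ N := by
    by_contra h
    have h0 : N = 0 := by
      have : N < 1 := by exact_mod_cast not_le.1 h
      omega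
    rw [h0, Nat.cast_zero, Real.zero_rpow hδ.ne'] at hxN
    exact absurd hxN (not_le.2 (by positivity))
  have hpow : ∀ j : ℕ, (j : ℝ) * δ ≤ 20000 → x ^ j ≤ N := by
    intro j hj
    have h1 : (x ^ j) ^ δ ≤ (N : ℝ) ^ δ := by
      refine le_trans ?_ hxN
      rw [← Real.rpow_natCast, ← Real.rpow_mul hx0.le, ← Real.rpow_natCast]
      exact Real.rpow_le_rpow_of_exponent_le hx1 (by exact_mod_cast hj)
    exact (Real.rpow_le_rpow_iff (by positivity) (by positivity) hδ).1 h1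
  set w := ⌈352 / δ⌉₊ with hw
  have hw1 : 352 ≤ (w : ℝ) * δ := by
    have := Nat.le_ceil (352 / δ)
    rwa [div_le_iff₀ hδ] at this
  have hw2 : (w : ℝ) * δ ≤ 353 := by
    have h1 := (Nat.ceil_lt_add_one (show 0 ≤ 352 / δ by positivity)).le
    have h2 : (352 / δ + 1) * δ = 352 + δ := by field_simp
    nlinarith
  set n := 2 * w + 50 with hn
  have hn1 : (n : ℝ) * δ ≤ 756 := by rw [hn]; push_cast; nlinarith
  have hnx : (n : ℝ) ≤ x := by nlinarith
  set M := ⌊x ^ 4⌋₊ with hM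
  have hx4 : 1 ≤ x ^ 4 := one_le_pow₀ hx1
  have hM1 : 1 ≤ M := Nat.le_floor (by simpa using hx4)
  have hM1' : (1 : ℝ) ≤ M := by exact_mod_cast hM1
  have hM2 : (M : ℝ) ≤ x ^ 4 := Nat.floor_le (by positivity)
  have hM3 : x ^ 4 ≤ 2 * M := by have := Nat.lt_floor_add_one (x ^ 4); linarith
  set u : ℝ := δ * N / (176 * k * M) with hu
  have hden : (0 : ℝ) < 176 * k * M := by positivity
  set s := ⌊u⌋₊ with hs
  have hu0 : 0 ≤ u := by positivity
  have hs1 : (s : ℝ) * (176 * k * M) ≤ δ * N := by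
    have := Nat.floor_le hu0
    rwa [hu, le_div_iff₀ hden] at this
  have hu2 : ((2 * n : ℕ) : ℝ) ≤ u := by
    rw [hu, le_div_iff₀ hden]
    have h8 : x ^ 8 ≤ N := hpow 8 (by push_cast; linarith)
    have h1 : ((2 * n : ℕ) : ℝ) * (176 * k * M) ≤ 352 * x ^ 6 := by
      push_cast
      calc (2 * n : ℝ) * (176 * k * M) = 352 * (n * k * M) := by ring
        _ ≤ 352 * (x * x * x ^ 4) := by gcongr
        _ = _ := by ring
    have h2 : 352 * x ^ 6 ≤ δ * x ^ 8 := by
      have : δ * x ^ 8 = (δ * x) * x * x ^ 6 := by ring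
      rw [this]
      gcongr
      nlinarith
    nlinarith
  have hs2 : 2 * n ≤ s := Nat.le_floor hu2
  have hs3 : u ≤ 2 * s := by
    have h1 := Nat.lt_floor_add_one u
    have h2 : (1 : ℝ) ≤ s := by exact_mod_cast (by omega : 1 ≤ s)
    linarith
  have hP : (2 * k * M) ^ (4 * n) ≤ N := by
    have h1 : ((2 * k * M : ℕ) : ℝ) ≤ x ^ 6 := by
      push_cast
      calc (2 : ℝ) * k * M ≤ x * x * x ^ 4 := by gcongr; linarith
        _ = _ := by ring
    have h2 : (x ^ 6) ^ (4 * n) ≤ N := by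
      rw [← pow_mul]; exact hpow _ (by push_cast; nlinarith)
    have h3 := (pow_le_pow_left₀ (by positivity) h1 (4 * n)).trans h2
    exact_mod_cast h3
  have hE : 12 * M * s ≤ N := by
    have h1 : (12 * M * s : ℝ) ≤ N := by
      have h2 : δ * N ≤ N := by nlinarith
      have h3 : (0 : ℝ) ≤ M * s := by positivity
      nlinarith
    exact_mod_cast h1
  have hη' : η * ((N : ℝ) ^ (4 * M * s)) ^ 22 ≤ 1 := by
    have hf : (0 : ℝ) < N.factorial := by exact_mod_cast Nat.factorial_pos N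
    have h1 : ((N : ℝ) ^ (4 * M * s)) ^ 22 ≤ (N.factorial : ℝ) ^ (δ / k) := by
      have h2 : (N : ℝ) ^ N ≤ (N.factorial : ℝ) ^ 2 := by exact_mod_cast pow_le_factorial_sq N
      have h3 : ((N : ℝ) ^ N) ^ (δ / k / 2) ≤ ((N.factorial : ℝ) ^ 2) ^ (δ / k / 2) :=
        Real.rpow_le_rpow (by positivity) h2 (by positivity)
      rw [← Real.rpow_natCast, ← Real.rpow_mul (by positivity), ← Real.rpow_natCast,
        ← Real.rpow_mul hf.le] at h3
      rw [← pow_mul, ← Real.rpow_natCast]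
      refine le_trans (Real.rpow_le_rpow_of_exponent_le hN1 ?_) (h3.trans (le_of_eq ?_))
      · push_cast
        rw [show (N : ℝ) * (δ / k / 2) = δ * N / (2 * k) by field_simp, le_div_iff₀ (by positivity)]
        nlinarith
      · congr 1; push_cast; ring
    calc _ ≤ (N.factorial : ℝ) ^ (-(δ / k)) * (N.factorial : ℝ) ^ (δ / k) :=
          mul_le_mul hη h1 (by positivity) (by positivity)
      _ = 1 := by rw [← Real.rpow_add hf]; simp
  have hN2 : 2 ≤ N := by
    have := hpow 1 (by push_cast; linarith)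
    have h2 : (2 : ℝ) ≤ N := by rw [pow_one] at this; linarith
    exact_mod_cast h2
  have hα : (2 * N).factorial ≤ ((N ^ (4 * M * s)) ^ w) ^ k := by
    have h1 : N ≤ M * s * w * k := by
      have h2 : (N : ℝ) ≤ M * s * w * k := by
        rw [hu, div_le_iff₀ hden] at hs3
        have h3 : (0 : ℝ) ≤ M * s * k := by positivity
        have h4 : 352 * (M * s * k : ℝ) ≤ w * δ * (M * s * k) := by gcongr
        have h5 : δ * N ≤ δ * (M * s * w * k) := by nlinarith
        exact le_of_mul_le_mul_left h5 hδ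
      exact_mod_cast h2
    calc (2 * N).factorial ≤ (2 * N) ^ (2 * N) := Nat.factorial_le_pow _
      _ ≤ (N ^ 2) ^ (2 * N) := Nat.pow_le_pow_left (by nlinarith) _
      _ = N ^ (4 * N) := by ring
      _ ≤ N ^ (4 * (M * s * w * k)) := Nat.pow_le_pow_right (by omega) (by omega)
      _ = _ := by ring
  have h1 := block_bound (θ := θ) hk hM1 (le_of_eq hn.symm) hs2 hP hE hη' hα
  set b := ((Ico N (2 * N)).filter (Near k θ η)).card
  have h2 : (b : ℝ) * M ≤ 4 * n * k * N := by exact_mod_cast h1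
  have h3 : (b : ℝ) * x * x ^ 3 ≤ N * x ^ 3 := by
    calc (b : ℝ) * x * x ^ 3 = b * x ^ 4 := by ring
      _ ≤ (b : ℝ) * (2 * M) := by gcongr
      _ = 2 * ((b : ℝ) * M) := by ring
      _ ≤ 2 * (4 * (n : ℝ) * k * N) := by gcongr
      _ = 8 * (n : ℝ) * k * N := by ring
      _ ≤ x * x * x * N := by gcongr; linarith
      _ = _ := by ring
  exact le_of_mul_le_mul_right h3 (by positivity)

lemma Near.mono {k a : ℕ} {θ η η' : ℝ} (h : Near k θ η a) (h' : η ≤ η') : Near k θ η' a :=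
  let ⟨x, hx⟩ := h; ⟨x, hx.trans h'⟩

/-- the number of `a ≤ A` with `(a!)^(1/k)` within `(a!)^(-δ/k)` of `θ + ℤ` -/
theorem global_bound {k A : ℕ} {θ δ y : ℝ} (hδ : 0 < δ) (hδ1 : δ ≤ 1) (hy : 800 ≤ δ * y)
    (hyA : y ^ 40000 ≤ (A : ℝ) ^ δ) (hk : 2 ≤ k) (hky : (k : ℝ) ≤ y) (T : Finset ℕ)
    (hT : ∀ a ∈ T, 1 ≤ a ∧ a ≤ A ∧ Near k θ ((a.factorial : ℝ) ^ (-(δ / k))) a) :
    (T.card : ℝ) * y ≤ A * (Nat.log 2 A + 1) := by
  classical
  have hy0 : 0 < y := by by_contra h; nlinarith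
  have hy1 : 1 ≤ y := by nlinarith
  have hmaps : Set.MapsTo (Nat.log 2) (T : Set ℕ) (range (Nat.log 2 A + 1) : Finset ℕ) := by
    intro a ha
    simp only [coe_range, Set.mem_Iio]
    exact Nat.lt_succ_of_le (Nat.log_mono_right (hT a ha).2.1)
  rw [card_eq_sum_card_fiberwise hmaps]
  push_cast
  rw [Finset.sum_mul]
  refine (Finset.sum_le_card_nsmul _ _ (A : ℝ) fun j _ => ?_).trans (by simp [mul_comm])
  rcases (T.filter fun a => Nat.log 2 a = j).eq_empty_or_nonempty with h | ⟨a0, ha0⟩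
  · simp [h]
  set N := 2 ^ j with hN
  have hmem : ∀ a ∈ T.filter fun a => Nat.log 2 a = j, a ∈ Ico N (2 * N) := by
    intro a ha
    obtain ⟨h1, h2⟩ := mem_filter.1 ha
    have h3 := (hT a h1).1
    refine mem_Ico.2 ⟨?_, ?_⟩
    · rw [hN, ← h2]; exact Nat.pow_log_le_self 2 (by omega)
    · rw [hN, ← h2, ← pow_succ']; exact Nat.lt_pow_succ_log_self (by norm_num) a
  have hNA : N ≤ A := (mem_Ico.1 (hmem a0 ha0)).1.trans (hT a0 (mem_filter.1 ha0).1).2.1
  have hNA' : (N : ℝ) ≤ A := by exact_mod_cast hNA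
  have hA1 : (1 : ℝ) ≤ A := by
    exact_mod_cast (hT a0 (mem_filter.1 ha0).1).1.trans (hT a0 (mem_filter.1 ha0).1).2.1
  by_cases hbig : A ≤ N ^ 2
  · have h1 : y ^ 20000 ≤ (N : ℝ) ^ δ := by
      have h2 : (A : ℝ) ^ δ ≤ ((N : ℝ) ^ δ) ^ 2 := by
        rw [← Real.rpow_natCast, ← Real.rpow_mul (by positivity), mul_comm,
          Real.rpow_mul (by positivity), Real.rpow_natCast]
        exact Real.rpow_le_rpow (by positivity) (by exact_mod_cast hbig) hδ.le
      have h3 : (y ^ 20000) ^ 2 ≤ ((N : ℝ) ^ δ) ^ 2 := by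
        rw [← pow_mul]; exact hyA.trans h2
      exact (pow_le_pow_iff_left₀ (by positivity) (by positivity) (by norm_num)).1 h3
    refine le_trans ?_ ((block_real (θ := θ) hδ hδ1 hy h1 hk hky le_rfl).trans hNA')
    refine mul_le_mul_of_nonneg_right ?_ hy0.le
    refine Nat.cast_le.2 (card_le_card fun a ha => mem_filter.2 ⟨hmem a ha, ?_⟩)
    refine (hT a (mem_filter.1 ha).1).2.2.mono ?_
    refine Real.rpow_le_rpow_of_nonpos (by exact_mod_cast Nat.factorial_pos N) ?_ ?_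
    · exact_mod_cast Nat.factorial_le (mem_Ico.1 (hmem a ha)).1
    · exact neg_nonpos.2 (by positivity)
  · have h1 : ((T.filter fun a => Nat.log 2 a = j).card : ℝ) ≤ N := by
      have := card_le_card (fun a ha => hmem a ha)
      rw [Nat.card_Ico] at this
      exact_mod_cast this.trans (by omega)
    have h2 : (N : ℝ) ^ 2 ≤ A := by exact_mod_cast (not_le.1 hbig).le
    have h3 : y ^ 2 ≤ A := by
      calc y ^ 2 ≤ y ^ 40000 := pow_le_pow_right₀ hy1 (by norm_num)
        _ ≤ (A : ℝ) ^ δ := hyA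
        _ ≤ (A : ℝ) ^ (1 : ℝ) := Real.rpow_le_rpow_of_exponent_le hA1 hδ1
        _ = A := Real.rpow_one _
    have h4 : (N : ℝ) * y ≤ A := by nlinarith [sq_nonneg ((N : ℝ) - y)]
    exact (mul_le_mul_of_nonneg_right h1 hy0.le).trans h4

end Pool.Agent.MP_7a723b_nt
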