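import Mathlib

-- part MP_7a723b_nt.PadicA
section

namespace Pool.Agent.H79Fact

/-! Integral branches with majorants, and evaluation at nilpotent elements. -/

section


open PowerSeries Finset

/-- All truncated weighted sums of absolute values of coefficients are at most `c`. -/
def Maj (q : ℝ) (f : ℤ⟦X⟧) (c : ℝ) : Prop :=
  ∀ m : ℕ, ∑ j ∈ range m, |((coeff j f : ℤ) : ℝ)| * q ^ j ≤ c

lemma Maj.nonneg {q c : ℝ} {f : ℤ⟦X⟧} (h : Maj q f c) : 0 ≤ c := by simpa using h 0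

lemma Maj.mono {q c d : ℝ} {f : ℤ⟦X⟧} (h : Maj q f c) (hcd : c ≤ d) : Maj q f d :=
  fun m => (h m).trans hcd

lemma Maj.add {q c d : ℝ} (hq : 0 ≤ q) {f g : ℤ⟦X⟧} (hf : Maj q f c) (hg : Maj q g d) :
    Maj q (f + g) (c + d) := by
  intro m
  refine le_trans ?_ (add_le_add (hf m) (hg m))
  rw [← sum_add_distrib]
  refine sum_le_sum fun j _ => ?_
  rw [← add_mul, map_add, Int.cast_add]
  exact mul_le_mul_of_nonneg_right (abs_add_le _ _) (pow_nonneg hq _)

lemma Maj.neg {q c : ℝ} {f : ℤ⟦X⟧} (hf : Maj q f c) : Maj q (-f) c := by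
  intro m
  simpa using hf m

lemma Maj.sub {q c d : ℝ} (hq : 0 ≤ q) {f g : ℤ⟦X⟧} (hf : Maj q f c) (hg : Maj q g d) :
    Maj q (f - g) (c + d) := by
  rw [sub_eq_add_neg]; exact hf.add hq hg.neg

lemma maj_C (q : ℝ) (a : ℤ) : Maj q (C a) |(a : ℝ)| := by
  intro m
  rcases m with _ | m
  · simp
  · rw [sum_range_succ']
    simp only [coeff_C]
    simp

lemma maj_X {q : ℝ} (hq : 0 ≤ q) : Maj q X q := by
  intro m
  rcases m with _ | _ | m
  · simpa using hq
  · simpa using hq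
  · rw [sum_range_succ', sum_range_succ']
    simp [coeff_X]

lemma Maj.mul {q c d : ℝ} (hq : 0 ≤ q) {f g : ℤ⟦X⟧} (hf : Maj q f c) (hg : Maj q g d) :
    Maj q (f * g) (c * d) := by
  classical
  intro m
  set F : ℕ → ℝ := fun j => |((coeff j f : ℤ) : ℝ)| * q ^ j with hF
  set G : ℕ → ℝ := fun j => |((coeff j g : ℤ) : ℝ)| * q ^ j with hG
  have hF0 : ∀ j, 0 ≤ F j := fun j => mul_nonneg (abs_nonneg _) (pow_nonneg hq _)
  have hG0 : ∀ j, 0 ≤ G j := fun j => mul_nonneg (abs_nonneg _) (pow_nonneg hq _)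
  calc ∑ j ∈ range m, |((coeff j (f * g) : ℤ) : ℝ)| * q ^ j
      ≤ ∑ j ∈ range m, ∑ x ∈ HasAntidiagonal.antidiagonal j, F x.1 * G x.2 := by
        refine sum_le_sum fun j _ => ?_
        rw [coeff_mul, Int.cast_sum]
        refine le_trans (mul_le_mul_of_nonneg_right (abs_sum_le_sum_abs _ _) (pow_nonneg hq _)) ?_
        rw [sum_mul]
        refine sum_le_sum fun x hx => le_of_eq ?_
        rw [HasAntidiagonal.mem_antidiagonal] at hx
        rw [← hx, Int.cast_mul, abs_mul, pow_add]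
        simp only [hF, hG]; ring
    _ = ∑ x ∈ (range m).biUnion HasAntidiagonal.antidiagonal, F x.1 * G x.2 := by
        rw [sum_biUnion]
        intro a _ b _ hab
        rw [Function.onFun, disjoint_left]
        intro x hx hx'
        rw [HasAntidiagonal.mem_antidiagonal] at hx hx'
        exact hab (hx.symm.trans hx')
    _ ≤ ∑ x ∈ range m ×ˢ range m, F x.1 * G x.2 := by
        refine sum_le_sum_of_subset_of_nonneg ?_ fun x _ _ => mul_nonneg (hF0 _) (hG0 _)
        intro x hx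
        simp only [mem_biUnion, mem_range, HasAntidiagonal.mem_antidiagonal, mem_product] at hx ⊢
        obtain ⟨a, ha, hx⟩ := hx
        omega
    _ = (∑ j ∈ range m, F j) * ∑ j ∈ range m, G j := by
        rw [sum_product, sum_mul_sum]
    _ ≤ c * d := mul_le_mul (hf m) (hg m) (sum_nonneg fun j _ => hG0 j) hf.nonneg

lemma Maj.coeff_le {q c : ℝ} (hq : 0 ≤ q) {f : ℤ⟦X⟧} (hf : Maj q f c) (j : ℕ) :
    |((coeff j f : ℤ) : ℝ)| * q ^ j ≤ c := by
  refine le_trans ?_ (hf (j + 1))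
  exact single_le_sum (f := fun j => |((coeff j f : ℤ) : ℝ)| * q ^ j)
    (fun j _ => mul_nonneg (abs_nonneg _) (pow_nonneg hq _)) (self_mem_range_succ j)

lemma maj_prod {ι : Type} {q c : ℝ} (hq : 0 ≤ q) (f : ι → ℤ⟦X⟧) (S : Finset ι)
    (h : ∀ i ∈ S, Maj q (f i) c) : Maj q (∏ i ∈ S, f i) (c ^ S.card) := by
  classical
  induction S using Finset.induction_on with
  | empty => simpa using maj_C q 1
  | insert i S hi ih =>
    rw [prod_insert hi, card_insert_of_notMem hi, pow_succ']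
    exact (h i (mem_insert_self _ _)).mul hq (ih fun j hj => h j (mem_insert_of_mem hj))

lemma maj_sum {ι : Type} {q c : ℝ} (hq : 0 ≤ q) (f : ι → ℤ⟦X⟧) (S : Finset ι)
    (h : ∀ i ∈ S, Maj q (f i) c) : Maj q (∑ i ∈ S, f i) (S.card * c) := by
  classical
  induction S using Finset.induction_on with
  | empty => simpa using maj_C q 0
  | insert i S hi ih =>
    rw [sum_insert hi, card_insert_of_notMem hi]
    push_cast
    rw [add_mul, one_mul, add_comm]
    exact (ih fun j hj => h j (mem_insert_of_mem hj)).add hq (h i (mem_insert_self _ _))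

lemma maj_prod_sub_one {q D ε : ℝ} (hq : 0 ≤ q) (L : Finset ℕ) (d : ℕ → ℤ)
    (hd : ∀ l ∈ L, |(d l : ℝ)| ≤ D) (z : ℤ⟦X⟧) (hz : Maj q z ε) :
    Maj q (∏ l ∈ L, (1 + C (d l) * z) - 1) ((1 + D * ε) ^ L.card - 1) := by
  classical
  induction L using Finset.induction_on with
  | empty => simpa using maj_C q 0
  | insert l L hl ih =>
    have ih' := ih fun j hj => hd j (mem_insert_of_mem hj)
    have h1 : Maj q (C (d l) * z) (D * ε) :=
      ((maj_C q (d l)).mul hq hz).mono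
        (mul_le_mul_of_nonneg_right (hd l (mem_insert_self _ _)) hz.nonneg)
    have h2 : Maj q (1 + C (d l) * z) (1 + D * ε) := by
      have := (maj_C q 1).add hq h1
      simpa using this
    have h3 := (h2.mul hq ih').add hq h1
    rw [prod_insert hl, card_insert_of_notMem hl]
    convert h3 using 1
    · ring
    · ring

lemma sub_dvd_prod_sub {R ι : Type} [CommRing R] (L : Finset ι) (u v : ι → R) (a b : R) :
    a - b ∣ ∏ l ∈ L, (u l + v l * a) - ∏ l ∈ L, (u l + v l * b) := by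
  classical
  induction L using Finset.induction_on with
  | empty => simp
  | insert l L hl ih =>
    obtain ⟨c, hc⟩ := ih
    rw [prod_insert hl, prod_insert hl]
    refine ⟨(u l + v l * a) * c + v l * ∏ l ∈ L, (u l + v l * b), ?_⟩
    linear_combination (u l + v l * a) * hc

lemma exists_branch {q D ε : ℝ} (hq : 0 ≤ q) (L : Finset ℕ) (d : ℕ → ℤ) (M : ℤ)
    (hd : ∀ l ∈ L, |(d l : ℝ)| ≤ D) (h1 : (1 + D * ε) ^ L.card ≤ 3 / 2)
    (h2 : |(M : ℝ)| * q ≤ ε / 2) :
    ∃ Z : ℤ⟦X⟧, X ∣ Z ∧ Z * ∏ l ∈ L, (1 + C (d l) * Z) = C M * X ∧ Maj q Z ε := by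
  have hε : 0 ≤ ε := by
    have := mul_nonneg (abs_nonneg (M : ℝ)) hq
    linarith
  set Pi : ℤ⟦X⟧ → ℤ⟦X⟧ := fun z => ∏ l ∈ L, (1 + C (d l) * z) with hPi
  set Ψ : ℤ⟦X⟧ → ℤ⟦X⟧ := fun z => C M * X - z * (Pi z - 1) with hΨ
  have hPi1 : ∀ z, z ∣ Pi z - 1 := by
    intro z
    have := sub_dvd_prod_sub L (fun _ => (1 : ℤ⟦X⟧)) (fun l => C (d l)) z 0
    simpa only [hPi, sub_zero, mul_zero, add_zero, prod_const_one] using this
  have hX : ∀ z, X ∣ z → X ∣ Ψ z := fun z hz =>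
    dvd_sub (Dvd.intro_left _ rfl) (hz.mul_right _)
  have hcontr : ∀ z z' n, X ∣ z → X ∣ z' → X ^ n ∣ z - z' → X ^ (n + 1) ∣ Ψ z - Ψ z' := by
    intro z z' n hz hz' hn
    obtain ⟨w, hw⟩ := sub_dvd_prod_sub L (fun _ => (1 : ℤ⟦X⟧)) (fun l => C (d l)) z z'
    have e : Ψ z - Ψ z' = (z - z') * (-(Pi z - 1) - z' * w) := by
      simp only [hΨ, hPi]
      linear_combination (-z') * hw
    rw [e, pow_succ]
    exact mul_dvd_mul hn (dvd_sub (hz.trans (hPi1 z)).neg_right (hz'.mul_right _))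
  have hmaj : ∀ z, Maj q z ε → Maj q (Ψ z) ε := by
    intro z hz
    have a1 := (maj_C q M).mul hq (maj_X hq)
    have a2 := hz.mul hq (maj_prod_sub_one hq L d hd z hz)
    refine (a1.sub hq a2).mono ?_
    nlinarith
  set it : ℕ → ℤ⟦X⟧ := fun n => Ψ^[n] 0 with hit
  have hit1 : ∀ n, it (n + 1) = Ψ (it n) := fun n => Function.iterate_succ_apply' Ψ n 0
  have hitX : ∀ n, X ∣ it n := by
    intro n
    induction n with
    | zero => simp [hit]
    | succ n ih => rw [hit1]; exact hX _ ih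
  have hitM : ∀ n, Maj q (it n) ε := by
    intro n
    induction n with
    | zero => simpa [hit] using (maj_C q 0).mono (by simpa using hε)
    | succ n ih => rw [hit1]; exact hmaj _ ih
  have hstep : ∀ n, X ^ n ∣ it (n + 1) - it n := by
    intro n
    induction n with
    | zero => simp
    | succ n ih => rw [hit1 (n + 1), hit1 n]; exact hcontr _ _ n (hit1 n ▸ hitX (n + 1)) (hitX n) (hit1 n ▸ ih)
  have hstep2 : ∀ n m, X ^ n ∣ it (n + m) - it n := by
    intro n m
    induction m with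
    | zero => simp
    | succ m ih =>
      have := dvd_add ((pow_dvd_pow X (Nat.le_add_right n m)).trans (hstep (n + m))) ih
      simpa [add_assoc] using this
  set Z : ℤ⟦X⟧ := mk fun j => coeff j (it (j + 1)) with hZ
  have hZit : ∀ n, X ^ n ∣ Z - it n := by
    intro n
    rw [X_pow_dvd_iff]
    intro j hj
    obtain ⟨m, rfl⟩ := Nat.exists_eq_add_of_le (Nat.succ_le_of_lt hj)
    have := X_pow_dvd_iff.1 (hstep2 (j + 1) m) j (Nat.lt_succ_self j)
    rw [map_sub] at this ⊢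
    rw [hZ, coeff_mk]
    simp only [Nat.succ_eq_add_one]
    linarith
  have hZX : X ∣ Z := by
    have := dvd_add (by simpa using hZit 1 : X ∣ Z - it 1) (hitX 1)
    simpa using this
  have hfix : Z = Ψ Z := by
    ext j
    have a1 := hZit (j + 1 + 1)
    have a2 := hcontr Z (it (j + 1)) (j + 1) hZX (hitX _) (hZit _)
    rw [← hit1] at a2
    have := X_pow_dvd_iff.1 (dvd_sub a1 a2) j (by omega)
    simp only [map_sub] at this
    linarith
  refine ⟨Z, hZX, ?_, ?_⟩
  · simp only [hΨ, hPi] at hfix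
    linear_combination hfix
  · intro m
    refine le_trans (le_of_eq ?_) (hitM m m)
    refine sum_congr rfl fun j hj => ?_
    have := X_pow_dvd_iff.1 (hZit m) j (mem_range.1 hj)
    rw [map_sub, sub_eq_zero] at this
    rw [this]

lemma exists_eval_hom {R : Type} [CommRing R] (a : R) (m : ℕ) (ha : a ^ (m + 1) = 0) :
    ∃ ψ : ℤ⟦X⟧ →+* R, ψ X = a := by
  set ev : Polynomial ℤ →+* R := Polynomial.eval₂RingHom (Int.castRingHom R) a with hev
  have key : ∀ u v : Polynomial ℤ, (∀ j < m + 2, u.coeff j = v.coeff j) → ev u = ev v := by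
    intro u v h
    have : Polynomial.X ^ (m + 2) ∣ u - v :=
      Polynomial.X_pow_dvd_iff.2 fun j hj => by rw [Polynomial.coeff_sub, h j hj, sub_self]
    obtain ⟨c, hc⟩ := this
    have h2 : ev (u - v) = 0 := by
      rw [hc, map_mul, map_pow, hev]
      simp [pow_succ _ (m + 1), ha]
    rwa [map_sub, sub_eq_zero] at h2
  refine ⟨{ toFun := fun f => ev (trunc (m + 2) f)
            map_one' := by simp
            map_mul' := fun f g => ?_
            map_zero' := by simp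
            map_add' := fun f g => by simp }, ?_⟩
  · rw [← map_mul]
    apply key
    intro j hj
    rw [coeff_trunc, if_pos hj, coeff_mul_eq_coeff_trunc_mul_trunc f g hj, ← Polynomial.coe_mul,
      Polynomial.coeff_coe]
  · simp [hev]

lemma hensel_unique {R : Type} [CommRing R] (L : Finset ℕ) (u : ℕ → R)
    (hu : ∀ l ∈ L, IsUnit (u l)) (y y' : R) (hy : IsNilpotent y) (hy' : IsNilpotent y')
    (h : y * ∏ l ∈ L, (u l + y) = y' * ∏ l ∈ L, (u l + y')) : y = y' := by
  obtain ⟨w, hw⟩ := sub_dvd_prod_sub L u (fun _ => 1) y y'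
  simp only [one_mul] at hw
  have h1 : IsUnit (∏ l ∈ L, (u l + y)) :=
    IsUnit.prod_iff.2 fun l hl => hy.isUnit_add_left_of_commute (hu l hl) (Commute.all _ _)
  have h2 : IsUnit (∏ l ∈ L, (u l + y) + y' * w) :=
    ((Commute.all _ _).isNilpotent_mul_right hy').isUnit_add_left_of_commute h1 (Commute.all _ _)
  have h3 : (y - y') * (∏ l ∈ L, (u l + y) + y' * w) = 0 := by
    linear_combination h - y' * hw
  exact sub_eq_zero.1 (h2.mul_left_eq_zero.1 h3)

end

/-! Independence of rescaled branches, by reduction modulo a prime. -/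

section


open Finset

lemma comp_indep {K : Type} [Field K] {k : ℕ} (Q : Polynomial K) (hQ : Q.natDegree = k)
    (b : Fin k → Polynomial K) (h : ∑ e : Fin k, (b e).comp Q * Polynomial.X ^ (e : ℕ) = 0) :
    ∀ e, b e = 0 := by
  intro e0
  have hk : 0 < k := Nat.lt_of_le_of_lt (Nat.zero_le _) e0.2
  set f : Fin k → Polynomial K := fun e => (b e).comp Q * Polynomial.X ^ (e : ℕ) with hf
  have hdeg : ∀ e, f e ≠ 0 → (f e).natDegree = (b e).natDegree * k + e := by
    intro e he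
    rw [hf]
    simp only
    rw [Polynomial.natDegree_mul_X_pow _ (left_ne_zero_of_mul he), Polynomial.natDegree_comp, hQ]
  have h1 := Polynomial.degree_sum_eq_of_disjoint f univ (by
    intro a ha c hc hac heq
    have := Polynomial.natDegree_eq_of_degree_eq heq
    rw [hdeg a ha.2, hdeg c hc.2] at this
    have h2 := congrArg (· % k) this
    simp only [Nat.mul_add_mod_self_right, Nat.mod_eq_of_lt a.2, Nat.mod_eq_of_lt c.2] at h2
    exact hac (Fin.ext h2))
  rw [h, Polynomial.degree_zero] at h1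
  have h2 : (f e0).degree ≤ ⊥ := h1 ▸ le_sup (f := fun i => (f i).degree) (mem_univ e0)
  have h3 : f e0 = 0 := Polynomial.degree_eq_bot.1 (le_bot_iff.1 h2)
  have h4 := (mul_eq_zero.1 h3).resolve_right (pow_ne_zero _ Polynomial.X_ne_zero)
  rcases Polynomial.comp_eq_zero_iff.1 h4 with h5 | ⟨-, h5⟩
  · exact h5
  · rw [h5, Polynomial.natDegree_C] at hQ; omega

open PowerSeries

lemma field_step {K : Type} [Field K] {k : ℕ} (y : K⟦X⟧) (c : K) (hc : c ≠ 0)
    (hy : ∏ l ∈ range k, (y + C (l : K)) = C c * X) (b : Fin k → Polynomial K)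
    (h : ∑ e : Fin k, (b e : K⟦X⟧) * y ^ (e : ℕ) = 0) : ∀ e, b e = 0 := by
  set P : Polynomial K := ∏ l ∈ range k, (Polynomial.X + Polynomial.C (l : K)) with hP
  have hdeg : P.natDegree = k := by
    rw [hP, Polynomial.natDegree_prod_of_monic _ _ fun l _ => Polynomial.monic_X_add_C _]
    simp only [Polynomial.natDegree_X_add_C, sum_const, card_range, smul_eq_mul, mul_one]
  set Q := Polynomial.C c⁻¹ * P with hQ
  have hQd : Q.natDegree = k := by rw [hQ, Polynomial.natDegree_C_mul (inv_ne_zero hc), hdeg]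
  have hal : algebraMap K K⟦X⟧ = PowerSeries.C := rfl
  have hQy : Polynomial.aeval y Q = X := by
    rw [hQ, map_mul, Polynomial.aeval_C, hP, map_prod]
    simp only [map_add, Polynomial.aeval_X, Polynomial.aeval_C, hal]
    rw [hy, ← mul_assoc, ← map_mul, inv_mul_cancel₀ hc, map_one, one_mul]
  have hcoe : ∀ g : Polynomial K, Polynomial.aeval (X : K⟦X⟧) g = g := fun g => by
    rw [Polynomial.aeval_def, hal, Polynomial.eval₂_C_X_eq_coe]
  have ht : Transcendental K y := by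
    intro hya
    have h4 : IsIntegral K (Polynomial.aeval y Q) :=
      IsIntegral.of_mem_of_fg _ hya.isIntegral.fg_adjoin_singleton _
        (Polynomial.aeval_mem_adjoin_singleton K _)
    rw [hQy] at h4
    obtain ⟨g, hg0, hg⟩ := h4.isAlgebraic
    rw [hcoe] at hg
    exact hg0 (Polynomial.coe_eq_zero_iff.1 hg)
  apply comp_indep Q hQd
  apply transcendental_iff.1 ht
  rw [map_sum, ← h]
  refine sum_congr rfl fun e _ => ?_
  rw [map_mul, map_pow, Polynomial.aeval_X, Polynomial.aeval_comp, hQy, hcoe]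

lemma int_step {p k : ℕ} (hp : p.Prime) (y : ℤ⟦X⟧) (c : ℤ) (hc : ¬ (p : ℤ) ∣ c)
    (hy : ∏ l ∈ range k, (y + C (l : ℤ)) = C c * X) (B : Fin k → ℤ⟦X⟧)
    (hB : ∀ e j, (p : ℤ) ^ j ∣ coeff j (B e))
    (h : ∑ e : Fin k, B e * y ^ (e : ℕ) = 0) : ∀ e, B e = 0 := by
  have := Fact.mk hp
  have hp0 : (p : ℤ) ≠ 0 := by exact_mod_cast hp.ne_zero
  set f : ℤ⟦X⟧ →+* (ZMod p)⟦X⟧ := PowerSeries.map (Int.castRingHom (ZMod p)) with hf
  have hfy : ∏ l ∈ range k, (f y + C (l : ZMod p)) = C (c : ZMod p) * X := by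
    have := congrArg f hy
    rw [map_prod, map_mul] at this
    simpa [hf] using this
  have key : ∀ m : ℕ, ∀ e j, (p : ℤ) ^ m ∣ coeff j (B e) := by
    intro m
    induction m with
    | zero => simp
    | succ m ih =>
      choose d hd using ih
      have hBd : ∀ e, B e = C ((p : ℤ) ^ m) * mk (d e) := by
        intro e; ext j; rw [coeff_C_mul, coeff_mk, hd]
      have h1 : ∑ e : Fin k, mk (d e) * y ^ (e : ℕ) = 0 := by
        have h2 : C ((p : ℤ) ^ m) * ∑ e : Fin k, mk (d e) * y ^ (e : ℕ) = 0 := by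
          rw [mul_sum, ← h]
          exact sum_congr rfl fun e _ => by rw [hBd e, mul_assoc]
        refine (mul_eq_zero.1 h2).resolve_left fun h3 => pow_ne_zero m hp0 ?_
        simpa using congrArg (coeff 0) h3
      have h2 : ∀ e, f (mk (d e)) = (trunc (m + 1) (f (mk (d e))) : (ZMod p)⟦X⟧) := by
        intro e
        ext j
        rw [Polynomial.coeff_coe, coeff_trunc]
        split_ifs with hj
        · rfl
        · rw [hf, coeff_map, coeff_mk, eq_intCast, ZMod.intCast_zmod_eq_zero_iff_dvd]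
          have h3 : (p : ℤ) ^ m * p ∣ (p : ℤ) ^ m * d e j := by
            rw [← hd, ← pow_succ]
            exact (pow_dvd_pow _ (by omega)).trans (hB e j)
          exact (mul_dvd_mul_iff_left (pow_ne_zero m hp0)).1 h3
      have h3 := field_step (f y) (c : ZMod p)
        (by rwa [Ne, ZMod.intCast_zmod_eq_zero_iff_dvd]) hfy
        (fun e => trunc (m + 1) (f (mk (d e)))) (by
          have := congrArg f h1
          rw [map_sum, map_zero] at this
          rw [← this]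
          exact sum_congr rfl fun e _ => by rw [map_mul, map_pow, ← h2 e])
      intro e j
      have h4 := congrArg (coeff j) (h2 e)
      rw [h3 e, hf, coeff_map, coeff_mk, eq_intCast, Polynomial.coe_zero, map_zero,
        ZMod.intCast_zmod_eq_zero_iff_dvd] at h4
      rw [hd, pow_succ]
      exact mul_dvd_mul_left _ h4
  intro e
  ext j
  by_contra hne
  have h1 := Int.le_of_dvd (abs_pos.2 hne) ((dvd_abs _ _).2 (key (coeff j (B e)).natAbs e j))
  have h2 : (coeff j (B e)).natAbs < p ^ (coeff j (B e)).natAbs := Nat.lt_pow_self hp.one_lt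
  rw [map_zero] at hne
  rw [Int.abs_eq_natAbs] at h1
  have : p ^ (coeff j (B e)).natAbs ≤ (coeff j (B e)).natAbs := by exact_mod_cast h1
  omega

lemma rescale_C' (a b : ℤ) : rescale a (C b : ℤ⟦X⟧) = C b := by
  ext j
  rw [coeff_rescale, coeff_C]
  split_ifs with h
  · simp [h]
  · simp

lemma full_indep {p k : ℕ} (hp : p.Prime) (c : ℤ) (hc : ¬ (p : ℤ) ∣ c) :
    ∀ (r : ℕ) (y : Fin r → ℤ⟦X⟧) (N : Fin r → ℤ),
      (∀ i, ∏ l ∈ range k, (y i + C (l : ℤ)) = C c * X) → (∀ i, N i ≠ 0) →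
      (∀ i j, i < j → p * N i ∣ N j) → ∀ a : (Fin r → Fin k) → ℤ,
      ∑ e : Fin r → Fin k, C (a e) * ∏ i, rescale (N i) (y i) ^ (e i : ℕ) = 0 → a = 0 := by
  intro r
  induction r with
  | zero =>
    intro y N _ _ _ a h
    funext e
    rw [Fintype.sum_unique] at h
    simp only [univ_eq_empty, prod_empty, mul_one] at h
    rw [Subsingleton.elim e default]
    simpa using congrArg (coeff 0) h
  | succ r ih =>
    intro y N hy hN0 hN a h
    choose M hM using fun i : Fin r => hN 0 i.succ (Fin.succ_pos i)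
    set B : Fin k → ℤ⟦X⟧ := fun b => ∑ e : Fin r → Fin k,
      C (a (Fin.cons b e)) * ∏ i, rescale (p * M i) (y i.succ) ^ (e i : ℕ) with hB
    have h1 : rescale (N 0) (∑ b : Fin k, B b * y 0 ^ (b : ℕ)) = 0 := by
      rw [← h, ← (Fin.consEquiv fun _ : Fin (r + 1) => Fin k).sum_comp, Fintype.sum_prod_type,
        map_sum]
      refine sum_congr rfl fun b _ => ?_
      rw [hB, map_mul, map_pow, map_sum, sum_mul]
      refine sum_congr rfl fun e _ => ?_
      rw [map_mul, map_prod, rescale_C', Fin.prod_univ_succ]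
      simp only [Fin.consEquiv, Equiv.coe_fn_mk, Fin.cons_zero, Fin.cons_succ, map_pow,
        rescale_rescale]
      have : ∀ i : Fin r, (p : ℤ) * M i * N 0 = N i.succ := fun i => by rw [hM]; ring
      simp only [this]
      ring
    have h2 : ∑ b : Fin k, B b * y 0 ^ (b : ℕ) = 0 := by
      ext j
      have := congrArg (coeff j) h1
      rw [coeff_rescale, map_zero] at this
      rw [map_zero]
      exact (mul_eq_zero.1 this).resolve_left (pow_ne_zero _ (hN0 0))
    have h3 := int_step hp (y 0) c hc (hy 0) B (fun b j => by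
      have : B b = rescale (p : ℤ) (∑ e : Fin r → Fin k,
          C (a (Fin.cons b e)) * ∏ i, rescale (M i) (y i.succ) ^ (e i : ℕ)) := by
        rw [hB, map_sum]
        refine sum_congr rfl fun e _ => ?_
        rw [map_mul, map_prod, rescale_C']
        simp only [map_pow, rescale_rescale, mul_comm (p : ℤ)]
      rw [this, coeff_rescale]
      exact Dvd.intro _ rfl) h2
    funext e
    have h4 := ih (fun i => y i.succ) (fun i => p * M i) (fun i => hy _) (fun i h0 => by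
        apply hN0 i.succ
        rw [hM]
        linear_combination N 0 * h0) (fun i j hij => by
        have := hN i.succ j.succ (Fin.succ_lt_succ_iff.2 hij)
        rw [hM i, hM j] at this
        refine (mul_dvd_mul_iff_left (hN0 0)).1 ?_
        have e1 : N 0 * (p * (p * M i)) = p * (p * N 0 * M i) := by ring
        have e2 : N 0 * (p * M j) = p * N 0 * M j := by ring
        rw [e1, e2]
        exact this) (fun e' => a (Fin.cons (e 0) e')) (h3 (e 0))
    have := congrFun h4 (Fin.tail e)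
    simpa using this

end

/-! A zero estimate by counting dimensions. -/

section


open PowerSeries Module

variable {r k : ℕ}

/-- The span of the reduced monomials times a fixed power of the variable. -/
noncomputable def lay (Y : Fin r → ℂ⟦X⟧) (k a : ℕ) : Submodule ℂ ℂ⟦X⟧ :=
  Submodule.span ℂ (Set.range fun e : Fin r → Fin k => X ^ a * ∏ i, Y i ^ (e i : ℕ))

/-- The sum of the first layers. -/
noncomputable def fil (Y : Fin r → ℂ⟦X⟧) (k : ℕ) : ℕ → Submodule ℂ ℂ⟦X⟧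
  | 0 => lay Y k 0
  | E + 1 => fil Y k E ⊔ lay Y k (E + 1)

lemma lay_fin (Y : Fin r → ℂ⟦X⟧) (k a : ℕ) : FiniteDimensional ℂ (lay Y k a) :=
  FiniteDimensional.span_of_finite ℂ (Set.finite_range _)

lemma lay_rank (Y : Fin r → ℂ⟦X⟧) (k a : ℕ) : finrank ℂ (lay Y k a) ≤ k ^ r := by
  have := finrank_range_le_card (R := ℂ)
    (fun e : Fin r → Fin k => (X : ℂ⟦X⟧) ^ a * ∏ i, Y i ^ (e i : ℕ))
  rw [Fintype.card_fun, Fintype.card_fin, Fintype.card_fin] at this
  exact this

lemma fil_fin (Y : Fin r → ℂ⟦X⟧) (k : ℕ) : ∀ E, FiniteDimensional ℂ (fil Y k E)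
  | 0 => lay_fin Y k 0
  | E + 1 => by
    have := fil_fin Y k E
    have := lay_fin Y k (E + 1)
    exact Submodule.finiteDimensional_sup _ _

lemma fil_rank (Y : Fin r → ℂ⟦X⟧) (k E : ℕ) :
    ∀ m, finrank ℂ (fil Y k (E + m)) ≤ finrank ℂ (fil Y k E) + m * k ^ r
  | 0 => by simp
  | m + 1 => by
    have := fil_fin Y k (E + m)
    have := lay_fin Y k (E + m + 1)
    have h1 := Submodule.finrank_add_le_finrank_add_finrank (fil Y k (E + m)) (lay Y k (E + m + 1))
    have h2 := fil_rank Y k E m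
    have h3 := lay_rank Y k (E + m + 1)
    have h4 : fil Y k (E + (m + 1)) = fil Y k (E + m) ⊔ lay Y k (E + m + 1) := rfl
    rw [h4]
    nlinarith

lemma fil_mono (Y : Fin r → ℂ⟦X⟧) (k : ℕ) : Monotone (fil Y k) :=
  monotone_nat_of_le_succ fun _ => le_sup_left

lemma lay_le_fil (Y : Fin r → ℂ⟦X⟧) (k : ℕ) {a E : ℕ} (h : a ≤ E) : lay Y k a ≤ fil Y k E := by
  refine le_trans ?_ (fil_mono Y k h)
  cases a with
  | zero => exact le_rfl
  | succ a => exact le_sup_right

lemma mul_lay (P : Polynomial ℂ) (hm : P.Monic) (hk : P.natDegree = k) (hk0 : 0 < k)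
    (Y : Fin r → ℂ⟦X⟧) (lam : Fin r → ℂ)
    (hY : ∀ i, Polynomial.aeval (Y i) P = algebraMap ℂ ℂ⟦X⟧ (lam i) * X) (i : Fin r) (a : ℕ) :
    (lay Y k a).map (LinearMap.mulLeft ℂ (Y i)) ≤ fil Y k (a + 1) := by
  classical
  rw [lay, Submodule.map_span_le]
  rintro _ ⟨e, rfl⟩
  simp only [LinearMap.mulLeft_apply]
  set R : ℂ⟦X⟧ := ∏ j ∈ Finset.univ.erase i, Y j ^ (e j : ℕ) with hR
  have hgen : ∀ (b l : ℕ), l < k → X ^ b * (Y i ^ l * R) ∈ lay Y k b := by
    intro b l hl
    refine Submodule.subset_span ⟨Function.update e i ⟨l, hl⟩, ?_⟩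
    simp only
    congr 1
    rw [← Finset.mul_prod_erase Finset.univ _ (Finset.mem_univ i), Function.update_self, hR]
    congr 1
    refine Finset.prod_congr rfl fun j hj => ?_
    rw [Function.update_of_ne (Finset.ne_of_mem_erase hj)]
  have hsplit : Y i * (X ^ a * ∏ j, Y j ^ (e j : ℕ)) = X ^ a * (Y i ^ ((e i : ℕ) + 1) * R) := by
    rw [← Finset.mul_prod_erase Finset.univ _ (Finset.mem_univ i), ← hR]; ring
  rw [hsplit]
  rcases Nat.lt_or_ge ((e i : ℕ) + 1) k with h | h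
  · exact lay_le_fil Y k (Nat.le_succ a) (hgen a _ h)
  · have hek : (e i : ℕ) + 1 = k := by have := (e i).2; omega
    have hP : Y i ^ k = algebraMap ℂ ℂ⟦X⟧ (lam i) * X
        - ∑ l ∈ Finset.range k, P.coeff l • Y i ^ l := by
      rw [← hY i, Polynomial.aeval_eq_sum_range, hk, Finset.sum_range_succ]
      have : P.coeff k = 1 := by rw [← hk]; exact hm.coeff_natDegree
      rw [this, one_smul]; ring
    rw [hek, hP]
    have : X ^ a * ((algebraMap ℂ ℂ⟦X⟧ (lam i) * X - ∑ l ∈ Finset.range k, P.coeff l • Y i ^ l) * R)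
        = lam i • (X ^ (a + 1) * (Y i ^ 0 * R))
          - ∑ l ∈ Finset.range k, P.coeff l • (X ^ a * (Y i ^ l * R)) := by
      rw [sub_mul, mul_sub, Finset.sum_mul, Finset.mul_sum, Algebra.smul_def]
      congr 1
      · ring
      · refine Finset.sum_congr rfl fun l _ => ?_
        simp only [Algebra.smul_def]; ring
    rw [this]
    refine sub_mem (Submodule.smul_mem _ _ (lay_le_fil Y k le_rfl (hgen _ _ hk0))) ?_
    refine Submodule.sum_mem _ fun l hl => Submodule.smul_mem _ _ ?_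
    exact lay_le_fil Y k (Nat.le_succ a) (hgen _ _ (Finset.mem_range.1 hl))

lemma mul_fil (P : Polynomial ℂ) (hm : P.Monic) (hk : P.natDegree = k) (hk0 : 0 < k)
    (Y : Fin r → ℂ⟦X⟧) (lam : Fin r → ℂ)
    (hY : ∀ i, Polynomial.aeval (Y i) P = algebraMap ℂ ℂ⟦X⟧ (lam i) * X) (i : Fin r) :
    ∀ E, (fil Y k E).map (LinearMap.mulLeft ℂ (Y i)) ≤ fil Y k (E + 1)
  | 0 => mul_lay P hm hk hk0 Y lam hY i 0
  | E + 1 => by
    have h4 : fil Y k (E + 1) = fil Y k E ⊔ lay Y k (E + 1) := rfl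
    conv_lhs => rw [h4, Submodule.map_sup]
    exact sup_le ((mul_fil P hm hk hk0 Y lam hY i E).trans (fil_mono Y k (by omega)))
      (mul_lay P hm hk hk0 Y lam hY i (E + 1))

lemma pow_mul_fil (P : Polynomial ℂ) (hm : P.Monic) (hk : P.natDegree = k) (hk0 : 0 < k)
    (Y : Fin r → ℂ⟦X⟧) (lam : Fin r → ℂ)
    (hY : ∀ i, Polynomial.aeval (Y i) P = algebraMap ℂ ℂ⟦X⟧ (lam i) * X) (E : ℕ)
    (f : ℂ⟦X⟧) (hf : f ∈ fil Y k E) (i : Fin r) (a : ℕ) : Y i ^ a * f ∈ fil Y k (E + a) := by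
  induction a with
  | zero => simpa using hf
  | succ a ih =>
    rw [pow_succ', mul_assoc]
    exact mul_fil P hm hk hk0 Y lam hY i _ ⟨_, ih, rfl⟩

lemma prod_mul_fil (P : Polynomial ℂ) (hm : P.Monic) (hk : P.natDegree = k) (hk0 : 0 < k)
    (Y : Fin r → ℂ⟦X⟧) (lam : Fin r → ℂ)
    (hY : ∀ i, Polynomial.aeval (Y i) P = algebraMap ℂ ℂ⟦X⟧ (lam i) * X) (E : ℕ)
    (f : ℂ⟦X⟧) (hf : f ∈ fil Y k E) (e : Fin r → Fin k) (S : Finset (Fin r)) :
    (∏ i ∈ S, Y i ^ (e i : ℕ)) * f ∈ fil Y k (E + S.card * k) := by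
  classical
  induction S using Finset.induction_on with
  | empty => simpa using hf
  | insert i S hi ih =>
    rw [Finset.prod_insert hi, Finset.card_insert_of_notMem hi, mul_assoc]
    refine fil_mono Y k ?_ (pow_mul_fil P hm hk hk0 Y lam hY _ _ ih i _)
    have := (e i).2
    rw [add_mul, one_mul]
    omega

lemma zero_estimate (P : Polynomial ℂ) (hm : P.Monic) (hk : P.natDegree = k) (hk0 : 0 < k)
    (Y : Fin r → ℂ⟦X⟧) (lam : Fin r → ℂ)
    (hY : ∀ i, Polynomial.aeval (Y i) P = algebraMap ℂ ℂ⟦X⟧ (lam i) * X)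
    (c : (Fin r → Fin k) → ℂ) (φ : ℂ⟦X⟧)
    (hφ : φ = ∑ e : Fin r → Fin k, algebraMap ℂ ℂ⟦X⟧ (c e) * ∏ i, Y i ^ (e i : ℕ)) (h0 : φ ≠ 0) :
    ∃ σ ≤ r * k * k ^ r, coeff σ φ ≠ 0 := by
  by_contra hcon
  push Not at hcon
  set σ := r * k * k ^ r + 1 with hσ
  have hdvd : X ^ σ ∣ φ := X_pow_dvd_iff.2 fun m hm => hcon m (by omega)
  have := fil_fin Y k σ
  have := fil_fin Y k (σ + r * k)
  have hmul : ∀ f ∈ fil Y k σ, φ * f ∈ fil Y k (σ + r * k) := by
    intro f hf
    rw [hφ, Finset.sum_mul]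
    refine Submodule.sum_mem _ fun S _ => ?_
    rw [mul_assoc, ← Algebra.smul_def]
    have := prod_mul_fil P hm hk hk0 Y lam hY σ f hf S Finset.univ
    rw [Finset.card_univ, Fintype.card_fin] at this
    exact Submodule.smul_mem _ _ this
  let τ : fil Y k (σ + r * k) →ₗ[ℂ] (Fin σ → ℂ) :=
    (LinearMap.pi fun a : Fin σ => coeff (a : ℕ)).comp (fil Y k (σ + r * k)).subtype
  have hτ : ∀ (f : fil Y k (σ + r * k)) (a : Fin σ), τ f a = coeff (a : ℕ) (f : ℂ⟦X⟧) :=
    fun f a => rfl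
  have hX : ∀ a : Fin σ, (X : ℂ⟦X⟧) ^ (a : ℕ) ∈ fil Y k (σ + r * k) := by
    intro a
    refine lay_le_fil Y k (a := a) (by have := a.2; omega) ?_
    exact Submodule.subset_span ⟨fun _ => ⟨0, hk0⟩, by simp⟩
  have hsurj : LinearMap.range τ = ⊤ := by
    rw [eq_top_iff]
    intro v _
    refine ⟨∑ a : Fin σ, v a • ⟨_, hX a⟩, ?_⟩
    ext b
    rw [hτ]
    simp only [Submodule.coe_sum, Submodule.coe_smul, map_sum, map_smul, coeff_X_pow, smul_eq_mul]
    rw [Finset.sum_eq_single b]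
    · simp
    · intro a _ hab
      have : (b : ℕ) ≠ a := fun h => hab (Fin.ext h).symm
      simp [this]
    · simp
  let μ : fil Y k σ →ₗ[ℂ] LinearMap.ker τ :=
    { toFun := fun f => ⟨⟨φ * f, hmul f f.2⟩, by
        rw [LinearMap.mem_ker]
        ext a
        rw [hτ]
        exact X_pow_dvd_iff.1 (hdvd.mul_right _) a a.2⟩
      map_add' := fun f g => by ext1; ext1; simp [mul_add]
      map_smul' := fun z f => by ext1; ext1; simp }
  have hμ : Function.Injective μ := by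
    intro f g hfg
    have : φ * f = φ * g := congrArg (fun x : LinearMap.ker τ => ((x : fil Y k (σ + r * k)) : ℂ⟦X⟧)) hfg
    exact Subtype.ext (mul_left_cancel₀ h0 this)
  have h1 := LinearMap.finrank_le_finrank_of_injective hμ
  have h2 := LinearMap.finrank_range_add_finrank_ker τ
  rw [hsurj, finrank_top, finrank_fin_fun] at h2
  have h3 := fil_rank Y k σ (r * k)
  omega

end

/-! Branches of `x (x+1) ... (x+k-1) = lam * s`, their order of vanishing and their
`p`-adic values. -/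

section


open PowerSeries Finset Nat

lemma sub_dvd_fact {k j l : ℕ} (hj : j < k) (hl : l ∈ (range k).erase j) :
    ((l : ℤ) - j) ∣ (k ! : ℕ) := by
  rw [mem_erase, mem_range] at hl
  rw [← Int.natAbs_dvd, Int.natCast_dvd_natCast]
  apply Nat.dvd_factorial <;> omega

lemma branch (k j N Nm : ℕ) (hj : j < k) (hN : N ≤ Nm) (hNm : 0 < Nm) :
    ∃ Y : ℤ⟦X⟧, X ∣ Y + C (j : ℤ) ∧
      ∏ l ∈ range k, (Y + C (l : ℤ)) = C ((N * k ! ^ k : ℕ) : ℤ) * X ∧
      Maj (1 / ((6 * k * k ! ^ k * Nm : ℕ) : ℝ)) Y (2 * k) := by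
  classical
  set δ : ℕ := k ! with hδ
  have hδ0 : 0 < δ := factorial_pos k
  have hk0 : 0 < k := by omega
  have hδR : (1 : ℝ) ≤ δ := by exact_mod_cast hδ0
  have hkR : (1 : ℝ) ≤ k := by exact_mod_cast hk0
  have hNmR : (1 : ℝ) ≤ Nm := by exact_mod_cast hNm
  set L := (range k).erase j with hL
  have hcard : L.card = k - 1 := by rw [hL, card_erase_of_mem (mem_range.2 hj), card_range]
  set d : ℕ → ℤ := fun l => (δ : ℤ) / ((l : ℤ) - j) with hd
  have hdl : ∀ l ∈ L, ((l : ℤ) - j) * d l = δ := fun l hl =>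
    Int.mul_ediv_cancel' (sub_dvd_fact hj hl)
  have hdle : ∀ l ∈ L, |(d l : ℝ)| ≤ δ := by
    intro l hl
    have : |d l| ≤ (δ : ℤ) := by
      have := Int.le_of_dvd (by exact_mod_cast hδ0 : (0 : ℤ) < δ)
        ((abs_dvd _ _).2 (Dvd.intro_left _ (hdl l hl)))
      exact this
    exact_mod_cast this
  have hq : (0 : ℝ) ≤ 1 / ((6 * k * δ ^ k * Nm : ℕ) : ℝ) := by positivity
  obtain ⟨Z, hZX, hZ, hZM⟩ := exists_branch (D := δ) (ε := 1 / (3 * k * δ)) hq L d
    (N * ∏ l ∈ L, d l) hdle (by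
      have e : (δ : ℝ) * (1 / (3 * k * δ)) = 1 / (3 * k) := by field_simp
      rw [e]
      have h1 : (1 + 1 / (3 * k) : ℝ) ≤ Real.exp (1 / (3 * k)) := by
        have := Real.add_one_le_exp (1 / (3 * k) : ℝ); linarith
      calc (1 + 1 / (3 * k) : ℝ) ^ L.card ≤ (1 + 1 / (3 * k) : ℝ) ^ k :=
            pow_le_pow_right₀ (by have : (0 : ℝ) ≤ 1 / (3 * k) := by positivity
                                  linarith) (by omega)
        _ ≤ Real.exp (1 / (3 * k)) ^ k := pow_le_pow_left₀ (by positivity) h1 k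
        _ = Real.exp (1 / 3) := by rw [← Real.exp_nat_mul]; congr 1; field_simp
        _ ≤ 3 / 2 := by
          have := Real.exp_bound_div_one_sub_of_interval (x := 1 / 3) (by norm_num) (by norm_num)
          linarith) (by
      have h1 : |((∏ l ∈ L, d l : ℤ) : ℝ)| ≤ (δ : ℝ) ^ (k - 1) := by
        rw [Int.cast_prod, abs_prod, ← hcard, ← prod_const]
        exact prod_le_prod (fun _ _ => abs_nonneg _) hdle
      have h2 : (N : ℝ) ≤ Nm := by exact_mod_cast hN
      have h3 : (δ : ℝ) ^ k = δ * δ ^ (k - 1) := by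
        rw [← _root_.pow_succ']; congr 1; omega
      rw [Int.cast_mul, abs_mul, Int.cast_natCast, Nat.abs_cast]
      push_cast
      rw [h3]
      calc (N : ℝ) * |∏ l ∈ L, (d l : ℝ)| * (1 / (6 * k * (δ * δ ^ (k - 1)) * Nm))
          ≤ Nm * δ ^ (k - 1) * (1 / (6 * k * (δ * δ ^ (k - 1)) * Nm)) := by
            gcongr
            simpa using h1
        _ = 1 / (3 * k * δ) / 2 := by field_simp; norm_num)
  refine ⟨C (δ : ℤ) * Z - C (j : ℤ), ?_, ?_, ?_⟩
  · rw [sub_add_cancel]; exact hZX.mul_left _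
  · rw [← mul_prod_erase (range k) _ (mem_range.2 hj), sub_add_cancel, ← hL]
    have h1 : ∏ l ∈ L, (C (δ : ℤ) * Z - C (j : ℤ) + C (l : ℤ))
        = C (∏ l ∈ L, ((l : ℤ) - j)) * ∏ l ∈ L, (1 + C (d l) * Z) := by
      rw [map_prod, ← prod_mul_distrib]
      refine prod_congr rfl fun l hl => ?_
      rw [← hdl l hl, map_mul, map_sub]; ring
    have h2 : (δ : ℤ) * (∏ l ∈ L, ((l : ℤ) - j)) * (N * ∏ l ∈ L, d l) = ((N * δ ^ k : ℕ) : ℤ) := by
      have : (∏ l ∈ L, ((l : ℤ) - j)) * ∏ l ∈ L, d l = (δ : ℤ) ^ (k - 1) := by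
        rw [← prod_mul_distrib, prod_congr rfl hdl, prod_const, hcard]
      have h3 : (δ : ℤ) ^ k = δ * δ ^ (k - 1) := by
        rw [← _root_.pow_succ']; congr 1; omega
      push_cast
      rw [h3, ← this]; ring
    rw [h1, ← h2, map_mul, map_mul]
    linear_combination (C (δ : ℤ) * C (∏ l ∈ L, ((l : ℤ) - j))) * hZ
  · refine (((maj_C _ (δ : ℤ)).mul hq hZM).sub hq (maj_C _ (j : ℤ))).mono ?_
    have e : (δ : ℝ) * (1 / (3 * k * δ)) = 1 / (3 * k) := by field_simp
    have h1 : (1 / (3 * k) : ℝ) ≤ 1 := by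
      rw [div_le_one (by positivity)]; linarith
    have h2 : (j : ℝ) ≤ k := by exact_mod_cast hj.le
    simp only [Int.cast_natCast, Nat.abs_cast]
    rw [e]; linarith

lemma Maj.rescale {q c : ℝ} {f : ℤ⟦X⟧} (hq : 0 ≤ q) (N Nm : ℕ) (hN : N ≤ Nm) (hNm : 0 < Nm)
    (h : Maj q f c) : Maj (q / Nm) (rescale (N : ℤ) f) c := by
  intro m
  refine le_trans (sum_le_sum fun j _ => ?_) (h m)
  have h1 : (0 : ℝ) < Nm := by exact_mod_cast hNm
  have h2 : (N : ℝ) / Nm ≤ 1 := by rw [div_le_one h1]; exact_mod_cast hN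
  rw [coeff_rescale]
  push_cast
  rw [abs_mul, abs_pow, Nat.abs_cast]
  calc (N : ℝ) ^ j * |((coeff j f : ℤ) : ℝ)| * (q / Nm) ^ j
      = ((N : ℝ) / Nm) ^ j * (|((coeff j f : ℤ) : ℝ)| * q ^ j) := by
        rw [div_pow, div_pow]; field_simp
    _ ≤ 1 * (|((coeff j f : ℤ) : ℝ)| * q ^ j) :=
        mul_le_mul_of_nonneg_right (pow_le_one₀ (by positivity) h2) (by positivity)
    _ = _ := one_mul _

lemma order_bound {k r : ℕ} (hk : 0 < k) (Y : Fin r → ℤ⟦X⟧) (lam : Fin r → ℕ)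
    (hY : ∀ i, ∏ l ∈ range k, (Y i + C (l : ℤ)) = C (lam i : ℤ) * X)
    (c : (Fin r → Fin k) → ℤ)
    (hc : ∑ e : Fin r → Fin k, C (c e) * ∏ i, Y i ^ (e i : ℕ) ≠ 0) :
    ∃ σ ≤ r * k * k ^ r, coeff σ (∑ e : Fin r → Fin k, C (c e) * ∏ i, Y i ^ (e i : ℕ)) ≠ 0 := by
  classical
  set f : ℤ⟦X⟧ →+* ℂ⟦X⟧ := PowerSeries.map (Int.castRingHom ℂ) with hf
  set P : Polynomial ℂ := ∏ l ∈ range k, (Polynomial.X + Polynomial.C (l : ℂ)) with hP
  have hm : P.Monic := Polynomial.monic_prod_of_monic _ _ fun l _ => Polynomial.monic_X_add_C _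
  have hdeg : P.natDegree = k := by
    rw [hP, Polynomial.natDegree_prod_of_monic _ _ fun l _ => Polynomial.monic_X_add_C _]
    simp only [Polynomial.natDegree_X_add_C, sum_const, card_range, smul_eq_mul, mul_one]
  have hfC : ∀ a : ℤ, f (C a) = algebraMap ℂ ℂ⟦X⟧ (a : ℂ) := by
    intro a; simp [hf]
  have hYc : ∀ i, Polynomial.aeval (f (Y i)) P = algebraMap ℂ ℂ⟦X⟧ (lam i : ℂ) * X := by
    intro i
    have := congrArg f (hY i)
    rw [map_prod, map_mul, hfC] at this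
    rw [hP, map_prod]
    have hX : f X = X := by simp [hf]
    rw [hX, Int.cast_natCast] at this
    rw [← this]
    refine prod_congr rfl fun l _ => ?_
    rw [map_add, map_add, hfC]
    simp
  have hFF : f (∑ e : Fin r → Fin k, C (c e) * ∏ i, Y i ^ (e i : ℕ))
      = ∑ e : Fin r → Fin k, algebraMap ℂ ℂ⟦X⟧ (c e : ℂ) * ∏ i, f (Y i) ^ (e i : ℕ) := by
    rw [map_sum]
    refine sum_congr rfl fun S _ => ?_
    rw [map_mul, map_prod, hfC]
    simp only [map_pow]
  have hne : f (∑ e : Fin r → Fin k, C (c e) * ∏ i, Y i ^ (e i : ℕ)) ≠ 0 := by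
    intro h
    apply hc
    ext j
    have := congrArg (coeff j) h
    rw [hf, coeff_map, map_zero, eq_intCast] at this
    rw [map_zero]
    exact_mod_cast this
  obtain ⟨σ, hσ, h⟩ := zero_estimate P hm hdeg hk (fun i => f (Y i))
    (fun i => (lam i : ℂ)) hYc (fun S => (c S : ℂ)) _ hFF hne
  refine ⟨σ, hσ, fun h0 => h ?_⟩
  rw [hf, coeff_map, h0, map_zero]

lemma padic_dvd {k r p v u σ : ℕ} (hp : p.Prime) (hkp : k < p) (hu : ¬ p ∣ u)
    (Y : Fin r → ℤ⟦X⟧) (lam x j : Fin r → ℕ) (hj : ∀ i, j i < k) (hpx : ∀ i, p ∣ x i + j i)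
    (hYX : ∀ i, X ∣ Y i + C (j i : ℤ))
    (hY : ∀ i, ∏ l ∈ range k, (Y i + C (l : ℤ)) = C (lam i : ℤ) * X)
    (hx : ∀ i, ∏ l ∈ range k, (x i + l) = lam i * (p ^ v * u))
    (c : (Fin r → Fin k) → ℤ)
    (hc : ∑ e : Fin r → Fin k, c e * ∏ i, (x i : ℤ) ^ (e i : ℕ) = 0)
    (hσ : X ^ σ ∣ ∑ e : Fin r → Fin k, C (c e) * ∏ i, Y i ^ (e i : ℕ)) :
    ((p ^ v : ℕ) : ℤ) ∣ coeff σ (∑ e : Fin r → Fin k, C (c e) * ∏ i, Y i ^ (e i : ℕ)) := by
  classical
  set n := p ^ (v * (σ + 1)) with hn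
  have hpn : ((p : ZMod n)) ^ (v * (σ + 1)) = 0 := by
    rw [← Nat.cast_pow, ← hn, ZMod.natCast_self]
  have hs0 : (((p ^ v * u : ℕ) : ZMod n)) ^ (σ + 1) = 0 := by
    push_cast
    rw [mul_pow, ← pow_mul, hpn, zero_mul]
  obtain ⟨ψ, hψ⟩ := exists_eval_hom _ σ hs0
  have hψC : ∀ a : ℤ, ψ (C a) = (a : ZMod n) := fun a => by simp
  have hδ : IsUnit ((k ! : ℕ) : ZMod n) := by
    rw [ZMod.isUnit_iff_coprime, hn]
    exact Nat.Coprime.pow_right _ (hp.coprime_factorial_of_lt hkp).symm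
  have hval : ∀ i, ψ (Y i) = (x i : ZMod n) := by
    intro i
    have h1 : IsNilpotent (ψ (Y i) + (j i : ZMod n)) := by
      obtain ⟨g, hg⟩ := hYX i
      have := congrArg ψ hg
      rw [map_add, hψC, Int.cast_natCast, map_mul, hψ] at this
      rw [this]
      exact (Commute.all _ _).isNilpotent_mul_right ⟨_, hs0⟩
    have h2 : IsNilpotent ((x i : ZMod n) + (j i : ZMod n)) := by
      obtain ⟨g, hg⟩ := hpx i
      rw [← Nat.cast_add, hg, Nat.cast_mul]
      exact (Commute.all _ _).isNilpotent_mul_right ⟨_, hpn⟩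
    have key : ∀ a : ZMod n, ∏ l ∈ range k, (a + (l : ZMod n))
        = (a + j i) * ∏ l ∈ (range k).erase (j i), (((l : ZMod n) - j i) + (a + j i)) := by
      intro a
      rw [← mul_prod_erase (range k) _ (mem_range.2 (hj i))]
      congr 1
      exact prod_congr rfl fun l _ => by ring
    have h3 := hensel_unique ((range k).erase (j i)) (fun l => (l : ZMod n) - j i) (by
      intro l hl
      obtain ⟨d, hd⟩ := sub_dvd_fact (hj i) hl
      have := congrArg (Int.cast : ℤ → ZMod n) hd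
      push_cast at this
      rw [this] at hδ
      exact isUnit_of_mul_isUnit_left hδ) _ _ h1 h2 (by
      rw [← key, ← key]
      have a1 := congrArg ψ (hY i)
      have a2 := congrArg (Nat.cast : ℕ → ZMod n) (hx i)
      rw [map_prod, map_mul, hψ, hψC] at a1
      simp only [map_add, hψC, Int.cast_natCast] at a1
      rw [Nat.cast_prod, Nat.cast_mul] at a2
      simp only [Nat.cast_add] at a2
      rw [a1, a2])
    exact add_right_cancel h3
  set F := ∑ e : Fin r → Fin k, C (c e) * ∏ i, Y i ^ (e i : ℕ) with hFF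
  have hF0 : ψ F = 0 := by
    have := congrArg (Int.cast : ℤ → ZMod n) hc
    push_cast at this
    rw [hFF, map_sum, ← this]
    refine sum_congr rfl fun S _ => ?_
    rw [map_mul, map_prod, hψC]
    simp only [map_pow, hval]
  have hsplit : X ^ (σ + 1) ∣ F - C (coeff σ F) * X ^ σ := by
    rw [X_pow_dvd_iff]
    intro m hm
    rw [map_sub, coeff_C_mul, coeff_X_pow]
    rcases Nat.lt_or_ge m σ with h | h
    · rw [X_pow_dvd_iff.1 hσ m h, if_neg h.ne]; simp
    · have : m = σ := by omega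
      subst this; simp
  obtain ⟨g, hg⟩ := hsplit
  have := congrArg ψ hg
  rw [map_sub, hF0, map_mul, map_mul, map_pow, map_pow, hψ, hs0, hψC, zero_mul, zero_sub,
    neg_eq_zero] at this
  have h5 : (n : ℤ) ∣ coeff σ F * ((p ^ v * u : ℕ) : ℤ) ^ σ := by
    rw [← ZMod.intCast_zmod_eq_zero_iff_dvd]
    push_cast at this ⊢
    exact this
  have h6 : ((p ^ v : ℕ) : ℤ) * ((p ^ v : ℕ) : ℤ) ^ σ
      ∣ (coeff σ F * (u : ℤ) ^ σ) * ((p ^ v : ℕ) : ℤ) ^ σ := by
    convert h5 using 1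
    · rw [hn]; push_cast; ring
    · push_cast; ring
  have hp0 : ((p ^ v : ℕ) : ℤ) ^ σ ≠ 0 := by
    have := hp.pos
    positivity
  have h7 := (mul_dvd_mul_iff_right hp0).1 h6
  refine IsCoprime.dvd_of_dvd_mul_right ?_ h7
  rw [← Nat.cast_pow, Nat.isCoprime_iff_coprime]
  exact Nat.Coprime.pow _ _ ((Nat.Prime.coprime_iff_not_dvd hp).2 hu)

attribute [local instance] Matrix.seminormedAddCommGroup in
lemma small_relation {β : Type} [Fintype β] (hβ : 1 < Fintype.card β) (x : β → ℕ) (B : ℕ)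
    (hB : 1 ≤ B) (hx : ∀ i, x i ≤ B) :
    ∃ (c : β → ℤ) (H : ℝ), c ≠ 0 ∧ ∑ e, c e * (x e : ℤ) = 0 ∧ 0 ≤ H ∧ (∀ e, |(c e : ℝ)| ≤ H) ∧
      H ^ (Fintype.card β - 1) ≤ Fintype.card β * (B : ℝ) := by
  classical
  let A : Matrix Unit β ℤ := fun _ e => (x e : ℤ)
  obtain ⟨t, ht0, ht, hle⟩ := Int.Matrix.exists_ne_zero_int_vec_norm_le A
    (by simpa using hβ) (by simp)
  have hBR : (1 : ℝ) ≤ B := by exact_mod_cast hB
  have hA : ‖A‖ ≤ (B : ℝ) := by
    rw [Matrix.norm_le_iff (by positivity)]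
    intro _ S
    simp only [A, Int.norm_eq_abs]
    push_cast
    rw [abs_of_nonneg (by positivity)]
    exact_mod_cast hx S
  refine ⟨t, ‖t‖, ht0, ?_, norm_nonneg _, fun S => ?_, ?_⟩
  · have := congrFun ht ()
    simp only [Matrix.mulVec, dotProduct, A, Pi.zero_apply] at this
    rw [← this]
    exact sum_congr rfl fun S _ => mul_comm _ _
  · have := norm_le_pi_norm t S
    rwa [Int.norm_eq_abs] at this
  · simp only [Fintype.card_unit, Nat.cast_one] at hle
    have e : ((Fintype.card β : ℕ) : ℝ) - 1 = ((Fintype.card β - 1 : ℕ) : ℝ) := by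
      rw [Nat.cast_sub hβ.le]; simp
    rw [e, one_div] at hle
    calc ‖t‖ ^ (Fintype.card β - 1)
        ≤ ((((Fintype.card β : ℕ) : ℝ) * max 1 ‖A‖) ^ (((Fintype.card β - 1 : ℕ) : ℝ))⁻¹)
            ^ (Fintype.card β - 1) := pow_le_pow_left₀ (norm_nonneg _) hle _
      _ = ((Fintype.card β : ℕ) : ℝ) * max 1 ‖A‖ :=
          Real.rpow_inv_natCast_pow (by positivity) (by omega)
      _ ≤ _ := by
          gcongr
          exact max_le hBR hA

end

end Pool.Agent.H79Fact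

end

-- part MP_7a723b_nt.PadicB
section

namespace Pool.Agent.H79Fact

/-! Few factorials in a window are products of `k` consecutive integers. -/

section


open PowerSeries Finset Nat

lemma fact_pow_dvd (a b n : ℕ) (h : a * b ≤ n) : b ! ^ a ∣ n ! := by
  have := Nat.prod_factorial_dvd_factorial_sum (range a) (fun _ => b)
  simp only [prod_const, card_range, sum_const, smul_eq_mul] at this
  exact this.trans (Nat.factorial_dvd_factorial h)

theorem window (k r n H l : ℕ) (hk : 2 ≤ k) (hl : 2 * n ≤ 2 ^ l) (hr : 24 * k * r * l + 2 ≤ k ^ r)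
    (hn : 16 * r * k ^ (r + 2) * l * (k ^ 2 + 2 + H) ≤ n) (hn0 : 0 < n)
    (m x : Fin r → ℕ) (hm : ∀ i j, i < j → m i + 2 * k ≤ m j) (hm1 : ∀ i, n ≤ m i) (hm2 : ∀ i, m i ≤ n + H)
    (hx : ∀ i, ∏ a ∈ range k, (x i + a) = (m i)!) : False := by
  classical
  have hr0 : 0 < r := by
    rcases Nat.eq_zero_or_pos r with h | h
    · subst h; simp at hr
    · exact h
  have hl0 : 0 < l := by
    rcases Nat.eq_zero_or_pos l with h | h
    · subst h; simp at hl; omega
    · exact h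
  have hkr : 1 ≤ k ^ r := Nat.one_le_pow _ _ (by omega)
  set E := k ^ 2 + 2 + H with hE
  have hbig : 32 * E ≤ n := by
    refine le_trans ?_ hn
    have h1 : 2 ≤ k ^ (r + 2) := by rw [pow_add]; nlinarith
    calc 32 * E = 16 * 1 * 2 * 1 * E := by ring
      _ ≤ _ := by gcongr <;> omega
  have hkk : k * k ≤ n := by nlinarith
  have hHn : H ≤ n := by omega
  have h4k : 4 * k ≤ n := by nlinarith
  obtain ⟨p, hp, hkp, hp2⟩ := Nat.exists_prime_lt_and_le_two_mul k (by omega)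
  set δ := k ! with hδ
  have hδ0 : 0 < δ := factorial_pos k
  obtain ⟨s0, hs0⟩ := fact_pow_dvd k k n hkk
  have hs00 : s0 ≠ 0 := by
    intro h; rw [h, mul_zero] at hs0; exact factorial_ne_zero n hs0
  obtain ⟨v, u, hu, hvu⟩ := Nat.exists_eq_pow_mul_and_not_dvd hs00 p hp.ne_one
  have hv : n ≤ 4 * k * v := by
    have h1 : p ^ (n / p) ∣ n ! :=
      (pow_dvd_pow_of_dvd (Nat.dvd_factorial hp.pos le_rfl) _).trans
        (fact_pow_dvd (n / p) p n (Nat.div_mul_le_self n p))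
    rw [hs0] at h1
    have h2 : p ^ (n / p) ∣ s0 :=
      (Nat.Coprime.pow _ _ (hp.coprime_factorial_of_lt hkp)).dvd_of_dvd_mul_left h1
    rw [hvu] at h2
    have h3 : p ^ (n / p) ∣ p ^ v :=
      (Nat.Coprime.pow_left _ ((Nat.Prime.coprime_iff_not_dvd hp).2 hu)).dvd_of_dvd_mul_right h2
    have h4 : n / p ≤ v := (Nat.pow_dvd_pow_iff_le_right hp.one_lt).1 h3
    have h5 : n < p * (n / p + 1) := Nat.lt_mul_div_succ n hp.pos
    nlinarith
  set N : Fin r → ℕ := fun i => (n + 1).ascFactorial (m i - n) with hN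
  have hNm : ∀ i, n ! * N i = (m i)! := by
    intro i
    rw [hN, Nat.factorial_mul_ascFactorial, Nat.add_sub_cancel' (hm1 i)]
  have hNle : ∀ i, N i ≤ (2 * n) ^ H := by
    intro i
    have := hm1 i
    have := hm2 i
    calc N i ≤ (n + (m i - n)) ^ (m i - n) := Nat.ascFactorial_le_pow_add _ _
      _ ≤ (2 * n) ^ (m i - n) := Nat.pow_le_pow_left (by omega) _
      _ ≤ (2 * n) ^ H := Nat.pow_le_pow_right (by omega) (by omega)
  have hNpos : ∀ i, 0 < N i := fun i => Nat.ascFactorial_pos _ _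
  have hNdvd : ∀ a b, a < b → (p : ℤ) * N a ∣ N b := by
    intro a b hab
    have h0 := hm a b hab
    have h1 : N b = N a * (m a + 1).ascFactorial (m b - m a) := by
      apply Nat.eq_of_mul_eq_mul_left (factorial_pos n)
      rw [← mul_assoc, hNm, hNm, Nat.factorial_mul_ascFactorial, Nat.add_sub_cancel' (by omega)]
    have h2 : p ∣ (m a + 1).ascFactorial (m b - m a) :=
      (Nat.dvd_factorial hp.pos (by omega)).trans (Nat.factorial_dvd_ascFactorial _ _)
    have h3 : p * N a ∣ N b := by rw [h1, mul_comm p]; exact Nat.mul_dvd_mul_left _ h2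
    exact_mod_cast h3
  have hj : ∀ i, ∃ j < k, p ∣ x i + j := by
    intro i
    have h1 : p ∣ ∏ a ∈ range k, (x i + a) := by
      rw [hx]; exact Nat.dvd_factorial hp.pos (by have := hm1 i; omega)
    obtain ⟨j, hj, h⟩ := (Prime.dvd_finsetProd_iff hp.prime _).1 h1
    exact ⟨j, mem_range.1 hj, h⟩
  choose j hjk hjp using hj
  have hbr := fun i => branch k (j i) 1 1 (hjk i) le_rfl one_pos
  choose y hyX hy hyM using hbr
  set Y : Fin r → ℤ⟦X⟧ := fun i => rescale (N i : ℤ) (y i) with hYdef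
  set Λ : ℕ := 6 * k * δ ^ k * (2 * n) ^ H with hΛ
  have hYX : ∀ i, X ∣ Y i + C (j i : ℤ) := by
    intro i
    obtain ⟨g, hg⟩ := hyX i
    have := congrArg (rescale (N i : ℤ)) hg
    rw [map_add, rescale_C', map_mul, rescale_X] at this
    exact ⟨C (N i : ℤ) * rescale (N i : ℤ) g, by rw [hYdef]; linear_combination this⟩
  have hY : ∀ i, ∏ a ∈ range k, (Y i + C (a : ℤ)) = C ((N i * δ ^ k : ℕ) : ℤ) * X := by
    intro i
    have := congrArg (rescale (N i : ℤ)) (hy i)
    rw [map_prod, map_mul, rescale_C', rescale_X] at this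
    simp only [map_add, rescale_C'] at this
    rw [hYdef, this, ← mul_assoc, ← map_mul]
    congr 2
    push_cast
    ring
  have hYM : ∀ i, Maj (1 / (Λ : ℝ)) (Y i) (2 * k) := by
    intro i
    have := (hyM i).rescale (by positivity) (N i) ((2 * n) ^ H) (hNle i) (by positivity)
    convert this using 1
    rw [hΛ, div_div]
    push_cast
    ring
  have hΛ4 : 2 * k * k ≤ Λ := by
    have h1 : k ≤ δ ^ k := (Nat.self_le_factorial k).trans (Nat.le_self_pow (by omega) _)
    have h2 : 1 ≤ (2 * n) ^ H := Nat.one_le_pow _ _ (by omega)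
    calc 2 * k * k ≤ 6 * k * k * 1 := by nlinarith
      _ ≤ Λ := by rw [hΛ]; gcongr
  have hΛle : Λ ≤ 2 ^ (l * E) := by
    have h1 : δ ^ k ≤ (2 * n) ^ (k ^ 2) := by
      calc δ ^ k ≤ (k ^ k) ^ k := Nat.pow_le_pow_left (Nat.factorial_le_pow k) k
        _ = k ^ (k ^ 2) := by rw [← pow_mul, pow_two]
        _ ≤ _ := Nat.pow_le_pow_left (by omega) _
    have h2 : 6 * k ≤ (2 * n) ^ 2 := by nlinarith
    calc Λ ≤ (2 * n) ^ 2 * (2 * n) ^ (k ^ 2) * (2 * n) ^ H := by rw [hΛ]; gcongr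
      _ = (2 * n) ^ E := by rw [hE]; ring
      _ ≤ (2 ^ l) ^ E := Nat.pow_le_pow_left hl _
      _ = _ := by rw [← pow_mul]
  have hxk : ∀ i, 1 ≤ x i ∧ x i ^ k ≤ 2 ^ (2 * n * l) := by
    intro i
    constructor
    · by_contra h
      have h0 : x i = 0 := by omega
      have := hx i
      rw [prod_eq_zero (i := 0) (mem_range.2 (by omega)) (by simp [h0])] at this
      exact factorial_ne_zero _ this.symm
    · calc x i ^ k = ∏ _a ∈ range k, x i := by simp
        _ ≤ ∏ a ∈ range k, (x i + a) := prod_le_prod' fun a _ => Nat.le_add_right _ _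
        _ = (m i)! := hx i
        _ ≤ (2 * n)! := Nat.factorial_le (by have := hm2 i; omega)
        _ ≤ (2 * n) ^ (2 * n) := Nat.factorial_le_pow _
        _ ≤ (2 ^ l) ^ (2 * n) := Nat.pow_le_pow_left hl _
        _ = _ := by rw [← pow_mul]; congr 1; ring
  have hcard : Fintype.card (Fin r → Fin k) = k ^ r := by simp
  obtain ⟨c, Hc, hc0, hc, hH0, hcH, hHc⟩ := small_relation (β := Fin r → Fin k)
    (by rw [hcard]; omega) (fun e => ∏ i, x i ^ (e i : ℕ)) (2 ^ (2 * n * l * r))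
    (Nat.one_le_two_pow) (fun e => by
      calc ∏ i, x i ^ (e i : ℕ) ≤ ∏ _i : Fin r, 2 ^ (2 * n * l) :=
            prod_le_prod' fun i _ =>
              (Nat.pow_le_pow_right (hxk i).1 (e i).2.le).trans (hxk i).2
        _ = _ := by rw [prod_const, Finset.card_univ, Fintype.card_fin, ← pow_mul])
  rw [hcard] at hHc
  push_cast at hc hHc
  set F := ∑ e : Fin r → Fin k, C (c e) * ∏ i, Y i ^ (e i : ℕ) with hF
  have hF0 : F ≠ 0 := fun h => hc0 (full_indep hp ((1 * k ! ^ k : ℕ) : ℤ) (by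
      rw [Int.natCast_dvd_natCast, one_mul, ← Nat.Prime.coprime_iff_not_dvd hp]
      exact Nat.Coprime.pow_right _ (hp.coprime_factorial_of_lt hkp)) r y (fun i => (N i : ℤ)) hy
    (fun i => by exact_mod_cast (hNpos i).ne') hNdvd c h)
  have hex : ∃ σ, σ ≤ r * k * k ^ r ∧ coeff σ F ≠ 0 :=
    order_bound (by omega) Y (fun i => N i * δ ^ k) hY c hF0
  set σ := Nat.find hex with hσ
  obtain ⟨hσ1, hσ2⟩ : σ ≤ r * k * k ^ r ∧ coeff σ F ≠ 0 := Nat.find_spec hex
  have hXσ : X ^ σ ∣ F := by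
    rw [X_pow_dvd_iff]
    intro a ha
    by_contra h
    exact Nat.find_min hex ha ⟨by omega, h⟩
  have hdvd := padic_dvd hp hkp hu Y (fun i => N i * δ ^ k) x j hjk hjp hYX hY (fun i => by
    rw [hx, ← hNm, hs0, ← hvu]; ring) c hc hXσ
  have hkR : (2 : ℝ) ≤ k := by exact_mod_cast hk
  have hΛR : (1 : ℝ) ≤ Λ := by exact_mod_cast (by nlinarith : 1 ≤ Λ)
  have hq : (0 : ℝ) ≤ 1 / (Λ : ℝ) := by positivity
  have hFM : Maj (1 / (Λ : ℝ)) F (k ^ r * (Hc * ((2 * k) ^ k) ^ r)) := by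
    have := maj_sum (c := Hc * ((2 * k) ^ k) ^ r) hq
      (fun e : Fin r → Fin k => C (c e) * ∏ i, Y i ^ (e i : ℕ)) univ (fun e _ => by
        have b1 : ∀ i, Maj (1 / (Λ : ℝ)) (Y i ^ (e i : ℕ)) ((2 * k) ^ k) := by
          intro i
          have := maj_prod hq (fun _ => Y i) (range (e i)) fun _ _ => hYM i
          rw [prod_const, card_range] at this
          exact this.mono (pow_le_pow_right₀ (by linarith) (e i).2.le)
        have b2 := maj_prod hq (fun i => Y i ^ (e i : ℕ)) univ fun i _ => b1 i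
        rw [Finset.card_univ, Fintype.card_fin] at b2
        exact ((maj_C _ (c e)).mul hq b2).mono
          (mul_le_mul_of_nonneg_right (hcH e) (by positivity)))
    rw [Finset.card_univ, hcard] at this
    push_cast at this
    exact this
  set s := r * k * k ^ r with hs
  have h1 : ((p : ℝ)) ^ v ≤ Hc * (Λ : ℝ) ^ (2 * s) := by
    have a1 : ((p ^ v : ℕ) : ℤ) ≤ |coeff σ F| :=
      Int.le_of_dvd (abs_pos.2 hσ2) ((dvd_abs _ _).2 hdvd)
    have a2 : ((p : ℝ)) ^ v ≤ |((coeff σ F : ℤ) : ℝ)| := by exact_mod_cast a1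
    have a3 := hFM.coeff_le hq σ
    rw [one_div, inv_pow, ← div_eq_mul_inv, div_le_iff₀ (by positivity)] at a3
    have a4 : (k : ℝ) ^ r * ((2 * k) ^ k) ^ r ≤ (Λ : ℝ) ^ s := by
      have b1 : (2 : ℝ) * k * k ≤ Λ := by exact_mod_cast hΛ4
      calc (k : ℝ) ^ r * ((2 * k) ^ k) ^ r ≤ ((k : ℝ) ^ k) ^ r * ((2 * k) ^ k) ^ r := by
            gcongr
            exact le_self_pow₀ (by linarith) (by omega)
        _ = (2 * k * k) ^ (r * k) := by rw [← mul_pow, ← mul_pow, ← pow_mul]; ring_nf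
        _ ≤ (Λ : ℝ) ^ (r * k) := pow_le_pow_left₀ (by positivity) b1 _
        _ ≤ _ := pow_le_pow_right₀ hΛR (Nat.le_mul_of_pos_right _ hkr)
    have a5 : (Λ : ℝ) ^ σ ≤ (Λ : ℝ) ^ s := pow_le_pow_right₀ hΛR hσ1
    calc ((p : ℝ)) ^ v ≤ k ^ r * (Hc * ((2 * k) ^ k) ^ r) * (Λ : ℝ) ^ σ := a2.trans a3
      _ = Hc * ((k ^ r * ((2 * k) ^ k) ^ r) * (Λ : ℝ) ^ σ) := by ring
      _ ≤ Hc * ((Λ : ℝ) ^ s * (Λ : ℝ) ^ s) := by gcongr
      _ = _ := by rw [← pow_add, two_mul]
  have h2 : ((Λ : ℝ) ^ (2 * s)) ^ 2 ≤ (p : ℝ) ^ v := by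
    have a1 : 4 * s * l * E ≤ v := by
      have : (4 * k) * (4 * s * l * E) ≤ (4 * k) * v := by
        refine le_trans (le_of_eq ?_) (hn.trans hv)
        rw [hs]; ring
      exact Nat.le_of_mul_le_mul_left this (by omega)
    have a2 : (Λ ^ (2 * s)) ^ 2 ≤ p ^ v := by
      calc (Λ ^ (2 * s)) ^ 2 ≤ ((2 ^ (l * E)) ^ (2 * s)) ^ 2 := by gcongr
        _ = 2 ^ (4 * s * l * E) := by rw [← pow_mul, ← pow_mul]; congr 1; ring
        _ ≤ 2 ^ v := Nat.pow_le_pow_right (by norm_num) a1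
        _ ≤ p ^ v := Nat.pow_le_pow_left hp.two_le _
    exact_mod_cast a2
  have hpv : (0 : ℝ) < (p : ℝ) ^ v := by have := hp.pos; positivity
  have h3 : (2 : ℝ) ^ v ≤ Hc ^ 2 := by
    have a1 : (p : ℝ) ^ v * (p : ℝ) ^ v ≤ Hc ^ 2 * (p : ℝ) ^ v := by
      calc (p : ℝ) ^ v * (p : ℝ) ^ v ≤ (Hc * (Λ : ℝ) ^ (2 * s)) ^ 2 := by
            rw [pow_two]; exact mul_le_mul h1 h1 hpv.le (hpv.le.trans h1)
        _ = Hc ^ 2 * ((Λ : ℝ) ^ (2 * s)) ^ 2 := by ring
        _ ≤ _ := by gcongr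
    have a2 := le_of_mul_le_mul_right a1 hpv
    have a3 : (2 : ℝ) ≤ p := by exact_mod_cast hp.two_le
    exact (pow_le_pow_left₀ (by norm_num) a3 v).trans a2
  have h4 : (2 : ℝ) ^ (v * (k ^ r - 1)) ≤ (2 : ℝ) ^ (6 * r * n * l) := by
    have a0 : k ≤ 2 ^ (n * l) :=
      le_trans (by omega : k ≤ 2 ^ l)
        (Nat.pow_le_pow_right (by norm_num) (Nat.le_mul_of_pos_left l hn0))
    have a1 : (k : ℝ) ≤ 2 ^ (n * l) := by exact_mod_cast a0
    calc (2 : ℝ) ^ (v * (k ^ r - 1)) = ((2 : ℝ) ^ v) ^ (k ^ r - 1) := by rw [← pow_mul]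
      _ ≤ (Hc ^ 2) ^ (k ^ r - 1) := by gcongr
      _ = (Hc ^ (k ^ r - 1)) ^ 2 := by rw [← pow_mul, ← pow_mul, mul_comm]
      _ ≤ ((k : ℝ) ^ r * 2 ^ (2 * n * l * r)) ^ 2 := by gcongr
      _ ≤ (((2 : ℝ) ^ (n * l)) ^ r * 2 ^ (2 * n * l * r)) ^ 2 := by gcongr
      _ = _ := by rw [← pow_mul, ← pow_add, ← pow_mul]; congr 1; ring
  have h5 : v * (k ^ r - 1) ≤ 6 * r * n * l :=
    (pow_le_pow_iff_right₀ (by norm_num : (1 : ℝ) < 2)).1 h4
  have h6 : 24 * k * r * l + 1 ≤ k ^ r - 1 := by omega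
  have h7 : n * (24 * k * r * l + 1) ≤ (4 * k * v) * (k ^ r - 1) := Nat.mul_le_mul hv h6
  have h8 : (4 * k * v) * (k ^ r - 1) = 4 * k * (v * (k ^ r - 1)) := by ring
  have h9 : n * (24 * k * r * l + 1) = 4 * k * (6 * r * n * l) + n := by ring
  have h10 := Nat.mul_le_mul_left (4 * k) h5
  omega

end

/-! Counting factorials that are products of consecutive integers. -/

section


open Finset Nat

lemma strictMono_gap {M : ℕ} (f : Fin M → ℕ) (hf : StrictMono f) (d : ℕ) :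
    ∀ a b : Fin M, (a : ℕ) + d ≤ b → f a + d ≤ f b := by
  induction d with
  | zero => intro a b h; simpa using hf.monotone (by simpa using h)
  | succ d ih =>
    intro a b h
    have h1 := ih a ⟨a + d, by have := b.2; omega⟩ le_rfl
    have h2 := hf (a := ⟨a + d, by have := b.2; omega⟩) (b := b) (by
      rw [Fin.lt_def]; simp only; omega)
    omega

lemma count_fixed (k r l A : ℕ) (hk : 2 ≤ k) (hl : 2 * A ≤ 2 ^ l)
    (hr : 24 * k * r * l + 2 ≤ k ^ r) (hl0 : 0 < l) (S : Finset ℕ)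
    (hS : ∀ m ∈ S, m ≤ A ∧ ∃ x, ∏ a ∈ range k, (x + a) = m !) :
    S.card ≤ 32 * r * k ^ (r + 2) * l * (k ^ 2 + 2 + 2 * k * r * l) := by
  classical
  have hr0 : 0 < r := by
    rcases Nat.eq_zero_or_pos r with h | h
    · subst h; simp at hr
    · exact h
  set V := 32 * r * k ^ (r + 2) * l with hV
  have hV0 : 0 < V := by positivity
  set n0 := V * (k ^ 2 + 2) with hn0
  have hn00 : 0 < n0 := by positivity
  set T := S.filter (fun m => n0 ≤ m) with hT
  have h1 : S.card ≤ n0 + T.card := by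
    have : S ⊆ range n0 ∪ T := by
      intro m hm
      rw [mem_union, mem_range, hT, mem_filter]
      by_cases h : m < n0
      · exact Or.inl h
      · exact Or.inr ⟨hm, by omega⟩
    refine (card_le_card this).trans ((card_union_le _ _).trans ?_)
    rw [card_range]
  let f : ℕ → ℕ × ℕ := fun m =>
    (Nat.log 2 m, (m - 2 ^ Nat.log 2 m) / (2 ^ Nat.log 2 m / V + 1))
  have h2 : T.card ≤ (2 * k * r) * (range l ×ˢ range V).card := by
    refine card_le_mul_card_image_of_maps_to (f := f) ?_ (2 * k * r) ?_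
    · intro m hm
      rw [hT, mem_filter] at hm
      have hm0 : m ≠ 0 := by omega
      have hmA := (hS m hm.1).1
      rw [mem_product, mem_range, mem_range]
      refine ⟨Nat.log_lt_of_lt_pow (b := 2) (x := l) hm0 (by omega), ?_⟩
      have a1 := Nat.lt_pow_succ_log_self (b := 2) (by norm_num) m
      have a2 := Nat.lt_mul_div_succ (2 ^ Nat.log 2 m) hV0
      rw [Nat.pow_succ] at a1
      simp only [f]
      rw [Nat.div_lt_iff_lt_mul (Nat.succ_pos _), Nat.succ_eq_add_one]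
      omega
    · rintro ⟨j, t⟩ -
      by_contra hcon
      set U := T.filter (fun m => f m = (j, t)) with hU
      have hcard : 2 * k * r ≤ U.card := by omega
      have hne : U.Nonempty := card_pos.1 (by omega)
      let ι : Fin r → Fin (2 * k * r) := fun i =>
        ⟨2 * k * i, Nat.mul_lt_mul_of_pos_left i.2 (by omega)⟩
      set n := U.min' hne with hn
      have hUm : ∀ m ∈ U, m ∈ S ∧ n0 ≤ m ∧ 2 ^ j ≤ m ∧ (m - 2 ^ j) / (2 ^ j / V + 1) = t := by
        intro m hm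
        rw [hU, mem_filter, hT, mem_filter] at hm
        obtain ⟨⟨a1, a2⟩, a3⟩ := hm
        simp only [f, Prod.mk.injEq] at a3
        obtain ⟨a3, a4⟩ := a3
        rw [a3] at a4
        exact ⟨a1, a2, a3 ▸ Nat.pow_log_le_self 2 (by omega), a4⟩
      obtain ⟨hnS, hnn, hnj, hnt⟩ := hUm n (min'_mem _ _)
      have hnA := (hS n hnS).1
      have hmem := fun i => orderEmbOfCardLe_mem U hcard (ι i)
      choose x hx using fun i => (hS _ (hUm _ (hmem i)).1).2
      refine window k r n (2 ^ j / V) l hk (by omega) hr ?_ (by omega)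
        (fun i => orderEmbOfCardLe U hcard (ι i)) x
        (fun a b hab => strictMono_gap _ (orderEmbOfCardLe U hcard).strictMono _ _ _ (by
          have : (a : ℕ) + 1 ≤ b := hab
          simp only [ι]
          nlinarith))
        (fun i => min'_le _ _ (hmem i)) (fun i => ?_) hx
      · have a1 : V * (2 ^ j / V) ≤ 2 ^ j := Nat.mul_div_le _ _
        have a2 : 2 * (16 * r * k ^ (r + 2) * l * (k ^ 2 + 2 + 2 ^ j / V))
            = n0 + V * (2 ^ j / V) := by rw [hn0, hV]; ring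
        omega
      · obtain ⟨-, -, b1, b2⟩ := hUm _ (hmem i)
        set m := orderEmbOfCardLe U hcard (ι i)
        set h := 2 ^ j / V + 1 with hh
        have c1 := Nat.lt_mul_div_succ (m - 2 ^ j) (Nat.succ_pos (2 ^ j / V))
        have c2 := Nat.mul_div_le (n - 2 ^ j) h
        simp only [Nat.succ_eq_add_one, ← hh] at c1
        rw [b2, mul_add, mul_one] at c1
        rw [hnt] at c2
        omega
  rw [card_product, card_range, card_range] at h2
  calc S.card ≤ n0 + 2 * k * r * (l * V) := by omega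
    _ = _ := by rw [hn0]; ring

lemma two_pow_mul_fact_le (a : ℕ) : 2 ^ (a / 2) * a ! ≤ a ^ a := by
  have h : ∀ n, 2 ^ n * (2 * n)! ≤ (2 * n) ^ (2 * n) := by
    intro n
    have h1 : (2 * n)! ≤ (2 * n) ^ n * n ! := by
      have e : 2 * n = n + n := by ring
      calc (2 * n)! = n ! * (n + 1).ascFactorial n := by rw [Nat.factorial_mul_ascFactorial, e]
        _ ≤ n ! * (n + n) ^ n := Nat.mul_le_mul_left _ (Nat.ascFactorial_le_pow_add _ _)
        _ = _ := by rw [e, mul_comm]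
    calc 2 ^ n * (2 * n)! ≤ 2 ^ n * ((2 * n) ^ n * n ^ n) :=
          Nat.mul_le_mul_left _ (h1.trans (Nat.mul_le_mul_left _ (Nat.factorial_le_pow n)))
      _ = _ := by rw [two_mul n, pow_add, ← two_mul n, mul_pow]; ring
  rcases Nat.even_or_odd' a with ⟨n, rfl | rfl⟩
  · rw [Nat.mul_div_cancel_left n (by norm_num)]; exact h n
  · have e : (2 * n + 1) / 2 = n := by omega
    rw [e, Nat.factorial_succ, Nat.pow_succ]
    calc 2 ^ n * ((2 * n + 1) * (2 * n)!) = (2 ^ n * (2 * n)!) * (2 * n + 1) := by ring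
      _ ≤ (2 * n + 1) ^ (2 * n) * (2 * n + 1) :=
          Nat.mul_le_mul_right _ ((h n).trans (Nat.pow_le_pow_left (by omega) _))

lemma prod_eq_of_fact {a b k : ℕ} (h : a ! * b ! = (b + k)!) :
    ∏ i ∈ range k, (b + 1 + i) = a ! := by
  rw [← Nat.factorial_mul_ascFactorial, mul_comm, Nat.ascFactorial_eq_prod_range] at h
  exact (Nat.eq_of_mul_eq_mul_left (factorial_pos b) h).symm

lemma gap_bound {a b k l : ℕ} (hab : a < b) (ha : 2 ≤ a) (hl : a ≤ 2 ^ l)
    (h : a ! * b ! = (b + k)!) : a ≤ 20 * l ^ 2 ∨ k ≤ 8 * l := by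
  have hl0 : 0 < l := by
    rcases Nat.eq_zero_or_pos l with h | h
    · subst h; simp at hl; omega
    · exact h
  have h1 : (b + 1) ^ k ≤ a ! := by
    have := Nat.factorial_mul_pow_le_factorial (m := b) (n := k)
    rw [← h, mul_comm (a !)] at this
    exact Nat.le_of_mul_le_mul_left this (factorial_pos b)
  have h2 : 2 ^ (a / 2) * a ^ k ≤ a ^ a :=
    le_trans (Nat.mul_le_mul_left _ ((Nat.pow_le_pow_left (by omega) k).trans h1))
      (two_pow_mul_fact_le a)
  have hka : k ≤ a := by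
    have : a ^ k ≤ a ^ a := le_trans (Nat.le_mul_of_pos_left _ (by positivity)) h2
    exact (Nat.pow_le_pow_iff_right (by omega)).1 this
  obtain ⟨d, rfl⟩ := Nat.exists_eq_add_of_le hka
  have h3 : (k + d) / 2 ≤ l * d := by
    rw [pow_add (k + d) k d, mul_comm] at h2
    have a1 := Nat.le_of_mul_le_mul_left h2 (by positivity)
    have a2 : (k + d) ^ d ≤ 2 ^ (l * d) := by rw [pow_mul]; exact Nat.pow_le_pow_left hl d
    exact (Nat.pow_le_pow_iff_right (by norm_num)).1 (a1.trans a2)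
  have h4 : 2 ^ (d / 2) ≤ b + k := by
    have a1 := Nat.add_choose_mul_factorial_mul_factorial b k
    have a2 : (b + k).choose k = (k + 1).ascFactorial d := by
      rw [← h, ← Nat.factorial_mul_ascFactorial] at a1
      have : (b ! * k !) * (b + k).choose k = (b ! * k !) * (k + 1).ascFactorial d := by
        linarith
      exact Nat.eq_of_mul_eq_mul_left (by positivity) this
    have a3 : 2 ^ (d / 2) ∣ (b + k).choose k := by
      rw [a2]
      refine dvd_trans ?_ (Nat.factorial_dvd_ascFactorial _ _)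
      simpa using fact_pow_dvd (d / 2) 2 d (Nat.div_mul_le_self d 2)
    have a4 := (Nat.prime_two.pow_dvd_iff_le_factorization
      (Nat.choose_pos (Nat.le_add_left k b)).ne').1 a3
    exact (Nat.pow_le_pow_right (by norm_num) a4).trans (Nat.pow_factorization_choose_le (by omega))
  have h5 : d / 2 * k ≤ k + l * (k + d) := by
    have a1 : (2 ^ (d / 2)) ^ k ≤ (2 * (b + 1)) ^ k := Nat.pow_le_pow_left (by omega) k
    have a2 : (k + d)! ≤ 2 ^ (l * (k + d)) := by
      rw [pow_mul]; exact (Nat.factorial_le_pow _).trans (Nat.pow_le_pow_left hl _)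
    have a3 : 2 ^ (d / 2 * k) ≤ 2 ^ (k + l * (k + d)) := by
      rw [pow_mul, pow_add]
      refine a1.trans ?_
      rw [mul_pow]
      exact Nat.mul_le_mul_left _ (h1.trans a2)
    exact (Nat.pow_le_pow_iff_right (by norm_num)).1 a3
  have h6 : k + d ≤ 2 * (l * d) + 1 := by omega
  rcases Nat.lt_or_ge d 10 with hd | hd
  · have : l * d ≤ l * 9 := Nat.mul_le_mul_left _ (by omega)
    left
    nlinarith
  · have a1 : d ≤ 4 * (d / 2 - 1) := by omega
    obtain ⟨e, he⟩ : ∃ e, d / 2 = e + 1 := ⟨d / 2 - 1, by omega⟩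
    rw [he] at h5 a1
    simp only [Nat.add_sub_cancel] at a1
    have a2 : d * k ≤ 4 * (l * (k + d)) := by nlinarith
    rcases Nat.lt_or_ge d k with hdk | hdk
    · left
      have a3 : d * k ≤ 8 * l * k := by nlinarith
      have a4 : d ≤ 8 * l := Nat.le_of_mul_le_mul_right a3 (by omega)
      nlinarith
    · right
      have a3 : d * k ≤ d * (8 * l) := by nlinarith
      exact Nat.le_of_mul_le_mul_left a3 (by omega)

lemma exists_log_bound (A : ℕ) (hA : 2 ≤ A) :
    ∃ l : ℕ, 2 ≤ l ∧ 2 * A ≤ 2 ^ l ∧ (l : ℝ) ≤ Real.log A / Real.log 2 + 2 := by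
  refine ⟨Nat.log 2 A + 2, by omega, ?_, ?_⟩
  · have := Nat.lt_pow_succ_log_self (b := 2) (by norm_num) A
    rw [Nat.pow_succ] at this
    rw [pow_add]; omega
  · have h1 : ((2 ^ Nat.log 2 A : ℕ) : ℝ) ≤ A := by exact_mod_cast Nat.pow_log_le_self 2 (by omega)
    have h2 := Real.log_le_log (by positivity) h1
    rw [Nat.cast_pow, Real.log_pow] at h2
    have h3 : 0 < Real.log 2 := Real.log_pos (by norm_num)
    push_cast at h2 ⊢
    have := (le_div_iff₀ h3).2 h2
    linarith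

lemma cube_le (g : ℕ) : g ^ 3 ≤ 4 * 2 ^ g := by
  induction g with
  | zero => norm_num
  | succ g ih =>
    rcases Nat.lt_or_ge g 4 with h | h
    · interval_cases g <;> norm_num
    · have h1 : (g + 1) ^ 3 ≤ 2 * g ^ 3 := by
        obtain ⟨t, rfl⟩ := Nat.exists_eq_add_of_le h
        ring_nf
        nlinarith [Nat.zero_le t, Nat.zero_le (t ^ 2), Nat.zero_le (t ^ 3)]
      rw [Nat.pow_succ 2 g]
      omega

lemma count_unif (k l A : ℕ) (hk : 2 ≤ k) (hk8 : k ≤ 8 * l) (hl : 2 * A ≤ 2 ^ l) (hl2 : 2 ≤ l)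
    (S : Finset ℕ) (hS : ∀ m ∈ S, m ≤ A ∧ ∃ x, ∏ a ∈ range k, (x + a) = m !) :
    S.card ≤ 10 ^ 13 * l ^ 9 := by
  classical
  set g := Nat.clog 2 l with hg
  have g1 : l ≤ 2 ^ g := Nat.le_pow_clog (by norm_num) l
  have g0 : 0 < g := Nat.clog_pos (by norm_num) (by omega)
  have g2 : 2 ^ g ≤ 2 * l := by
    have := Nat.pow_pred_clog_lt_self (b := 2) (by norm_num) (x := l) (by omega)
    rw [← hg, Nat.pred_eq_sub_one] at this
    have e : 2 ^ g = 2 * 2 ^ (g - 1) := by rw [← _root_.pow_succ']; congr 1; omega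
    omega
  have g3 : g + 1 ≤ 2 ^ g := Nat.lt_two_pow_self
  have h0 : 24 * k * (2 * g + 11) * l + 2 ≤ k ^ (2 * g + 11) := by
    have e : 2 ^ (2 * g + 10) = 1024 * 2 ^ g * 2 ^ g := by rw [pow_add, two_mul, pow_add]; ring
    have a1 : 24 * (2 * g + 11) * l + 1 ≤ 2 ^ (2 * g + 10) := by
      rw [e]
      calc 24 * (2 * g + 11) * l + 1 ≤ 24 * (2 * g + 11) * 2 ^ g + 2 ^ g := by gcongr; omega
        _ = (48 * g + 265) * 2 ^ g := by ring
        _ ≤ _ := Nat.mul_le_mul_right _ (by omega)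
    calc 24 * k * (2 * g + 11) * l + 2 ≤ k * (24 * (2 * g + 11) * l + 1) := by nlinarith
      _ ≤ k * k ^ (2 * g + 10) :=
          Nat.mul_le_mul_left _ (a1.trans (Nat.pow_le_pow_left hk _))
      _ = _ := by ring
  have hex : ∃ r, 24 * k * r * l + 2 ≤ k ^ r := ⟨_, h0⟩
  set r := Nat.find hex with hr
  have r1 : 24 * k * r * l + 2 ≤ k ^ r := Nat.find_spec hex
  have r2 : r ≤ 13 * g := (Nat.find_min' hex h0).trans (by omega)
  have r0 : 0 < r := by
    rcases Nat.eq_zero_or_pos r with h | h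
    · rw [h] at r1; simp at r1
    · exact h
  have r3 : k ^ r ≤ 26 * k ^ 2 * r * l := by
    have a1 := Nat.find_min hex (m := r - 1) (by omega)
    have e : k ^ r = k * k ^ (r - 1) := by rw [← _root_.pow_succ']; congr 1; omega
    have a2 : 24 * k * (r - 1) * l ≤ 24 * k * r * l := by gcongr; omega
    have a3 : 1 ≤ k * r * l := Nat.one_le_iff_ne_zero.2 (by positivity)
    have a4 : k ^ (r - 1) ≤ 26 * (k * r * l) := by nlinarith
    rw [e]
    nlinarith
  have r4 : r ^ 3 ≤ 17576 * l := by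
    have a1 := cube_le g
    have a2 : r ^ 3 ≤ (13 * g) ^ 3 := Nat.pow_le_pow_left r2 3
    rw [mul_pow] at a2
    omega
  have h1 := count_fixed k r l A hk hl r1 (by omega) S hS
  have h2 : k ^ 2 + 2 + 2 * k * r * l ≤ 82 * r * l ^ 2 := by
    have a1 : k ^ 2 ≤ (8 * l) ^ 2 := Nat.pow_le_pow_left hk8 2
    have a2 : 2 * k * r * l ≤ 2 * (8 * l) * r * l := by gcongr
    have a3 : l ^ 2 ≤ r * l ^ 2 := Nat.le_mul_of_pos_left _ r0
    nlinarith
  calc S.card ≤ 32 * r * k ^ (r + 2) * l * (k ^ 2 + 2 + 2 * k * r * l) := h1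
    _ = 32 * r * (k ^ r * k ^ 2) * l * (k ^ 2 + 2 + 2 * k * r * l) := by rw [pow_add]
    _ ≤ 32 * r * ((26 * (8 * l) ^ 2 * r * l) * (8 * l) ^ 2) * l * (82 * r * l ^ 2) := by
        gcongr
        exact r3.trans (by gcongr)
    _ = 279445504 * r ^ 3 * l ^ 8 := by ring
    _ ≤ 279445504 * (17576 * l) * l ^ 8 := by gcongr
    _ = 4911534178304 * l ^ 9 := by ring
    _ ≤ _ := by gcongr; norm_num

lemma count_all (l A : ℕ) (hl : 2 * A ≤ 2 ^ l) (hl2 : 2 ≤ l) (S : Finset ℕ)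
    (hS : ∀ a ∈ S, a ≤ A ∧ ∃ b c, 2 ≤ a ∧ a < b ∧ b + 2 ≤ c ∧ a ! * b ! = c !) :
    S.card ≤ 10 ^ 14 * l ^ 10 := by
  classical
  let T : ℕ → Finset ℕ := fun k =>
    S.filter (fun a => 2 ≤ k ∧ ∃ x, ∏ i ∈ range k, (x + i) = a !)
  have hsub : S ⊆ range (20 * l ^ 2 + 1) ∪ (range (8 * l + 1)).biUnion T := by
    intro a ha
    obtain ⟨haA, b, c, ha2, hab, hbc, h⟩ := hS a ha
    obtain ⟨k, rfl⟩ : ∃ k, c = b + k := ⟨c - b, by omega⟩
    rw [mem_union, mem_range, mem_biUnion]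
    rcases gap_bound (l := l) hab ha2 (by omega) h with hk | hk
    · left; omega
    · right
      exact ⟨k, mem_range.2 (by omega), mem_filter.2 ⟨ha, by omega, b + 1, prod_eq_of_fact h⟩⟩
  have hT : ∀ k ∈ range (8 * l + 1), (T k).card ≤ 10 ^ 13 * l ^ 9 := by
    intro k hk
    rw [mem_range] at hk
    by_cases hk2 : 2 ≤ k
    · exact count_unif k l A hk2 (by omega) hl hl2 (T k) (fun m hm => by
        obtain ⟨b1, -, b2⟩ := mem_filter.1 hm
        exact ⟨(hS m b1).1, b2⟩)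
    · have : T k = ∅ := filter_eq_empty_iff.2 fun a _ h => hk2 h.1
      rw [this]; simp
  have h1 := (card_le_card hsub).trans (card_union_le _ _)
  have h2 := card_biUnion_le_card_mul _ _ _ hT
  rw [card_range] at h1 h2
  have h3 : l ^ 2 ≤ l ^ 10 := Nat.pow_le_pow_right (by omega) (by norm_num)
  have h4 : (8 * l + 1) * (10 ^ 13 * l ^ 9) ≤ (9 * l) * (10 ^ 13 * l ^ 9) :=
    Nat.mul_le_mul_right _ (by omega)
  have h5 : (9 * l) * (10 ^ 13 * l ^ 9) = 9 * 10 ^ 13 * l ^ 10 := by ring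
  have h6 : 1 ≤ l ^ 10 := Nat.one_le_pow _ _ (by omega)
  omega

theorem two_factorials (A : ℕ) (hA : 2 ≤ A) :
    (({a : ℕ | a ≤ A ∧ ∃ b c : ℕ, 2 ≤ a ∧ a < b ∧ b + 2 ≤ c ∧ a ! * b ! = c !}.ncard : ℕ) : ℝ)
      ≤ 10 ^ 21 * Real.log A ^ 10 := by
  obtain ⟨l, hl2, hl, hlR⟩ := exists_log_bound A hA
  have hfin : {a : ℕ | a ≤ A ∧ ∃ b c : ℕ, 2 ≤ a ∧ a < b ∧ b + 2 ≤ c ∧ a ! * b ! = c !}.Finite :=
    (Set.finite_le_nat A).subset fun _ h => h.1
  rw [Set.ncard_eq_toFinset_card _ hfin]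
  have h1 := count_all l A hl hl2 hfin.toFinset (by
    intro m hm
    rwa [Set.Finite.mem_toFinset] at hm)
  have h2 : Real.log 2 ≤ Real.log A := Real.log_le_log (by norm_num) (by exact_mod_cast hA)
  have h3 := Real.log_two_gt_d9
  have h4 : (l : ℝ) ≤ 5 * Real.log A := by
    have : Real.log A / Real.log 2 ≤ 2 * Real.log A := by
      rw [div_le_iff₀ (by linarith)]; nlinarith
    linarith
  calc ((hfin.toFinset.card : ℕ) : ℝ) ≤ 10 ^ 14 * (l : ℝ) ^ 10 := by exact_mod_cast h1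
    _ ≤ 10 ^ 14 * (5 * Real.log A) ^ 10 := by gcongr
    _ ≤ _ := by
      have : 0 ≤ Real.log A ^ 10 := by positivity
      rw [mul_pow]; nlinarith

end

end Pool.Agent.H79Fact

end
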